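import Pool.Agent.V1184.Bic.Const

/-!
Classification of bicompatible statistics: the peak case.
-/

namespace Pool.Agent.V1184.Bic

variable {α : Type*}

lemma ins_lt' {v : ℕ → ℕ} {l b k : ℕ} (h : k < l) : ins v l b k = v k := by
  simp [ins, h]
lemma ins_eq' {v : ℕ → ℕ} {l b : ℕ} : ins v l b l = b := by
  simp [ins]
lemma ins_gt' {v : ℕ → ℕ} {l b k : ℕ} (h : l ≤ k) : ins v l b (k + 1) = v k := by
  have h1 : ¬ (k + 1 < l) := by omega
  have h2 : ¬ (k + 1 = l) := by omega
  simp [ins, h1, h2]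

lemma W_congr {n : ℕ} {f g : ℕ → ℕ} (h : ∀ a, a < n → f a = g a) : W n f = W n g := by
  unfold W
  apply List.map_congr_left
  intro a ha
  exact h a (List.mem_range.mp ha)

lemma W_ins {m : ℕ} {v : ℕ → ℕ} {b l : ℕ} (hl : l ≤ m) :
    (W m v).take l ++ b :: (W m v).drop l = W (m + 1) (ins v l b) := by
  apply List.ext_getElem
  · simp; omega
  · intro k h2 h3
    rw [W_length] at h3
    simp only [W, ins, List.getElem_append, List.getElem_take, List.getElem_map,
      List.getElem_range, List.getElem_cons, List.getElem_drop, List.length_take,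
      List.length_map, List.length_range]
    by_cases c1 : k < l
    · simp [c1]; omega
    · by_cases c2 : k = l
      · subst c2
        simp; omega
      · have c3 : ¬ (k < min l m) := by omega
        have c4 : ¬ (k - min l m = 0) := by omega
        simp only [c1, c2, c3, c4, if_false, dif_neg, not_false_eq_true]
        congr 1
        omega

lemma mem_shl_single (b : ℕ) (v w : List ℕ) :
    w ∈ shl [b] v ↔ ∃ l, l ≤ v.length ∧ w = v.take l ++ b :: v.drop l := by
  induction v generalizing w with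
  | nil => simp
  | cons c v ih =>
    rw [shl_cons_cons, shl_nil_left, List.mem_append, List.mem_map, List.mem_map]
    constructor
    · rintro (⟨w', hw', rfl⟩ | ⟨w', hw', rfl⟩)
      · simp only [List.mem_singleton] at hw'
        subst hw'
        exact ⟨0, by simp, by simp⟩
      · obtain ⟨l, hl, rfl⟩ := (ih w').1 hw'
        exact ⟨l + 1, by simpa using hl, by simp⟩
    · rintro ⟨l, hl, rfl⟩
      rcases l with _ | l
      · left
        exact ⟨c :: v, by simp, by simp⟩
      · right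
        refine ⟨v.take l ++ b :: v.drop l, (ih _).2 ⟨l, by simpa using hl, rfl⟩, by simp⟩

lemma Good.ins {n : ℕ} {f : ℕ → ℕ} {x j : ℕ} (h : Good n f) (hx : 0 < x)
    (hne : ∀ a, a < n → f a ≠ x) (hj : j ≤ n) : Good (n + 1) (ins f j x) := by
  have key : ∀ a, a < n + 1 → (a < j ∧ Bic.ins f j x a = f a ∧ a < n) ∨ (a = j ∧ Bic.ins f j x a = x) ∨
      (∃ k, a = k + 1 ∧ j ≤ k ∧ k < n ∧ Bic.ins f j x a = f k) := by
    intro a ha
    rcases lt_trichotomy a j with h1 | h1 | h1
    · exact Or.inl ⟨h1, ins_lt' h1, by omega⟩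
    · exact Or.inr (Or.inl ⟨h1, by rw [h1, ins_eq']⟩)
    · obtain ⟨k, rfl⟩ : ∃ k, a = k + 1 := ⟨a - 1, by omega⟩
      exact Or.inr (Or.inr ⟨k, rfl, by omega, by omega, ins_gt' (by omega)⟩)
  refine ⟨?_, ?_⟩
  · intro a b ha hb hab
    rcases key a ha with ⟨h1, h2, h3⟩ | ⟨h1, h2⟩ | ⟨k, h1, h2, h3, h4⟩ <;>
    rcases key b hb with ⟨g1, g2, g3⟩ | ⟨g1, g2⟩ | ⟨k', g1, g2, g3, g4⟩
    · rw [h2, g2] at hab
      exact h.1 a b h3 g3 hab
    · rw [h2, g2] at hab
      exact absurd hab (hne a h3)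
    · rw [h2, g4] at hab
      have := h.1 a k' h3 g3 hab
      omega
    · rw [h2, g2] at hab
      exact absurd hab.symm (hne b g3)
    · omega
    · rw [h2, g4] at hab
      exact absurd hab.symm (hne k' g3)
    · rw [h4, g2] at hab
      have := h.1 k b h3 g3 hab
      omega
    · rw [h4, g2] at hab
      exact absurd hab (hne k h3)
    · rw [h4, g4] at hab
      have := h.1 k k' h3 g3 hab
      omega
  · intro a ha
    rcases key a ha with ⟨h1, h2, h3⟩ | ⟨h1, h2⟩ | ⟨k, h1, h2, h3, h4⟩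
    · rw [h2]; exact h.2 a h3
    · rw [h2]; exact hx
    · rw [h4]; exact h.2 k h3

lemma Good.tail {n : ℕ} {f : ℕ → ℕ} (h : Good (n + 1) f) (c : ℕ) :
    Good n (fun k => f (k + 1) + c) := by
  refine ⟨fun a b ha hb hab => ?_, fun a ha => ?_⟩
  · have : f (a + 1) = f (b + 1) := by
      have := hab
      simp only at this
      omega
    have := h.1 (a + 1) (b + 1) (by omega) (by omega) this
    omega
  · have := h.2 (a + 1) (by omega)
    simp only
    omega

lemma Good.shift {n : ℕ} {f : ℕ → ℕ} (h : Good n f) (c : ℕ) : Good n (fun k => f k + c) := by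
  refine ⟨fun a b ha hb hab => ?_, fun a ha => ?_⟩
  · have : f a = f b := by
      have := hab
      simp only at this
      omega
    exact h.1 a b ha hb this
  · have := h.2 a ha
    simp only
    omega

/-- hypotheses: a bicompatible statistic -/
structure BC (st : List ℕ → α) : Prop where
  stat : IsStatistic st
  shuf : ShuffleCompatible st
  sub : SubstringCompatible st

variable {st : List ℕ → α}

lemma BC.ord (h : BC st) {n : ℕ} {f g : ℕ → ℕ} (hf : Good n f) (hg : Good n g)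
    (e : ∀ a b, a < n → b < n → (f a < f b ↔ g a < g b)) : st (W n f) = st (W n g) :=
  h.stat _ _ hf.ok hg.ok (sameOrder_W e)

lemma BC.subs (h : BC st) {n : ℕ} {f g : ℕ → ℕ} (hf : Good n f) (hg : Good n g)
    (e : st (W n f) = st (W n g)) (a b : ℕ) (hab : a + b ≤ n) :
    st (W b (fun i => f (a + i))) = st (W b (fun i => g (a + i))) := by
  have key : ∀ f : ℕ → ℕ, ((W n f).drop a).take b = W b (fun i => f (a + i)) := by
    intro f
    apply List.ext_getElem
    · simp; omega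
    · intro k h2 h3
      simp [W]
  have := h.sub _ _ hf.ok hg.ok (by simp) e a b
  rw [key, key] at this
  exact this

lemma BC.insEx (h : BC st) {n : ℕ} {f g : ℕ → ℕ} {x y : ℕ} (hf : Good n f) (hx : 0 < x)
    (hfx : ∀ a, a < n → f a ≠ x) (hg : Good n g) (hy : 0 < y) (hgy : ∀ a, a < n → g a ≠ y)
    (e : st (W n f) = st (W n g)) {j : ℕ} (hj : j ≤ n) :
    ∃ j', j' ≤ n ∧ st (W (n + 1) (ins f j x)) = st (W (n + 1) (ins g j' y)) := by
  have hok : ∀ {f : ℕ → ℕ} {x : ℕ}, Good n f → 0 < x → (∀ a, a < n → f a ≠ x) →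
      Ok ([x] ++ W n f) := by
    intro f x hf hx hfx
    refine ⟨?_, ?_⟩
    · simp only [List.singleton_append, List.nodup_cons]
      refine ⟨?_, hf.ok.1⟩
      intro hh
      rw [W, List.mem_map] at hh
      obtain ⟨a, ha, hab⟩ := hh
      exact hfx a (List.mem_range.mp ha) hab
    · intro z hz
      simp only [List.singleton_append, List.mem_cons] at hz
      rcases hz with rfl | hz
      · exact hx
      · exact hf.ok.2 z hz
  have h1 : st [x] = st [y] := by
    apply h.stat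
    · exact ⟨by simp, by simpa using hx⟩
    · exact ⟨by simp, by simpa using hy⟩
    · refine ⟨rfl, fun i j hi hj => ?_⟩
      simp only [List.length_singleton, Nat.lt_one_iff] at hi hj
      subst hi; subst hj
      simp
  have hp := map_perm h.shuf (hok hf hx hfx) (hok hg hy hgy) rfl (by simp) h1 e
  have h2 : st (W (n + 1) (ins f j x)) ∈ (shl [x] (W n f)).map st := by
    rw [List.mem_map]
    refine ⟨_, ?_, rfl⟩
    rw [mem_shl_single]
    exact ⟨j, by simpa using hj, (W_ins hj).symm⟩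
  rw [hp.mem_iff, List.mem_map] at h2
  obtain ⟨w, hw, hw2⟩ := h2
  rw [mem_shl_single] at hw
  obtain ⟨l, hl, rfl⟩ := hw
  rw [W_length] at hl
  rw [W_ins hl] at hw2
  exact ⟨l, hl, hw2.symm⟩

/-- `f` has a peak at position `i+1` (0-based), as a word of length `n` -/
def Pf (n : ℕ) (f : ℕ → ℕ) (i : ℕ) : Prop := i + 2 < n ∧ f i < f (i + 1) ∧ f (i + 2) < f (i + 1)

/-- on length 3 the statistic is the peak statistic -/
structure PkLow (st : List ℕ → α) : Prop where
  two : ∀ f g, Good 2 f → Good 2 g → st (W 2 f) = st (W 2 g)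
  three : ∀ f g, Good 3 f → Good 3 g → (st (W 3 f) = st (W 3 g) ↔ (Pf 3 f 0 ↔ Pf 3 g 0))

lemma pk_eq (h : BC st) (hl : PkLow st) {n : ℕ} {f g : ℕ → ℕ} (hf : Good n f) (hg : Good n g)
    (e : st (W n f) = st (W n g)) (i : ℕ) : Pf n f i ↔ Pf n g i := by
  by_cases hi : i + 2 < n
  · have h1 := h.subs hf hg e i 3 (by omega)
    have gf : ∀ {f : ℕ → ℕ}, Good n f → Good 3 (fun k => f (i + k)) := fun hf =>
      ⟨fun a b ha hb hab => by have := hf.1 (i + a) (i + b) (by omega) (by omega) hab; omega,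
        fun a ha => hf.2 _ (by omega)⟩
    rw [hl.three _ _ (gf hf) (gf hg)] at h1
    have e0 : i + 0 = i := rfl
    constructor
    · rintro ⟨_, h2, h3⟩
      have := h1.1 ⟨by norm_num, h2, h3⟩
      exact ⟨hi, this.2.1, this.2.2⟩
    · rintro ⟨_, h2, h3⟩
      have := h1.2 ⟨by norm_num, h2, h3⟩
      exact ⟨hi, this.2.1, this.2.2⟩
  · exact ⟨fun h => absurd h.1 hi, fun h => absurd h.1 hi⟩

def PP (st : List ℕ → α) (n : ℕ) : Prop :=
  ∀ f g, Good n f → Good n g → (∀ i, Pf n f i ↔ Pf n g i) → st (W n f) = st (W n g)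

/-! ### peak sets -/

structure PS (m : ℕ) (D : ℕ → Prop) (e : ℕ) : Prop where
  mem : D e
  min : ∀ i, D i → e ≤ i
  adj : ∀ i, D i → ¬ D (i + 1)
  bd : ∀ i, D i → i + 2 < m + 1

lemma P1 {m e : ℕ} {D : ℕ → Prop} (hD : PS m D e) {ρ : ℕ → ℕ} {B : ℕ}
    (hB : ∀ a, a < m → ρ a < B) (hρ : ∀ s, Pf m ρ s ↔ (e ≤ s ∧ D (s + 1))) (i : ℕ) :
    Pf (m + 1) (ins ρ (e + 1) B) i ↔ D i := by
  have hbe := hD.bd e hD.mem
  rcases lt_trichotomy i e with hi | hi | hi
  · refine ⟨fun h => ?_, fun h => absurd (hD.min i h) (by omega)⟩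
    obtain ⟨h1, h2, h3⟩ := h
    exfalso
    by_cases c : i + 1 = e
    · have h4 : ins ρ (e + 1) B (i + 2) = B := by
        have : i + 2 = e + 1 := by omega
        rw [this, ins_eq']
      rw [h4, ins_lt' (show i + 1 < e + 1 by omega)] at h3
      have := hB (i + 1) (by omega)
      omega
    · rw [ins_lt' (show i < e + 1 by omega), ins_lt' (show i + 1 < e + 1 by omega)] at h2
      rw [ins_lt' (show i + 2 < e + 1 by omega), ins_lt' (show i + 1 < e + 1 by omega)] at h3
      have := (hρ i).1 ⟨by omega, h2, h3⟩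
      omega
  · subst hi
    refine ⟨fun _ => hD.mem, fun _ => ⟨hbe, ?_, ?_⟩⟩
    · rw [ins_lt' (Nat.lt_succ_self i), ins_eq']
      exact hB i (by omega)
    · rw [ins_eq', ins_gt' (le_refl _)]
      exact hB (i + 1) (by omega)
  · obtain ⟨t, rfl⟩ : ∃ t, i = t + 1 := ⟨i - 1, by omega⟩
    by_cases c : t = e
    · subst c
      refine ⟨fun h => ?_, fun h => absurd h (hD.adj t hD.mem)⟩
      obtain ⟨h1, h2, h3⟩ := h
      rw [ins_eq', ins_gt' (le_refl _)] at h2
      have := hB (t + 1) (by omega)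
      omega
    · have e1 : ins ρ (e + 1) B (t + 1) = ρ t := ins_gt' (by omega)
      have e2 : ins ρ (e + 1) B (t + 1 + 1) = ρ (t + 1) := ins_gt' (by omega)
      have e3 : ins ρ (e + 1) B (t + 1 + 2) = ρ (t + 2) := ins_gt' (by omega)
      unfold Pf
      rw [e1, e2, e3]
      constructor
      · rintro ⟨h1, h2, h3⟩
        exact ((hρ t).1 ⟨by omega, h2, h3⟩).2
      · intro h
        obtain ⟨h1, h2, h3⟩ := (hρ t).2 ⟨by omega, h⟩
        exact ⟨by omega, h2, h3⟩

lemma U1 {m e : ℕ} {D : ℕ → Prop} (hD : PS m D e) {ρ : ℕ → ℕ} {B j : ℕ}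
    (hB : ∀ a, a < m → ρ a < B) (hρ : ∀ s, Pf m ρ s ↔ (e ≤ s ∧ D (s + 1))) (hj : j ≤ m)
    (h : ∀ i, Pf (m + 1) (ins ρ j B) i ↔ D i) : j = e + 1 := by
  have hbe := hD.bd e hD.mem
  obtain ⟨h1, h2, h3⟩ := (h e).2 hD.mem
  by_contra hne
  rcases Nat.lt_or_ge j (e + 1) with c | c
  · rcases Nat.eq_zero_or_pos j with c0 | c0
    · subst c0
      rcases Nat.eq_zero_or_pos e with c1 | c1
      · subst c1
        rw [ins_eq', ins_gt' (le_refl _)] at h2
        have := hB 0 (by omega)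
        omega
      · obtain ⟨k, rfl⟩ : ∃ k, e = k + 1 := ⟨e - 1, by omega⟩
        have e1 : ins ρ 0 B (k + 1) = ρ k := ins_gt' (by omega)
        have e2 : ins ρ 0 B (k + 1 + 1) = ρ (k + 1) := ins_gt' (by omega)
        have e3 : ins ρ 0 B (k + 1 + 2) = ρ (k + 2) := ins_gt' (by omega)
        rw [e1, e2] at h2
        rw [e3, e2] at h3
        have := (hρ k).1 ⟨by omega, h2, h3⟩
        omega
    · obtain ⟨k, rfl⟩ : ∃ k, j = k + 1 := ⟨j - 1, by omega⟩
      have h4 : Pf (m + 1) (ins ρ (k + 1) B) k := by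
        refine ⟨by omega, ?_, ?_⟩
        · rw [ins_lt' (Nat.lt_succ_self k), ins_eq']
          exact hB k (by omega)
        · rw [ins_eq', ins_gt' (le_refl _)]
          exact hB (k + 1) (by omega)
      have := hD.min k ((h k).1 h4)
      omega
  · by_cases c2 : j = e + 2
    · subst c2
      rw [ins_eq', ins_lt' (by omega)] at h3
      have := hB (e + 1) (by omega)
      omega
    · rw [ins_lt' (by omega), ins_lt' (by omega)] at h2
      rw [ins_lt' (by omega), ins_lt' (by omega)] at h3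
      have := (hρ e).1 ⟨by omega, h2, h3⟩
      exact hD.adj e hD.mem this.2

lemma V1 (h : BC st) (hl : PkLow st) {m e : ℕ} (hP : PP st m) {D : ℕ → Prop} (hD : PS m D e)
    {ρ ρ' : ℕ → ℕ} {B B' : ℕ} (hg : Good m ρ) (hg' : Good m ρ') (hB : ∀ a, a < m → ρ a < B)
    (hB' : ∀ a, a < m → ρ' a < B')
    (hρ : ∀ s, Pf m ρ s ↔ (e ≤ s ∧ D (s + 1))) (hρ' : ∀ s, Pf m ρ' s ↔ (e ≤ s ∧ D (s + 1))) :
    st (W (m + 1) (ins ρ (e + 1) B)) = st (W (m + 1) (ins ρ' (e + 1) B')) := by
  have hbe := hD.bd e hD.mem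
  have hBp : 0 < B := by have := hB e (by omega); omega
  have hBp' : 0 < B' := by have := hB' e (by omega); omega
  have hne : ∀ a, a < m → ρ a ≠ B := fun a ha => (hB a ha).ne
  have hne' : ∀ a, a < m → ρ' a ≠ B' := fun a ha => (hB' a ha).ne
  obtain ⟨j, hj, e1⟩ := h.insEx hg hBp hne hg' hBp' hne'
    (hP _ _ hg hg' (fun i => (hρ i).trans (hρ' i).symm)) (j := e + 1) (by omega)
  have h1 : ∀ i, Pf (m + 1) (ins ρ' j B') i ↔ D i := fun i =>
    (pk_eq h hl (hg.ins hBp hne (by omega)) (hg'.ins hBp' hne' hj) e1 i).symm.trans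
      (P1 hD hB hρ i)
  have := U1 hD hB' hρ' hj h1
  rw [e1, this]

end Pool.Agent.V1184.Bic
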