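import Pool.Agent.V1184.Bic.Cls

/-!
Classification of bicompatible statistics: the peak case, nonempty peak sets.
-/

namespace Pool.Agent.V1184.Bic

variable {α : Type*} {st : List ℕ → α}

lemma cons_ins {n : ℕ} (f : ℕ → ℕ) : W (n + 1) f = W (n + 1) (ins (fun k => f (k + 1)) 0 (f 0)) := by
  apply W_congr
  intro a _
  rcases a with _ | a
  · rw [ins_eq']
  · rw [ins_gt' (Nat.zero_le _)]

lemma Pf_tail {m : ℕ} (f : ℕ → ℕ) (s : ℕ) :
    Pf m (fun k => f (k + 1) + 0) s ↔ Pf (m + 1) f (s + 1) := by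
  unfold Pf
  simp only [add_zero]
  constructor
  · rintro ⟨h1, h2, h3⟩
    exact ⟨by omega, h2, h3⟩
  · rintro ⟨h1, h2, h3⟩
    exact ⟨by omega, h2, h3⟩

/-- a bound for the letters -/
def bnd (n : ℕ) (f : ℕ → ℕ) : ℕ := ∑ a ∈ Finset.range n, f a + 1

lemma lt_bnd {n : ℕ} {f : ℕ → ℕ} {a : ℕ} (h : a < n) : f a < bnd n f := by
  unfold bnd
  have := Finset.single_le_sum (f := f) (s := Finset.range n) (fun i _ => Nat.zero_le _)
    (Finset.mem_range.2 h)
  omega

/-- letters of a word after deleting the first one -/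
lemma first_data {n : ℕ} {f : ℕ → ℕ} (h : Good (n + 1) f) :
    Good n (fun k => f (k + 1) + 0) ∧ 0 < f 0 ∧ ∀ a, a < n → (fun k => f (k + 1) + 0) a ≠ f 0 := by
  refine ⟨h.tail 0, h.2 0 (by omega), fun a ha e => ?_⟩
  have := h.1 (a + 1) 0 (by omega) (by omega) (by simpa using e)
  omega

lemma cons_ins' {n : ℕ} (f : ℕ → ℕ) :
    W (n + 1) f = W (n + 1) (ins (fun k => f (k + 1) + 0) 0 (f 0)) := cons_ins f

lemma partA (h : BC st) (hl : PkLow st) {m : ℕ} (hP : PP st m) {D : ℕ → Prop} (hD : PS m D 0)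
    {f g : ℕ → ℕ} (hf : Good (m + 1) f) (hg : Good (m + 1) g) (hfD : ∀ i, Pf (m + 1) f i ↔ D i)
    (hgD : ∀ i, Pf (m + 1) g i ↔ D i) : st (W (m + 1) f) = st (W (m + 1) g) := by
  have key : ∀ f : ℕ → ℕ, Good (m + 1) f → (∀ i, Pf (m + 1) f i ↔ D i) →
      (∀ s, Pf m (fun k => f (k + 1) + 0) s ↔ (0 ≤ s ∧ D (s + 1))) ∧
      st (W (m + 1) f) = st (W (m + 1) (ins (fun k => f (k + 1) + 0) (0 + 1)
        (bnd m (fun k => f (k + 1) + 0)))) := by
    intro f hf hfD
    have hs : ∀ s, Pf m (fun k => f (k + 1) + 0) s ↔ (0 ≤ s ∧ D (s + 1)) := by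
      intro s
      rw [Pf_tail, hfD]
      simp
    refine ⟨hs, ?_⟩
    obtain ⟨h1, h2, h3⟩ := first_data hf
    have hB : ∀ a, a < m → (fun k => f (k + 1) + 0) a < bnd m (fun k => f (k + 1) + 0) :=
      fun a ha => lt_bnd (f := fun k => f (k + 1) + 0) ha
    have hBp : 0 < bnd m (fun k => f (k + 1) + 0) := by unfold bnd; omega
    obtain ⟨j, hj, e1⟩ := h.insEx h1 h2 h3 h1 hBp (fun a ha => (hB a ha).ne) rfl
      (Nat.zero_le m)
    have h4 : ∀ i, Pf (m + 1) (ins (fun k => f (k + 1) + 0) j (bnd m (fun k => f (k + 1) + 0))) i ↔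
        D i := by
      intro i
      rw [← cons_ins'] at e1
      exact (pk_eq h hl hf (h1.ins hBp (fun a ha => (hB a ha).ne) hj) e1 i).symm.trans (hfD i)
    have := U1 hD hB hs hj h4
    rw [cons_ins' f, e1, this]
  obtain ⟨a1, a2⟩ := key f hf hfD
  obtain ⟨b1, b2⟩ := key g hg hgD
  rw [a2, b2]
  exact V1 h hl hP hD (hf.tail 0) (hg.tail 0) (fun a ha => lt_bnd (f := fun k => f (k + 1) + 0) ha)
    (fun a ha => lt_bnd (f := fun k => g (k + 1) + 0) ha) a1 b1

open Classical in
/-- the canonical word whose peaks are at the positions `i+1`, `E i` -/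
noncomputable def kap (E : ℕ → Prop) : ℕ → ℕ
  | 0 => 1
  | i + 1 => if E i then 2 * i + 6 else 2 * i + 3

lemma kap_zero (E : ℕ → Prop) : kap E 0 = 1 := rfl
lemma kap_pos' {E : ℕ → Prop} {i : ℕ} (h : E i) : kap E (i + 1) = 2 * i + 6 := by
  simp [kap, h]
lemma kap_neg {E : ℕ → Prop} {i : ℕ} (h : ¬ E i) : kap E (i + 1) = 2 * i + 3 := by
  simp [kap, h]

lemma kap_cases (E : ℕ → Prop) (p : ℕ) : kap E p = 2 * p + 4 ∨ kap E p = 2 * p + 1 := by
  rcases p with _ | i
  · right; rfl
  · by_cases h : E i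
    · left; rw [kap_pos' h]; omega
    · right; rw [kap_neg h]; omega

lemma kap_good (E : ℕ → Prop) (n : ℕ) : Good n (kap E) := by
  refine ⟨fun a b _ _ hab => ?_, fun a _ => ?_⟩
  · rcases kap_cases E a with h1 | h1 <;> rcases kap_cases E b with h2 | h2 <;> omega
  · rcases kap_cases E a with h1 | h1 <;> omega

lemma kap_up {E : ℕ → Prop} {i : ℕ} (h : ¬ E i) : kap E (i + 1) < kap E (i + 2) := by
  rw [kap_neg h]
  rcases kap_cases E (i + 2) with h2 | h2 <;> omega

lemma kap_up0 {E : ℕ → Prop} : kap E 0 < kap E 1 := by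
  rw [kap_zero]
  rcases kap_cases E 1 with h2 | h2 <;> omega

lemma kap_down {E : ℕ → Prop} (adj : ∀ i, E i → ¬ E (i + 1)) {i : ℕ} (h : E i) :
    kap E (i + 2) < kap E (i + 1) := by
  rw [kap_pos' h, kap_neg (adj i h)]
  omega

lemma kap_pf {E : ℕ → Prop} (adj : ∀ i, E i → ¬ E (i + 1)) (n i : ℕ) :
    Pf n (kap E) i ↔ (i + 2 < n ∧ E i) := by
  unfold Pf
  constructor
  · rintro ⟨h1, h2, h3⟩
    refine ⟨h1, ?_⟩
    by_contra hE
    have := kap_up hE
    omega
  · rintro ⟨h1, hE⟩
    refine ⟨h1, ?_, kap_down adj hE⟩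
    rcases i with _ | k
    · exact kap_up0
    · exact kap_up (fun hk => adj k hk hE)

lemma kap_inc {E : ℕ → Prop} {e : ℕ} (hE : ∀ i, E i → e ≤ i) {p : ℕ} (hp : p ≤ e) :
    kap E p < kap E (p + 1) := by
  rcases p with _ | k
  · exact kap_up0
  · exact kap_up (fun hk => by have := hE k hk; omega)

lemma kap_lt (E : ℕ → Prop) {k a : ℕ} (ha : a < k) : kap E a < 2 * k + 10 := by
  rcases kap_cases E a with h | h <;> omega

lemma partB (h : BC st) (hl : PkLow st) {k e : ℕ} (he : 1 ≤ e) (hP : PP st (k + 1))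
    {D : ℕ → Prop} (hD : PS (k + 1) D e)
    {f : ℕ → ℕ} (hf : Good (k + 2) f) (hfD : ∀ i, Pf (k + 2) f i ↔ D i) :
    st (W (k + 2) f) = st (W (k + 2) (ins (ins (fun a => kap (fun i => e ≤ i ∧ D (i + 2)) a + 1) 0 1)
      (e + 1) (2 * k + 10 + 1))) := by
  set E : ℕ → Prop := fun i => e ≤ i ∧ D (i + 2) with hE
  have hEe : ∀ i, E i → e ≤ i := fun i hi => hi.1
  have hEadj : ∀ i, E i → ¬ E (i + 1) := fun i hi hi2 => hD.adj _ hi.2 hi2.2
  have hbe := hD.bd e hD.mem
  set B := 2 * k + 10 with hBd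
  have hκB : ∀ a, a < k → kap E a < B := fun a ha => kap_lt E ha
  -- the word c (with B inserted at position e), letters shifted by 1
  set c1 : ℕ → ℕ := fun a => ins (kap E) e B a + 1 with hc1
  have hgc : Good (k + 1) (ins (kap E) e B) :=
    (kap_good E k).ins (by omega) (fun a ha => (hκB a ha).ne) (by omega)
  have hgc1 : Good (k + 1) c1 := hgc.shift 1
  have c_lt : ∀ a, a < e → c1 a = kap E a + 1 := fun a ha => by
    simp only [hc1]; rw [ins_lt' ha]
  have c_eq : c1 e = B + 1 := by simp only [hc1]; rw [ins_eq']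
  have c_gt : ∀ a, e ≤ a → c1 (a + 1) = kap E a + 1 := fun a ha => by
    simp only [hc1]; rw [ins_gt' ha]
  have hcp : ∀ i, Pf (k + 1) c1 i ↔ D (i + 1) := by
    intro i
    rcases lt_trichotomy (i + 1) e with hi | hi | hi
    · refine ⟨fun hh => ?_, fun hh => absurd (hD.min _ hh) (by omega)⟩
      exfalso
      obtain ⟨h1, h2, h3⟩ := hh
      by_cases c : i + 2 = e
      · rw [show i + 2 = e from c, c_eq, c_lt (i + 1) (by omega)] at h3
        have := hκB (i + 1) (by omega)
        omega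
      · rw [c_lt (i + 2) (by omega), c_lt (i + 1) (by omega)] at h3
        have := kap_inc hEe (show i + 1 ≤ e by omega)
        have h5 : kap E (i + 1 + 1) = kap E (i + 2) := rfl
        omega
    · refine ⟨fun _ => by rw [hi]; exact hD.mem, fun _ => ⟨by omega, ?_, ?_⟩⟩
      · rw [hi, c_eq, c_lt i (by omega)]
        have := hκB i (by omega)
        omega
      · have e2 : c1 (i + 2) = kap E e + 1 := by
          rw [show i + 2 = e + 1 by omega]; exact c_gt e (le_refl _)
        rw [e2, hi, c_eq]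
        have := hκB e (by omega)
        omega
    · rcases Nat.eq_or_lt_of_le (show e ≤ i by omega) with hh | hh
      · subst hh
        refine ⟨fun h' => ?_, fun h' => absurd h' (hD.adj e hD.mem)⟩
        exfalso
        obtain ⟨h1, h2, h3⟩ := h'
        rw [c_eq, c_gt e (le_refl _)] at h2
        have := hκB e (by omega)
        omega
      · obtain ⟨t, rfl⟩ : ∃ t, i = t + 1 := ⟨i - 1, by omega⟩
        have e1 : c1 (t + 1) = kap E t + 1 := c_gt t (by omega)
        have e2 : c1 (t + 1 + 1) = kap E (t + 1) + 1 := c_gt (t + 1) (by omega)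
        have e3 : c1 (t + 1 + 2) = kap E (t + 2) + 1 := c_gt (t + 2) (by omega)
        have hk := kap_pf hEadj k t
        unfold Pf at hk ⊢
        rw [e1, e2, e3]
        constructor
        · rintro ⟨h1, h2, h3⟩
          exact (hk.1 ⟨by omega, by omega, by omega⟩).2.2
        · intro hd
          have hb := hD.bd _ hd
          obtain ⟨h1, h2, h3⟩ := hk.2 ⟨by omega, by omega, hd⟩
          exact ⟨by omega, by omega, by omega⟩
  -- values for the two insertions
  obtain ⟨g1, g2, g3⟩ := first_data hf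
  have hsame : st (W (k + 1) (fun a => f (a + 1) + 0)) = st (W (k + 1) c1) := by
    apply hP _ _ g1 hgc1
    intro i
    rw [Pf_tail, hfD, hcp]
  have hc1ne : ∀ a, a < k + 1 → c1 a ≠ 1 := fun a ha hh => by
    have := hgc.2 a ha
    simp only [hc1] at hh
    omega
  obtain ⟨j, hj, e1⟩ := h.insEx g1 g2 g3 hgc1 one_pos hc1ne hsame (Nat.zero_le (k + 1))
  rw [← cons_ins'] at e1
  have hpj : ∀ i, Pf (k + 2) (ins c1 j 1) i ↔ D i := fun i =>
    (pk_eq h hl hf (hgc1.ins one_pos hc1ne hj) e1 i).symm.trans (hfD i)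
  have hj1 : j ≤ 1 := by
    by_contra hcon
    push Not at hcon
    have hex : ∃ t, t < e ∧ Pf (k + 2) (ins c1 j 1) t := by
      rcases lt_trichotomy j (e + 1) with hc | hc | hc
      · refine ⟨j - 2, by omega, by omega, ?_, ?_⟩
        · obtain ⟨t, rfl⟩ : ∃ t, j = t + 2 := ⟨j - 2, by omega⟩
          rw [show t + 2 - 2 = t by omega, ins_lt' (by omega), ins_lt' (by omega),
            c_lt _ (by omega), c_lt _ (by omega)]
          have := kap_inc hEe (show t ≤ e by omega)
          omega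
        · obtain ⟨t, rfl⟩ : ∃ t, j = t + 2 := ⟨j - 2, by omega⟩
          rw [show t + 2 - 2 = t by omega, ins_eq', ins_lt' (by omega), c_lt _ (by omega)]
          rcases kap_cases E (t + 1) with h | h <;> omega
      · subst hc
        obtain ⟨t, rfl⟩ : ∃ t, e = t + 1 := ⟨e - 1, by omega⟩
        refine ⟨t, by omega, by omega, ?_, ?_⟩
        · rw [ins_lt' (by omega), ins_lt' (by omega), c_eq, c_lt _ (by omega)]
          have := hκB t (by omega)
          omega
        · rw [ins_eq', ins_lt' (by omega), c_eq]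
          omega
      · obtain ⟨t, rfl⟩ : ∃ t, e = t + 1 := ⟨e - 1, by omega⟩
        refine ⟨t, by omega, by omega, ?_, ?_⟩
        · rw [ins_lt' (by omega), ins_lt' (by omega), c_eq, c_lt _ (by omega)]
          have := hκB t (by omega)
          omega
        · rw [ins_lt' (by omega), ins_lt' (by omega), c_eq]
          have e5 : c1 (t + 2) = kap E (t + 1) + 1 := c_gt (t + 1) (le_refl _)
          rw [e5]
          have := hκB (t + 1) (by omega)
          omega
    obtain ⟨t, ht, hpt⟩ := hex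
    have := hD.min t ((hpj t).1 hpt)
    omega
  -- the two words ρ
  have hκ1 : Good k (fun a => kap E a + 1) := (kap_good E k).shift 1
  have hκne : ∀ a, a < k → (fun a => kap E a + 1) a ≠ 1 := fun a _ hh => by
    simp only at hh
    rcases kap_cases E a with h | h <;> omega
  have hρg : ∀ l, l ≤ 1 → Good (k + 1) (ins (fun a => kap E a + 1) l 1) := fun l hl' =>
    hκ1.ins one_pos hκne (by omega)
  have hρB : ∀ l, l ≤ 1 → ∀ a, a < k + 1 → ins (fun a => kap E a + 1) l 1 a < B + 1 := by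
    intro l hl' a ha
    rcases lt_trichotomy a l with hc | hc | hc
    · rw [ins_lt' hc]
      have := hκB a (by omega)
      omega
    · rw [hc, ins_eq']; omega
    · obtain ⟨t, rfl⟩ : ∃ t, a = t + 1 := ⟨a - 1, by omega⟩
      rw [ins_gt' (by omega)]
      have := hκB t (by omega)
      omega
  have hρ0 : ∀ s, Pf (k + 1) (ins (fun a => kap E a + 1) 0 1) s ↔ (e ≤ s ∧ D (s + 1)) := by
    intro s
    rcases s with _ | t
    · refine ⟨fun hh => ?_, fun hh => absurd hh.1 (by omega)⟩
      exfalso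
      obtain ⟨h1, h2, h3⟩ := hh
      have e1 : ins (fun a => kap E a + 1) 0 1 (0 + 1) = kap E 0 + 1 := ins_gt' (le_refl _)
      have e2 : ins (fun a => kap E a + 1) 0 1 (0 + 2) = kap E 1 + 1 :=
        ins_gt' (k := 1) (Nat.zero_le _)
      rw [e1, e2] at h3
      have := kap_up0 (E := E)
      omega
    · have e1 : ins (fun a => kap E a + 1) 0 1 (t + 1) = kap E t + 1 := ins_gt' (Nat.zero_le _)
      have e2 : ins (fun a => kap E a + 1) 0 1 (t + 1 + 1) = kap E (t + 1) + 1 :=
        ins_gt' (Nat.zero_le _)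
      have e3 : ins (fun a => kap E a + 1) 0 1 (t + 1 + 2) = kap E (t + 2) + 1 :=
        ins_gt' (k := t + 2) (Nat.zero_le _)
      have hk := kap_pf hEadj k t
      unfold Pf at hk ⊢
      rw [e1, e2, e3]
      constructor
      · rintro ⟨h1, h2, h3⟩
        obtain ⟨_, h5, h6⟩ := hk.1 ⟨by omega, by omega, by omega⟩
        exact ⟨by omega, h6⟩
      · rintro ⟨h1, h2⟩
        have hb := hD.bd _ h2
        have hne : e ≠ t + 1 := fun hh => by
          rw [← hh] at h2
          exact hD.adj e hD.mem h2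
        obtain ⟨h1, h2, h3⟩ := hk.2 ⟨by omega, by omega, h2⟩
        exact ⟨by omega, by omega, by omega⟩
  have hρ1 : ∀ s, Pf (k + 1) (ins (fun a => kap E a + 1) 1 1) s ↔ (e ≤ s ∧ D (s + 1)) := by
    intro s
    have f1 : ins (fun a => kap E a + 1) 1 1 1 = 1 := ins_eq'
    have fg : ∀ a, 1 ≤ a → ins (fun a => kap E a + 1) 1 1 (a + 1) = kap E a + 1 :=
      fun a ha => ins_gt' ha
    rcases s with _ | _ | t
    · refine ⟨fun hh => ?_, fun hh => absurd hh.1 (by omega)⟩
      exfalso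
      obtain ⟨h1, h2, h3⟩ := hh
      have f0 : ins (fun a => kap E a + 1) 1 1 0 = kap E 0 + 1 := ins_lt' (by omega)
      rw [f0] at h2
      have f1' : ins (fun a => kap E a + 1) 1 1 (0 + 1) = 1 := f1
      rw [f1'] at h2
      omega
    · refine ⟨fun hh => ?_, fun hh => ?_⟩
      · exfalso
        obtain ⟨h1, h2, h3⟩ := hh
        have e2 : ins (fun a => kap E a + 1) 1 1 (0 + 1 + 1) = kap E 1 + 1 := fg 1 (le_refl _)
        have e3 : ins (fun a => kap E a + 1) 1 1 (0 + 1 + 2) = kap E 2 + 1 := fg 2 (by omega)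
        rw [e2, e3] at h3
        have := kap_inc hEe (show 1 ≤ e from he)
        have h5 : kap E (1 + 1) = kap E 2 := rfl
        omega
      · have : e = 1 := by omega
        rw [show (0 + 1 + 1 : ℕ) = e + 1 by omega] at hh
        exact absurd hh.2 (hD.adj e hD.mem)
    · have e1 : ins (fun a => kap E a + 1) 1 1 (t + 1 + 1) = kap E (t + 1) + 1 := fg _ (by omega)
      have e2 : ins (fun a => kap E a + 1) 1 1 (t + 1 + 1 + 1) = kap E (t + 2) + 1 :=
        fg _ (by omega)
      have e3 : ins (fun a => kap E a + 1) 1 1 (t + 1 + 1 + 2) = kap E (t + 3) + 1 :=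
        fg (t + 3) (by omega)
      have hk := kap_pf hEadj k (t + 1)
      unfold Pf at hk ⊢
      rw [e1, e2, e3]
      have e4 : kap E (t + 1 + 1) = kap E (t + 2) := rfl
      have e5 : kap E (t + 1 + 2) = kap E (t + 3) := rfl
      rw [e4, e5] at hk
      constructor
      · rintro ⟨h1, h2, h3⟩
        obtain ⟨_, h5, h6⟩ := hk.1 ⟨by omega, by omega, by omega⟩
        exact ⟨by omega, h6⟩
      · rintro ⟨h1, h2⟩
        have hb := hD.bd _ h2
        have hne : e ≠ t + 2 := fun hh => by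
          rw [show t + 1 + 1 + 1 = e + 1 by omega] at h2
          exact hD.adj e hD.mem h2
        obtain ⟨h1, h2, h3⟩ := hk.2 ⟨by omega, by omega, h2⟩
        exact ⟨by omega, by omega, by omega⟩
  have hpt : ∀ l, l ≤ 1 → W (k + 2) (ins c1 l 1) =
      W (k + 2) (ins (ins (fun a => kap E a + 1) l 1) (e + 1) (B + 1)) := by
    intro l hl'
    apply W_congr
    intro a _
    rcases lt_trichotomy a (e + 1) with hc | hc | hc
    · rw [ins_lt' hc]
      rcases lt_trichotomy a l with h1 | h1 | h1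
      · rw [ins_lt' h1, ins_lt' h1, c_lt a (by omega)]
      · rw [h1, ins_eq', ins_eq']
      · obtain ⟨t, rfl⟩ : ∃ t, a = t + 1 := ⟨a - 1, by omega⟩
        rw [ins_gt' (by omega), ins_gt' (by omega), c_lt t (by omega)]
    · rw [hc, ins_eq', ins_gt' (by omega), c_eq]
    · obtain ⟨t, rfl⟩ : ∃ t, a = t + 2 := ⟨a - 2, by omega⟩
      have q1 : ins c1 l 1 (t + 2) = c1 (t + 1) := ins_gt' (by omega)
      have q2 : ins (ins (fun a => kap E a + 1) l 1) (e + 1) (B + 1) (t + 2) =
          ins (fun a => kap E a + 1) l 1 (t + 1) := ins_gt' (k := t + 1) (by omega)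
      rw [q1, q2, c_gt t (by omega), ins_gt' (by omega)]
  rw [e1, hpt j hj1]
  have hj01 : j = 0 ∨ j = 1 := by omega
  rcases hj01 with rfl | rfl
  · rfl
  · exact V1 h hl hP hD (hρg 1 (le_refl _)) (hρg 0 (by omega)) (hρB 1 (le_refl _))
      (hρB 0 (by omega)) hρ1 hρ0

end Pool.Agent.V1184.Bic
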