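import Pool.Agent.V1184.Bic.Cls2

/-!
Classification of bicompatible statistics: the peak case, empty peak set and conclusion.
-/

namespace Pool.Agent.V1184.Bic

variable {α : Type*} {st : List ℕ → α}

def I1 : ℕ → ℕ := fun k => k + 1

lemma I1_good (n : ℕ) : Good n I1 :=
  ⟨fun a b _ _ h => by simp only [I1] at h; omega, fun a _ => by simp only [I1]; omega⟩

lemma nopk_of_inc {n : ℕ} {f : ℕ → ℕ} (h : ∀ i, f (i + 1) < f (i + 2)) (i : ℕ) : ¬ Pf n f i := by
  rintro ⟨_, _, h3⟩
  have := h i
  omega

def F2 : ℕ → ℕ := fun i => if i = 0 then 2 else if i = 1 then 1 else i + 1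
def F3 : ℕ → ℕ := fun i => if i = 0 then 3 else if i ≤ 2 then i else i + 1
def F4 : ℕ → ℕ := fun i => if i = 0 then 3 else if i = 1 then 2 else if i = 2 then 1 else i + 1
def hh : ℕ → ℕ := fun k => if k < 2 then k + 1 else k + 2
def qq : ℕ → ℕ := fun k => if k = 0 then 3 else if k = 1 then 2 else k + 2
def I2 : ℕ → ℕ := fun k => k + 2

lemma I1_ne {m : ℕ} : ∀ a, a < m → I1 a ≠ m + 1 := fun a ha => by simp only [I1]; omega

lemma I1_ins_last (m : ℕ) : W (m + 1) (ins I1 m (m + 1)) = W (m + 1) I1 := by
  apply W_congr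
  intro a ha
  simp only [ins, I1]
  split_ifs <;> omega

/-- inserting the largest letter in the increasing word without creating a peak -/
lemma end_of_nopk {m j : ℕ} (hj : j ≤ m) (h : ∀ i, ¬ Pf (m + 1) (ins I1 j (m + 1)) i) :
    j = 0 ∨ j = m := by
  by_contra hcon
  push Not at hcon
  apply h (j - 1)
  refine ⟨by omega, ?_, ?_⟩
  · simp only [ins, I1]
    split_ifs <;> omega
  · simp only [ins, I1]
    split_ifs <;> omega

lemma C1 (h : BC st) (hl : PkLow st) {m : ℕ} (hP : PP st m) {f : ℕ → ℕ}
    (hf : Good (m + 1) f) (hn : ∀ i, ¬ Pf (m + 1) f i) :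
    st (W (m + 1) f) = st (W (m + 1) I1) ∨ st (W (m + 1) f) = st (W (m + 1) (ins I1 0 (m + 1))) := by
  obtain ⟨g1, g2, g3⟩ := first_data hf
  have e0 : st (W m (fun k => f (k + 1) + 0)) = st (W m I1) := by
    apply hP _ _ g1 (I1_good m)
    intro i
    rw [Pf_tail]
    exact ⟨fun hh => absurd hh (hn _), fun hh => absurd hh (nopk_of_inc (fun i => by
      simp only [I1]; omega) i)⟩
  obtain ⟨j, hj, e1⟩ := h.insEx g1 g2 g3 (I1_good m) (by omega) I1_ne e0 (Nat.zero_le m)
  rw [← cons_ins'] at e1
  have h4 : ∀ i, ¬ Pf (m + 1) (ins I1 j (m + 1)) i := fun i hi =>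
    hn i ((pk_eq h hl hf ((I1_good m).ins (by omega) I1_ne hj) e1 i).2 hi)
  rcases end_of_nopk hj h4 with rfl | rfl
  · right; exact e1
  · left; rw [e1, I1_ins_last]

lemma F4_big {i : ℕ} (h : 3 ≤ i) : F4 i = i + 1 := by
  unfold F4
  rw [if_neg (by omega), if_neg (by omega), if_neg (by omega)]

lemma qq_big {i : ℕ} (h : 2 ≤ i) : qq i = i + 2 := by
  unfold qq
  rw [if_neg (by omega), if_neg (by omega)]

lemma qq_inc (t : ℕ) : qq (t + 1) < qq (t + 2) := by
  rcases t with _ | t
  · decide
  · rw [qq_big (by omega), qq_big (by omega)]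
    omega

lemma L4 {m : ℕ} (hm : 3 ≤ m) (i : ℕ) (hi : i < m + 2) :
    ins (ins qq 2 1) (m + 1) (m + 2) i = F4 i := by
  rcases Nat.lt_or_ge i (m + 1) with h | h
  · rw [ins_lt' h]
    simp only [ins, qq, F4]
    split_ifs <;> omega
  · have : i = m + 1 := by omega
    subst this
    rw [ins_eq', F4_big (by omega)]

lemma C2 (h : BC st) (hl : PkLow st) {m : ℕ} (hm : 3 ≤ m) (hP : PP st m) :
    st (W (m + 1) I1) = st (W (m + 1) (ins I1 0 (m + 1))) := by
  by_contra hne
  have hI0 : ∀ i, ¬ Pf (m + 1) (ins I1 0 (m + 1)) i := by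
    rintro i ⟨h1, h2, h3⟩
    simp only [ins, I1] at h2 h3
    split_ifs at h2 h3 <;> omega
  have hI : ∀ n i, ¬ Pf n I1 i := fun n i => nopk_of_inc (fun i => by simp only [I1]; omega) i
  have gI0 : Good (m + 1) (ins I1 0 (m + 1)) := (I1_good m).ins (by omega) I1_ne (by omega)
  -- y1
  have gI2 : Good m I2 :=
    ⟨fun a b _ _ h => by simp only [I2] at h; omega, fun a _ => by simp only [I2]; omega⟩
  have nI2 : ∀ a, a < m → I2 a ≠ 1 := fun a _ => by simp only [I2]; omega
  have y1 : st (W (m + 1) (ins I1 0 (m + 1))) = st (W (m + 1) (ins I2 1 1)) := by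
    obtain ⟨j, hj, e1⟩ := h.insEx (I1_good m) (by omega) I1_ne gI2 one_pos nI2
      (h.ord (I1_good m) gI2 (fun a b _ _ => by simp only [I1, I2]; omega)) (Nat.zero_le m)
    have h4 : ∀ i, ¬ Pf (m + 1) (ins I2 j 1) i := fun i hi =>
      hI0 i ((pk_eq h hl gI0 (gI2.ins one_pos nI2 hj) e1 i).2 hi)
    by_cases c : 2 ≤ j
    · exfalso
      apply h4 (j - 2)
      refine ⟨by omega, ?_, ?_⟩
      · simp only [ins, I2]; split_ifs <;> omega
      · simp only [ins, I2]; split_ifs <;> omega
    · have : j = 0 ∨ j = 1 := by omega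
      rcases this with rfl | rfl
      · exfalso
        apply hne
        rw [e1]
        congr 1
        apply W_congr
        intro a _
        simp only [ins, I1, I2]
        split_ifs <;> omega
      · exact e1
  -- y2
  have ghh : Good m hh := ⟨fun a b _ _ h => by
      simp only [hh] at h; split_ifs at h <;> omega, fun a _ => by
      simp only [hh]; split_ifs <;> omega⟩
  have nhh : ∀ a, a < m → hh a ≠ 3 := fun a _ => by simp only [hh]; split_ifs <;> omega
  have y2 : st (W (m + 1) (ins I1 0 (m + 1))) = st (W (m + 1) (ins hh 0 3)) := by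
    obtain ⟨j, hj, e1⟩ := h.insEx (I1_good m) (by omega) I1_ne ghh (by norm_num) nhh
      (h.ord (I1_good m) ghh (fun a b _ _ => by
        simp only [I1, hh]; split_ifs <;> omega)) (Nat.zero_le m)
    have h4 : ∀ i, ¬ Pf (m + 1) (ins hh j 3) i := fun i hi =>
      hI0 i ((pk_eq h hl gI0 (ghh.ins (by norm_num) nhh hj) e1 i).2 hi)
    by_cases c : 3 ≤ j
    · exfalso
      apply h4 (j - 2)
      refine ⟨by omega, ?_, ?_⟩
      · simp only [ins, hh]; split_ifs <;> omega
      · simp only [ins, hh]; split_ifs <;> omega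
    · have : j = 0 ∨ j = 1 ∨ j = 2 := by omega
      rcases this with rfl | rfl | rfl
      · exact e1
      · exfalso
        apply h4 0
        refine ⟨by omega, ?_, ?_⟩
        · simp [ins, hh]
        · simp [ins, hh]
      · exfalso
        apply hne
        rw [e1]
        congr 1
        apply W_congr
        intro a _
        simp only [ins, I1, hh]
        split_ifs <;> omega
  -- x1
  have gqq : Good m qq := ⟨fun a b _ _ h => by
      simp only [qq] at h; split_ifs at h <;> omega, fun a _ => by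
      simp only [qq]; split_ifs <;> omega⟩
  have nqq : ∀ a, a < m → qq a ≠ 1 := fun a _ => by simp only [qq]; split_ifs <;> omega
  have x1 : st (W (m + 1) I1) = st (W (m + 1) (ins qq 2 1)) := by
    have e0 : st (W m I1) = st (W m qq) := by
      apply hP _ _ (I1_good m) gqq
      intro i
      refine ⟨fun hx => absurd hx (hI _ i), fun hx => ?_⟩
      exfalso
      obtain ⟨h1, h2, h3⟩ := hx
      simp only [qq] at h2 h3
      split_ifs at h2 h3 <;> omega
    obtain ⟨j, hj, e1⟩ := h.insEx (I1_good m) (x := m + 1) (by omega) I1_ne gqq one_pos nqq e0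
      (le_refl m)
    rw [I1_ins_last] at e1
    have h4 : ∀ i, ¬ Pf (m + 1) (ins qq j 1) i := fun i hi =>
      hI (m + 1) i ((pk_eq h hl (I1_good (m + 1)) (gqq.ins one_pos nqq hj) e1 i).2 hi)
    by_cases c : 3 ≤ j
    · exfalso
      obtain ⟨t, rfl⟩ : ∃ t, j = t + 3 := ⟨j - 3, by omega⟩
      apply h4 (t + 1)
      refine ⟨by omega, ?_, ?_⟩
      · rw [ins_lt' (by omega), ins_lt' (by omega)]
        exact qq_inc t
      · rw [show t + 1 + 2 = t + 3 from rfl, ins_eq', ins_lt' (by omega), qq_big (by omega)]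
        omega
    · have : j = 0 ∨ j = 1 ∨ j = 2 := by omega
      rcases this with rfl | rfl | rfl
      · exfalso
        apply h4 0
        refine ⟨by omega, ?_, ?_⟩
        · simp [ins, qq]
        · simp [ins, qq]
      · exfalso
        apply hne
        rw [e1, y2]
        congr 1
        apply W_congr
        intro a _
        simp only [ins, hh, qq]
        split_ifs <;> omega
      · exact e1
  -- level m + 2
  have ga4 : Good (m + 1) (ins qq 2 1) := gqq.ins one_pos nqq (by omega)
  have na4 : ∀ a, a < m + 1 → ins qq 2 1 a ≠ m + 2 := fun a ha => by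
    simp only [ins, qq]; split_ifs <;> omega
  obtain ⟨j, hj, e1⟩ := h.insEx ga4 (x := m + 2) (by omega) na4 (I1_good (m + 1)) (y := m + 1 + 1)
    (by omega) I1_ne x1.symm (le_refl (m + 1))
  have gL : Good (m + 2) (ins (ins qq 2 1) (m + 1) (m + 2)) := ga4.ins (by omega) na4 (le_refl _)
  have gR : Good (m + 2) (ins I1 j (m + 1 + 1)) := (I1_good (m + 1)).ins (by omega) I1_ne hj
  have h4 : ∀ i, ¬ Pf (m + 1 + 1) (ins I1 j (m + 1 + 1)) i := fun i hi => by
    obtain ⟨h1, h2, h3⟩ := (pk_eq h hl gL gR e1 i).2 hi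
    rw [L4 hm _ (by omega), L4 hm _ (by omega)] at h2
    rw [L4 hm _ (by omega), L4 hm _ (by omega)] at h3
    rcases i with _ | _ | _ | i
    · simp [F4] at h2
    · simp [F4] at h2
    · simp [F4] at h3
    · simp only [F4] at h3
      split_ifs at h3 <;> omega
  have e2 := h.subs gL gR e1 1 (m + 1) (by omega)
  have gtail : ∀ {f : ℕ → ℕ}, Good (m + 2) f → Good (m + 1) (fun i => f (1 + i)) := fun {f} hf =>
    ⟨fun a b ha hb hab => by
      have := hf.1 (1 + a) (1 + b) (by omega) (by omega) hab; omega,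
      fun a ha => hf.2 _ (by omega)⟩
  have e3 : st (W (m + 1) (fun i => ins (ins qq 2 1) (m + 1) (m + 2) (1 + i))) =
      st (W (m + 1) (ins I2 1 1)) := by
    apply h.ord (gtail gL) (gI2.ins one_pos nI2 (by omega))
    intro a b ha hb
    have k1 : ∀ a, a < m + 1 → ins (ins qq 2 1) (m + 1) (m + 2) (1 + a) =
        (if a = 0 then 2 else if a = 1 then 1 else a + 2) := by
      intro a ha
      rw [L4 hm _ (by omega)]
      simp only [F4]
      split_ifs <;> omega
    have k2 : ∀ a, ins I2 1 1 a = (if a = 0 then 2 else if a = 1 then 1 else a + 1) := by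
      intro a
      simp only [ins, I2]
      split_ifs <;> omega
    rw [k1 a ha, k1 b hb, k2 a, k2 b]
    split_ifs <;> omega
  have e4 : st (W (m + 1) (fun i => ins I1 j (m + 1 + 1) (1 + i))) = st (W (m + 1) I1) := by
    apply h.ord (gtail gR) (I1_good _)
    intro a b ha hb
    rcases end_of_nopk hj h4 with rfl | rfl
    · simp only [ins, I1]
      split_ifs <;> omega
    · simp only [ins, I1]
      split_ifs <;> omega
  apply hne
  rw [y1, ← e3, e2, e4]

lemma partC (h : BC st) (hl : PkLow st) {m : ℕ} (hm : 3 ≤ m) (hP : PP st m) {f : ℕ → ℕ}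
    (hf : Good (m + 1) f) (hn : ∀ i, ¬ Pf (m + 1) f i) :
    st (W (m + 1) f) = st (W (m + 1) I1) := by
  rcases C1 h hl hP hf hn with h1 | h1
  · exact h1
  · rw [h1, C2 h hl hm hP]

theorem pk_main (h : BC st) (hl : PkLow st) (n : ℕ) : PP st n := by
  induction n with
  | zero => intro f g _ _ _; rfl
  | succ m ih =>
    intro f g hf hg hfg
    by_cases hm : 3 ≤ m
    · by_cases hex : ∃ i, Pf (m + 1) f i
      · classical
        have hD : PS m (fun i => Pf (m + 1) f i) (Nat.find hex) :=
          { mem := Nat.find_spec hex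
            min := fun i hi => Nat.find_min' hex hi
            adj := fun i hi hi2 => by
              have h1 := hi.2.2
              have h2 := hi2.2.1
              have e : f (i + 1 + 1) = f (i + 2) := rfl
              rw [e] at h2
              omega
            bd := fun i hi => hi.1 }
        rcases Nat.eq_zero_or_pos (Nat.find hex) with h0 | h0
        · rw [h0] at hD
          exact partA h hl ih hD hf hg (fun i => Iff.rfl) (fun i => (hfg i).symm)
        · obtain ⟨k, rfl⟩ : ∃ k, m = k + 1 := ⟨m - 1, by omega⟩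
          rw [partB h hl h0 ih hD hf (fun i => Iff.rfl),
            partB h hl h0 ih hD hg (fun i => (hfg i).symm)]
      · push Not at hex
        rw [partC h hl hm ih hf hex, partC h hl hm ih hg (fun i hi => hex i ((hfg i).2 hi))]
    · have : m = 0 ∨ m = 1 ∨ m = 2 := by omega
      rcases this with rfl | rfl | rfl
      · apply h.ord hf hg
        intro a b ha hb
        have : a = b := by omega
        subst this
        simp
      · exact hl.two f g hf hg
      · exact (hl.three f g hf hg).2 (hfg 0)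

end Pool.Agent.V1184.Bic
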