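import Pool.Agent.V1184.Bic.Cls3

/-!
Classification of bicompatible statistics: descents, and the values on length three.
-/

namespace Pool.Agent.V1184.Bic

variable {α : Type*} {st : List ℕ → α}

def Df (n : ℕ) (f : ℕ → ℕ) (i : ℕ) : Prop := i + 1 < n ∧ f (i + 1) < f i

lemma two_up (h : BC st) {f : ℕ → ℕ} (hf : Good 2 f) (hlt : f 0 < f 1) :
    st (W 2 f) = st [1, 2] := by
  have : st (W 2 f) = st (W 2 (fun k => k + 1)) := by
    apply h.ord hf (I1_good 2)
    intro a b ha hb
    interval_cases a <;> interval_cases b <;> simp [I1] <;> omega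
  exact this

lemma two_down (h : BC st) {f : ℕ → ℕ} (hf : Good 2 f) (hlt : f 1 < f 0) :
    st (W 2 f) = st [2, 1] := by
  have hg : Good 2 (fun k => 2 - k) := ⟨fun a b ha hb hab => by
    simp only at hab; omega, fun a ha => by simp only; omega⟩
  have : st (W 2 f) = st (W 2 (fun k => 2 - k)) := by
    apply h.ord hf hg
    intro a b ha hb
    interval_cases a <;> interval_cases b <;> simp <;> omega
  exact this

lemma des_eq (h : BC st) (h2 : st [1, 2] ≠ st [2, 1]) {n : ℕ} {f g : ℕ → ℕ} (hf : Good n f)
    (hg : Good n g) (e : st (W n f) = st (W n g)) (i : ℕ) : Df n f i ↔ Df n g i := by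
  by_cases hi : i + 1 < n
  · have h1 := h.subs hf hg e i 2 (by omega)
    have gf : ∀ {f : ℕ → ℕ}, Good n f → Good 2 (fun k => f (i + k)) := fun hf =>
      ⟨fun a b ha hb hab => by have := hf.1 (i + a) (i + b) (by omega) (by omega) hab; omega,
        fun a ha => hf.2 _ (by omega)⟩
    have hne : ∀ {f : ℕ → ℕ}, Good n f → f i ≠ f (i + 1) := fun hf e => by
      have := hf.1 i (i + 1) (by omega) (by omega) e
      omega
    rcases lt_or_gt_of_ne (hne hf) with c1 | c1 <;> rcases lt_or_gt_of_ne (hne hg) with c2 | c2
    · exact ⟨fun x => by have := x.2; omega, fun x => by have := x.2; omega⟩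
    · rw [two_up h (gf hf) c1, two_down h (gf hg) c2] at h1
      exact absurd h1 h2
    · rw [two_down h (gf hf) c1, two_up h (gf hg) c2] at h1
      exact absurd h1.symm h2
    · exact ⟨fun _ => ⟨hi, c2⟩, fun _ => ⟨hi, c1⟩⟩
  · exact ⟨fun h => absurd h.1 hi, fun h => absurd h.1 hi⟩

lemma des_main (h : BC st) (h2 : st [1, 2] ≠ st [2, 1]) (n : ℕ) :
    ∀ f g, Good n f → Good n g → (∀ i, Df n f i ↔ Df n g i) → st (W n f) = st (W n g) := by
  induction n with
  | zero => intro f g _ _ _; rfl
  | succ n ih =>
    intro f g hf hg hfg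
    have hlast : ∀ f : ℕ → ℕ, W (n + 1) f = W (n + 1) (ins f n (f n)) := by
      intro f
      apply W_congr
      intro a ha
      rcases Nat.lt_or_ge a n with c | c
      · rw [ins_lt' c]
      · have : a = n := by omega
        rw [this, ins_eq']
    have hne : ∀ {f : ℕ → ℕ}, Good (n + 1) f → ∀ a, a < n → f a ≠ f n := fun hf a ha e => by
      have := hf.1 a n (by omega) (by omega) e
      omega
    have hf' : Good n f := hf.mono (by omega)
    have hg' : Good n g := hg.mono (by omega)
    have e0 : st (W n f) = st (W n g) := by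
      apply ih f g hf' hg'
      intro i
      constructor
      · rintro ⟨h1, h3⟩
        exact ⟨h1, ((hfg i).1 ⟨by omega, h3⟩).2⟩
      · rintro ⟨h1, h3⟩
        exact ⟨h1, ((hfg i).2 ⟨by omega, h3⟩).2⟩
    obtain ⟨j, hj, e1⟩ := h.insEx hf' (hf.2 n (by omega)) (hne hf) hg' (hg.2 n (by omega)) (hne hg)
      e0 (le_refl n)
    rw [← hlast] at e1
    have hτ : ∀ i, Df (n + 1) (ins g j (g n)) i ↔ Df (n + 1) g i := fun i =>
      (des_eq h h2 hf (hg'.ins (hg.2 n (by omega)) (hne hg) hj) e1 i).symm.trans (hfg i)
    have hjn : j = n := by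
      by_contra hcon
      have hjlt : j < n := by omega
      have hstep : ∀ i, j ≤ i → i + 1 < n → (Df (n + 1) g (i + 1) ↔ Df (n + 1) g i) := by
        intro i hi hin
        rw [← hτ (i + 1)]
        unfold Df
        rw [ins_gt' (k := i + 1) (by omega), ins_gt' (k := i) hi]
        exact ⟨fun x => ⟨by omega, x.2⟩, fun x => ⟨by omega, x.2⟩⟩
      have hall : ∀ t, j + t < n → (Df (n + 1) g (j + t) ↔ Df (n + 1) g j) := by
        intro t
        induction t with
        | zero => intro _; exact Iff.rfl
        | succ t iht =>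
          intro ht
          exact (hstep (j + t) (by omega) (by omega)).trans (iht (by omega))
      have hc : Df (n + 1) g j ↔ g j < g n := by
        rw [← hτ j]
        unfold Df
        rw [ins_gt' (k := j) (le_refl _), ins_eq']
        exact ⟨fun x => x.2, fun x => ⟨by omega, x⟩⟩
      by_cases c : g j < g n
      · have hd : ∀ t, j + t ≤ n → g (j + t) ≤ g j := by
          intro t
          induction t with
          | zero => intro _; exact le_refl _
          | succ t iht =>
            intro ht
            have h5 := ((hall t (by omega)).2 (hc.2 c)).2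
            have := iht (by omega)
            have e5 : g (j + (t + 1)) = g (j + t + 1) := rfl
            omega
        have := hd (n - j) (by omega)
        rw [show j + (n - j) = n by omega] at this
        omega
      · have hd : ∀ t, j + t ≤ n → g j ≤ g (j + t) := by
          intro t
          induction t with
          | zero => intro _; exact le_refl _
          | succ t iht =>
            intro ht
            have h5 : ¬ Df (n + 1) g (j + t) := fun x => c (hc.1 ((hall t (by omega)).1 x))
            have := iht (by omega)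
            have e5 : g (j + (t + 1)) = g (j + t + 1) := rfl
            have h6 : ¬ g (j + t + 1) < g (j + t) := fun x => h5 ⟨by omega, x⟩
            omega
        have h7 := hd (n - j) (by omega)
        rw [show j + (n - j) = n by omega] at h7
        have h8 : g j ≠ g n := hne hg j hjlt
        omega
    rw [e1, hjn, ← hlast]

/-! ### length three -/

lemma cancel2 {x w y z : α} (h : [x, y, z].Perm [w, y, z]) : x = w := by
  have : ([x] ++ [y, z]).Perm ([w] ++ [y, z]) := h
  rw [List.perm_append_right_iff] at this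
  simpa using this

lemma ok3 {a b c : ℕ} (h1 : a ≠ b) (h2 : a ≠ c) (h3 : b ≠ c) (h4 : 0 < a) (h5 : 0 < b)
    (h6 : 0 < c) : Ok [a, b, c] := by
  refine ⟨by simp [h1, h2, h3], ?_⟩
  intro x hx
  simp at hx
  rcases hx with rfl | rfl | rfl <;> assumption

lemma so2 {a b c d : ℕ} (h : (a < b ↔ c < d)) (h' : (b < a ↔ d < c)) :
    SameOrder [a, b] [c, d] := by
  refine ⟨rfl, fun i j hi hj => ?_⟩
  simp only [List.length_cons, List.length_nil] at hi hj
  interval_cases i <;> interval_cases j <;> simp [h, h']

lemma so1 {a c : ℕ} : SameOrder [a] [c] := by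
  refine ⟨rfl, fun i j hi hj => ?_⟩
  simp only [List.length_cons, List.length_nil] at hi hj
  interval_cases i; interval_cases j; simp

lemma ok2 {a b : ℕ} (h1 : a ≠ b) (h4 : 0 < a) (h5 : 0 < b) : Ok [a, b] := by
  refine ⟨by simp [h1], ?_⟩
  intro x hx
  simp at hx
  rcases hx with rfl | rfl <;> assumption

lemma ok1 {a : ℕ} (h4 : 0 < a) : Ok [a] := ⟨by simp, by simpa using h4⟩

lemma three_vals (h : BC st) (h2 : st [1, 2] = st [2, 1]) :
    st [3, 1, 2] = st [2, 1, 3] ∧ st [1, 3, 2] = st [2, 3, 1] ∧ st [1, 2, 3] = st [3, 2, 1] := by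
  have s1 : st [1, 2] = st [1, 3] := h.stat _ _ (ok2 (by decide) (by decide) (by decide))
    (ok2 (by decide) (by decide) (by decide)) (so2 (by decide) (by decide))
  have s2 : st [1, 3] = st [2, 3] := h.stat _ _ (ok2 (by decide) (by decide) (by decide))
    (ok2 (by decide) (by decide) (by decide)) (so2 (by decide) (by decide))
  have t : ∀ a b : ℕ, 0 < a → 0 < b → st [a] = st [b] := fun a b ha hb =>
    h.stat _ _ (ok1 ha) (ok1 hb) so1
  have P1 : [st [3, 1, 2], st [1, 3, 2], st [1, 2, 3]].Perm
      [st [2, 1, 3], st [1, 2, 3], st [1, 3, 2]] :=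
    by
      have := map_perm h.shuf (u := [3]) (v := [1, 2]) (u' := [2]) (v' := [1, 3])
        (ok3 (by decide) (by decide) (by decide) (by decide) (by decide) (by decide))
        (ok3 (by decide) (by decide) (by decide) (by decide) (by decide) (by decide)) rfl rfl
        (t _ _ (by decide) (by decide)) s1
      simpa [shl] using this
  have P2 : [st [2, 1, 3], st [1, 2, 3], st [1, 3, 2]].Perm
      [st [1, 2, 3], st [2, 1, 3], st [2, 3, 1]] :=
    by
      have := map_perm h.shuf (u := [2]) (v := [1, 3]) (u' := [1]) (v' := [2, 3])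
        (ok3 (by decide) (by decide) (by decide) (by decide) (by decide) (by decide))
        (ok3 (by decide) (by decide) (by decide) (by decide) (by decide) (by decide)) rfl rfl
        (t _ _ (by decide) (by decide)) s2
      simpa [shl] using this
  have P3 : [st [3, 1, 2], st [1, 3, 2], st [1, 2, 3]].Perm
      [st [3, 2, 1], st [2, 3, 1], st [2, 1, 3]] :=
    by
      have := map_perm h.shuf (u := [3]) (v := [1, 2]) (u' := [3]) (v' := [2, 1])
        (ok3 (by decide) (by decide) (by decide) (by decide) (by decide) (by decide))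
        (ok3 (by decide) (by decide) (by decide) (by decide) (by decide) (by decide)) rfl rfl
        rfl h2
      simpa [shl] using this
  have r1 : st [3, 1, 2] = st [2, 1, 3] :=
    cancel2 (P1.trans ((List.Perm.swap _ _ _).cons _))
  have r2 : st [1, 3, 2] = st [2, 3, 1] := by
    -- rotate to put the distinguished element in front
    have a1 : [st [1, 3, 2], st [2, 1, 3], st [1, 2, 3]].Perm
        [st [2, 1, 3], st [1, 2, 3], st [1, 3, 2]] :=
      (List.Perm.swap _ _ _).trans ((List.Perm.swap _ _ _).cons _)
    have a2 : [st [1, 2, 3], st [2, 1, 3], st [2, 3, 1]].Perm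
        [st [2, 3, 1], st [2, 1, 3], st [1, 2, 3]] := by
      have := List.reverse_perm [st [2, 3, 1], st [2, 1, 3], st [1, 2, 3]]
      simpa using this
    exact cancel2 (a1.trans (P2.trans a2))
  refine ⟨r1, r2, ?_⟩
  rw [r1, r2] at P3
  have b1 : [st [1, 2, 3], st [2, 3, 1], st [2, 1, 3]].Perm
      [st [2, 1, 3], st [2, 3, 1], st [1, 2, 3]] := by
    have := List.reverse_perm [st [2, 1, 3], st [2, 3, 1], st [1, 2, 3]]
    simpa using this
  exact cancel2 (b1.trans P3)

lemma or_vals (h : BC st) (h2 : st [1, 2] = st [2, 1]) :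
    st [1, 3, 2] = st [1, 2, 3] ∨ st [3, 1, 2] = st [1, 2, 3] := by
  have s1 : st [3, 4] = st [4, 3] := by
    have a : st [3, 4] = st [1, 2] := h.stat _ _ (ok2 (by decide) (by decide) (by decide))
      (ok2 (by decide) (by decide) (by decide)) (so2 (by decide) (by decide))
    have b : st [4, 3] = st [2, 1] := h.stat _ _ (ok2 (by decide) (by decide) (by decide))
      (ok2 (by decide) (by decide) (by decide)) (so2 (by decide) (by decide))
    rw [a, b, h2]
  have okk : ∀ l : List ℕ, l.Nodup ∧ (∀ x ∈ l, 0 < x) → Ok l := fun l h => h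
  have P := map_perm h.shuf (u := [1, 2]) (v := [3, 4]) (u' := [1, 2]) (v' := [4, 3])
    (okk _ (by decide)) (okk _ (by decide)) rfl rfl rfl s1
  have m1 : st [1, 2, 3, 4] ∈ (shl [1, 2] [3, 4]).map st := by
    rw [List.mem_map]
    exact ⟨[1, 2, 3, 4], by simp [shl], rfl⟩
  rw [P.mem_iff, List.mem_map] at m1
  obtain ⟨w, hw, hw2⟩ := m1
  have key : ∀ w : List ℕ, Ok w → w.length = 4 → st w = st [1, 2, 3, 4] →
      st (w.take 3) = st [1, 2, 3] ∧ st (w.drop 1) = st [2, 3, 4] := by
    intro w hw hlen e
    refine ⟨?_, ?_⟩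
    · have := h.sub _ _ hw (okk [1, 2, 3, 4] (by decide)) (by simpa using hlen) e 0 3
      simpa using this
    · have := h.sub _ _ hw (okk [1, 2, 3, 4] (by decide)) (by simpa using hlen) e 1 3
      have e1 : (w.drop 1).take 3 = w.drop 1 := List.take_of_length_le (by simp [hlen])
      rw [e1] at this
      simpa using this
  have so : ∀ p q : List ℕ, Ok p → Ok q → p.length = q.length →
      (∀ i, i < p.length → ∀ j, j < p.length →
        (p.getD i 0 < p.getD j 0 ↔ q.getD i 0 < q.getD j 0)) → st p = st q :=
    fun p q hp hq hl hh => h.stat p q hp hq ⟨hl, fun i j hi hj => hh i hi j hj⟩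
  have d1 : st [2, 3, 4] = st [1, 2, 3] :=
    so _ _ (okk _ (by decide)) (okk _ (by decide)) rfl (by decide)
  have hmem : w ∈ [[1, 2, 4, 3], [1, 4, 2, 3], [1, 4, 3, 2], [4, 1, 2, 3], [4, 1, 3, 2],
      [4, 3, 1, 2]] := by
    simpa [shl, or_assoc] using hw
  simp only [List.mem_cons, List.not_mem_nil, or_false] at hmem
  rcases hmem with rfl | rfl | rfl | rfl | rfl | rfl
  · left
    have := (key _ (okk _ (by decide)) rfl hw2).2
    rw [d1] at this
    rw [← this]
    exact so _ _ (okk _ (by decide)) (okk _ (by decide)) rfl (by decide)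
  · left
    have := (key _ (okk _ (by decide)) rfl hw2).1
    rw [← this]
    exact so _ _ (okk _ (by decide)) (okk _ (by decide)) rfl (by decide)
  · left
    have := (key _ (okk _ (by decide)) rfl hw2).1
    rw [← this]
    exact so _ _ (okk _ (by decide)) (okk _ (by decide)) rfl (by decide)
  · right
    have := (key _ (okk _ (by decide)) rfl hw2).1
    rw [← this]
    exact so _ _ (okk _ (by decide)) (okk _ (by decide)) rfl (by decide)
  · right
    have := (key _ (okk _ (by decide)) rfl hw2).1
    rw [← this]
    exact so _ _ (okk _ (by decide)) (okk _ (by decide)) rfl (by decide)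
  · right
    have := (key _ (okk _ (by decide)) rfl hw2).2
    rw [d1] at this
    rw [← this]
    exact so _ _ (okk _ (by decide)) (okk _ (by decide)) rfl (by decide)

end Pool.Agent.V1184.Bic
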