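import Pool.Agent.V1184.Bic.Cls4

/-!
Classification of bicompatible statistics: the complement statistic, and the final statement.
-/

namespace Pool.Agent.V1184.Bic

variable {α : Type*} {st : List ℕ → α}

/-! ### complement -/

lemma Ok.comp {w : List ℕ} (h : Ok w) {B : ℕ} (hB : ∀ x ∈ w, x ≤ B) :
    Ok (w.map (fun x => B + 1 - x)) := by
  refine ⟨?_, ?_⟩
  · apply List.Nodup.map_on _ h.1
    intro a ha b hb hab
    have := hB a ha
    have := hB b hb
    omega
  · intro x hx
    rw [List.mem_map] at hx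
    obtain ⟨a, ha, rfl⟩ := hx
    have := hB a ha
    omega

lemma getD_comp {w : List ℕ} {B i : ℕ} (hi : i < w.length) :
    (w.map (fun x => B + 1 - x)).getD i 0 = B + 1 - w.getD i 0 := by
  rw [List.getD_eq_getElem _ _ (by simpa using hi), List.getD_eq_getElem _ _ hi]
  simp

lemma getD_le {w : List ℕ} {B i : ℕ} (hB : ∀ x ∈ w, x ≤ B) (hi : i < w.length) :
    w.getD i 0 ≤ B := by
  rw [List.getD_eq_getElem _ _ hi]
  exact hB _ (List.getElem_mem _)

lemma le_sum {w : List ℕ} : ∀ x ∈ w, x ≤ w.sum := fun x hx => List.le_sum_of_mem hx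

/-- the complement -/
def cm (w : List ℕ) : List ℕ := w.map (fun x => w.sum + 1 - x)

lemma comp_eq (h : BC st) {w : List ℕ} (hw : Ok w) {B C : ℕ} (hB : ∀ x ∈ w, x ≤ B)
    (hC : ∀ x ∈ w, x ≤ C) :
    st (w.map (fun x => B + 1 - x)) = st (w.map (fun x => C + 1 - x)) := by
  apply h.stat _ _ (hw.comp hB) (hw.comp hC)
  refine ⟨by simp, ?_⟩
  intro i j hi hj
  rw [List.length_map] at hi hj
  rw [getD_comp hi, getD_comp hj, getD_comp hi, getD_comp hj]
  have := getD_le hB hi
  have := getD_le hB hj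
  have := getD_le hC hi
  have := getD_le hC hj
  omega

lemma shl_map (φ : ℕ → ℕ) (u v : List ℕ) :
    shl (u.map φ) (v.map φ) = (shl u v).map (List.map φ) := by
  induction u generalizing v with
  | nil => simp
  | cons a u ihu =>
    induction v with
    | nil => simp
    | cons b v ihv =>
      simp only [List.map_cons, shl_cons_cons, List.map_append, List.map_map]
      have e1 := ihu (b :: v)
      rw [List.map_cons] at e1
      have e2 := ihv
      rw [List.map_cons] at e2
      rw [e1, e2, List.map_map, List.map_map]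
      rfl

lemma BC.compl (h : BC st) : BC (fun w => st (cm w)) where
  stat := by
    intro p q hp hq hpq
    apply h.stat _ _ (hp.comp le_sum) (hq.comp le_sum)
    refine ⟨by simp [hpq.1], ?_⟩
    intro i j hi hj
    rw [List.length_map] at hi hj
    have hi' : i < q.length := hpq.1 ▸ hi
    have hj' : j < q.length := hpq.1 ▸ hj
    rw [getD_comp hi, getD_comp hj, getD_comp hi', getD_comp hj']
    have := getD_le (B := p.sum) le_sum hi
    have := getD_le (B := p.sum) le_sum hj
    have := getD_le (B := q.sum) le_sum hi'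
    have := getD_le (B := q.sum) le_sum hj'
    have e1 := hpq.2 j i hj hi
    omega
  shuf := by
    classical
    have key : ∀ u v : List ℕ, Ok (u ++ v) →
        (shl u v).map (fun w => st (cm w)) =
          (shl (u.map (fun x => (u ++ v).sum + 1 - x)) (v.map (fun x => (u ++ v).sum + 1 - x))).map st := by
      intro u v huv
      rw [shl_map, List.map_map]
      apply List.map_congr_left
      intro w hw
      have hperm := (of_mem_shl u v w hw).1
      have hok : Ok w := huv.perm hperm
      exact comp_eq h hok le_sum (fun x hx => le_sum x (hperm.mem_iff.mp hx))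
    intro p q p' q' hp hq hp' hq' hd hd' hl hl' e e' c
    have ok1 : Ok (p ++ q) := ⟨List.nodup_append'.mpr ⟨hp.1, hq.1, hd⟩, fun x hx => by
      rcases List.mem_append.mp hx with hx | hx
      · exact hp.2 x hx
      · exact hq.2 x hx⟩
    have ok2 : Ok (p' ++ q') := ⟨List.nodup_append'.mpr ⟨hp'.1, hq'.1, hd'⟩, fun x hx => by
      rcases List.mem_append.mp hx with hx | hx
      · exact hp'.2 x hx
      · exact hq'.2 x hx⟩
    have b1 : ∀ x ∈ p ++ q, x ≤ (p ++ q).sum := le_sum
    have b2 : ∀ x ∈ p' ++ q', x ≤ (p' ++ q').sum := le_sum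
    rw [ncard_eq _ p q ok1 c, ncard_eq _ p' q' ok2 c]
    simp only [key p q ok1, key p' q' ok2]
    have c1 := ok1.comp b1
    have c2 := ok2.comp b2
    rw [List.map_append] at c1 c2
    have hperm := map_perm h.shuf c1 c2 (by simpa using hl) (by simpa using hl')
      (by
        rw [comp_eq h hp (fun x hx => b1 x (List.mem_append_left _ hx)) le_sum,
          comp_eq h hp' (fun x hx => b2 x (List.mem_append_left _ hx)) le_sum]
        exact e)
      (by
        rw [comp_eq h hq (fun x hx => b1 x (List.mem_append_right _ hx)) le_sum,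
          comp_eq h hq' (fun x hx => b2 x (List.mem_append_right _ hx)) le_sum]
        exact e')
    exact hperm.count_eq c
  sub := by
    intro p q hp hq hl e i j
    have := h.sub _ _ (hp.comp le_sum) (hq.comp le_sum) (by simpa using hl) e i j
    rw [← List.map_drop, ← List.map_take, ← List.map_drop, ← List.map_take] at this
    have s1 : ((p.drop i).take j).Sublist p := (List.take_sublist _ _).trans (List.drop_sublist _ _)
    have s2 : ((q.drop i).take j).Sublist q := (List.take_sublist _ _).trans (List.drop_sublist _ _)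
    rw [comp_eq h (hp.sublist s1) (fun x hx => le_sum x (s1.subset hx)) le_sum,
      comp_eq h (hq.sublist s2) (fun x hx => le_sum x (s2.subset hx)) le_sum] at this
    exact this

/-! ### length three -/

def Vf (n : ℕ) (f : ℕ → ℕ) (i : ℕ) : Prop := i + 2 < n ∧ f (i + 1) < f i ∧ f (i + 1) < f (i + 2)

lemma two_all (h : BC st) (h2 : st [1, 2] = st [2, 1]) {f : ℕ → ℕ} (hf : Good 2 f) :
    st (W 2 f) = st [1, 2] := by
  have hne : f 0 ≠ f 1 := fun e => by
    have := hf.1 0 1 (by omega) (by omega) e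
    omega
  rcases lt_or_gt_of_ne hne with c | c
  · exact two_up h hf c
  · rw [two_down h hf c, h2]

lemma val3 (h : BC st) {f g : ℕ → ℕ} (hf : Good 3 f) (hg : Good 3 g)
    (e01 : f 0 < f 1 ↔ g 0 < g 1) (e12 : f 1 < f 2 ↔ g 1 < g 2) (e02 : f 0 < f 2 ↔ g 0 < g 2) :
    st (W 3 f) = st (W 3 g) := by
  apply h.ord hf hg
  have hne : ∀ {f : ℕ → ℕ}, Good 3 f → f 0 ≠ f 1 ∧ f 0 ≠ f 2 ∧ f 1 ≠ f 2 := fun hf =>
    ⟨fun e => by have := hf.1 0 1 (by omega) (by omega) e; omega,
     fun e => by have := hf.1 0 2 (by omega) (by omega) e; omega,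
     fun e => by have := hf.1 1 2 (by omega) (by omega) e; omega⟩
  obtain ⟨a1, a2, a3⟩ := hne hf
  obtain ⟨b1, b2, b3⟩ := hne hg
  intro a b ha hb
  interval_cases a <;> interval_cases b <;> omega

lemma st3 (h : BC st) (h2 : st [1, 2] = st [2, 1]) {f : ℕ → ℕ} (hf : Good 3 f) :
    (Pf 3 f 0 ∧ ¬ Vf 3 f 0 ∧ st (W 3 f) = st [1, 3, 2]) ∨
    (Vf 3 f 0 ∧ ¬ Pf 3 f 0 ∧ st (W 3 f) = st [2, 1, 3]) ∨
    (¬ Pf 3 f 0 ∧ ¬ Vf 3 f 0 ∧ st (W 3 f) = st [1, 2, 3]) := by
  obtain ⟨r1, r2, r3⟩ := three_vals h h2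
  have a1 : f 0 ≠ f 1 := fun e => by have := hf.1 0 1 (by omega) (by omega) e; omega
  have a2 : f 0 ≠ f 2 := fun e => by have := hf.1 0 2 (by omega) (by omega) e; omega
  have a3 : f 1 ≠ f 2 := fun e => by have := hf.1 1 2 (by omega) (by omega) e; omega
  have gg : ∀ x y z : ℕ, Ok [x, y, z] → Good 3 (fun k => [x, y, z].getD k 0) := fun x y z hx =>
    good_of_ok hx
  have okk : ∀ l : List ℕ, l.Nodup ∧ (∀ x ∈ l, 0 < x) → Ok l := fun l h => h
  have base : ∀ x y z : ℕ, Ok [x, y, z] → (f 0 < f 1 ↔ x < y) → (f 1 < f 2 ↔ y < z) →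
      (f 0 < f 2 ↔ x < z) → st (W 3 f) = st [x, y, z] := by
    intro x y z hx e1 e2 e3
    have := val3 h hf (gg x y z hx) (by simpa using e1) (by simpa using e2) (by simpa using e3)
    rw [this]
    congr 1
  unfold Pf Vf
  simp only [Nat.zero_add]
  rcases lt_or_gt_of_ne a1 with c1 | c1 <;> rcases lt_or_gt_of_ne a3 with c3 | c3
  · -- 123
    right; right
    refine ⟨by omega, by omega, base 1 2 3 (okk _ (by decide)) (by omega) (by omega) (by omega)⟩
  · left
    refine ⟨by omega, by omega, ?_⟩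
    rcases lt_or_gt_of_ne a2 with c2 | c2
    · exact base 1 3 2 (okk _ (by decide)) (by omega) (by omega) (by omega)
    · rw [r2]
      exact base 2 3 1 (okk _ (by decide)) (by omega) (by omega) (by omega)
  · right; left
    refine ⟨by omega, by omega, ?_⟩
    rcases lt_or_gt_of_ne a2 with c2 | c2
    · exact base 2 1 3 (okk _ (by decide)) (by omega) (by omega) (by omega)
    · rw [← r1]
      exact base 3 1 2 (okk _ (by decide)) (by omega) (by omega) (by omega)
  · right; right
    refine ⟨by omega, by omega, ?_⟩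
    rw [r3]
    exact base 3 2 1 (okk _ (by decide)) (by omega) (by omega) (by omega)

lemma pkLow_of (h : BC st) (h2 : st [1, 2] = st [2, 1]) (h3 : st [2, 1, 3] = st [1, 2, 3])
    (h4 : st [1, 3, 2] ≠ st [1, 2, 3]) : PkLow st where
  two := fun f g hf hg => by rw [two_all h h2 hf, two_all h h2 hg]
  three := fun f g hf hg => by
    rcases st3 h h2 hf with ⟨p1, _, e1⟩ | ⟨_, p1, e1⟩ | ⟨p1, _, e1⟩ <;>
    rcases st3 h h2 hg with ⟨p2, _, e2⟩ | ⟨_, p2, e2⟩ | ⟨p2, _, e2⟩ <;>
    rw [e1, e2] <;> simp only [h3, p1, p2, iff_true, iff_false, iff_self, true_iff, false_iff, h4,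
      h4.symm, not_true_eq_false, not_false_eq_true, ne_eq]

end Pool.Agent.V1184.Bic
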