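import Pool.Agent.V1184.Bic.Cls5

/-!
Classification of bicompatible statistics: final statement.
-/

namespace Pool.Agent.V1184.Bic

variable {α β : Type*} {st : List ℕ → α}

/-- The descent set `{1 ≤ i ≤ n - 1 : π_i > π_{i+1}}`; the letter `π_i` is `p.getD (i - 1) 0`. -/
def Des (p : List ℕ) : Set ℕ :=
  {i | 1 ≤ i ∧ i + 1 ≤ p.length ∧ p.getD i 0 < p.getD (i - 1) 0}

/-- The peak set `{2 ≤ i ≤ n - 1 : π_{i-1} < π_i > π_{i+1}}`; `π_i` is `p.getD (i - 1) 0`. -/
def Pk (p : List ℕ) : Set ℕ :=
  {i | 2 ≤ i ∧ i + 1 ≤ p.length ∧ p.getD (i - 2) 0 < p.getD (i - 1) 0 ∧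
    p.getD i 0 < p.getD (i - 1) 0}

/-- The valley set `{2 ≤ i ≤ n - 1 : π_{i-1} > π_i < π_{i+1}}`; `π_i` is `p.getD (i - 1) 0`. -/
def Val (p : List ℕ) : Set ℕ :=
  {i | 2 ≤ i ∧ i + 1 ≤ p.length ∧ p.getD (i - 1) 0 < p.getD (i - 2) 0 ∧
    p.getD (i - 1) 0 < p.getD i 0}

/-- Two statistics are equivalent: they have the same fibres on each length. -/
def Equivalent (st : List ℕ → α) (st' : List ℕ → β) : Prop :=
  ∀ p q, Ok p → Ok q → p.length = q.length → (st p = st q ↔ st' p = st' q)

lemma Des_eq_iff {p q : List ℕ} (hl : p.length = q.length) :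
    Des p = Des q ↔ ∀ i, Df p.length (fun k => p.getD k 0) i ↔
      Df p.length (fun k => q.getD k 0) i := by
  unfold Df
  rw [Set.ext_iff]
  constructor
  · intro h i
    have := h (i + 1)
    simp only [Des, Set.mem_ofPred_eq, Nat.add_sub_cancel, hl] at this ⊢
    constructor
    · rintro ⟨a, b⟩
      have := this.1 ⟨by omega, by omega, b⟩
      exact ⟨a, this.2.2⟩
    · rintro ⟨a, b⟩
      have := this.2 ⟨by omega, by omega, b⟩
      exact ⟨a, this.2.2⟩
  · intro h i
    simp only [Des, Set.mem_ofPred_eq]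
    rcases i with _ | i
    · omega
    · have := h i
      simp only [Nat.add_sub_cancel] at this ⊢
      constructor
      · rintro ⟨a, b, c⟩
        exact ⟨a, by omega, (this.1 ⟨by omega, c⟩).2⟩
      · rintro ⟨a, b, c⟩
        exact ⟨a, by omega, (this.2 ⟨by omega, c⟩).2⟩

lemma Pk_eq_iff {p q : List ℕ} (hl : p.length = q.length) :
    Pk p = Pk q ↔ ∀ i, Pf p.length (fun k => p.getD k 0) i ↔
      Pf p.length (fun k => q.getD k 0) i := by
  unfold Pf
  rw [Set.ext_iff]
  constructor
  · intro h i
    have := h (i + 2)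
    simp only [Pk, Set.mem_ofPred_eq, Nat.add_sub_cancel, show i + 2 - 1 = i + 1 from rfl] at this ⊢
    constructor
    · rintro ⟨a, b⟩
      have := this.1 ⟨by omega, by omega, b⟩
      exact ⟨a, this.2.2⟩
    · rintro ⟨a, b⟩
      have := this.2 ⟨by omega, by omega, b⟩
      exact ⟨a, this.2.2⟩
  · intro h i
    simp only [Pk, Set.mem_ofPred_eq]
    rcases i with _ | _ | i
    · omega
    · omega
    · have := h i
      simp only [show i + 1 + 1 - 1 = i + 1 from rfl, show i + 1 + 1 - 2 = i from rfl,
        show i + 1 + 1 = i + 2 from rfl] at this ⊢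
      constructor
      · rintro ⟨a, b, c⟩
        exact ⟨a, by omega, (this.1 ⟨by omega, c⟩).2⟩
      · rintro ⟨a, b, c⟩
        exact ⟨a, by omega, (this.2 ⟨by omega, c⟩).2⟩

lemma Val_eq_iff {p q : List ℕ} (hl : p.length = q.length) :
    Val p = Val q ↔ ∀ i, Vf p.length (fun k => p.getD k 0) i ↔
      Vf p.length (fun k => q.getD k 0) i := by
  unfold Vf
  rw [Set.ext_iff]
  constructor
  · intro h i
    have := h (i + 2)
    simp only [Val, Set.mem_ofPred_eq, Nat.add_sub_cancel, show i + 2 - 1 = i + 1 from rfl] at this ⊢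
    constructor
    · rintro ⟨a, b⟩
      have := this.1 ⟨by omega, by omega, b⟩
      exact ⟨a, this.2.2⟩
    · rintro ⟨a, b⟩
      have := this.2 ⟨by omega, by omega, b⟩
      exact ⟨a, this.2.2⟩
  · intro h i
    simp only [Val, Set.mem_ofPred_eq]
    rcases i with _ | _ | i
    · omega
    · omega
    · have := h i
      simp only [show i + 1 + 1 - 1 = i + 1 from rfl, show i + 1 + 1 - 2 = i from rfl,
        show i + 1 + 1 = i + 2 from rfl] at this ⊢
      constructor
      · rintro ⟨a, b, c⟩
        exact ⟨a, by omega, (this.1 ⟨by omega, c⟩).2⟩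
      · rintro ⟨a, b, c⟩
        exact ⟨a, by omega, (this.2 ⟨by omega, c⟩).2⟩

lemma fold (st : List ℕ → α) {p : List ℕ} : st p = st (W p.length (fun k => p.getD k 0)) := by
  rw [W_getD_self]

lemma fold' (st : List ℕ → α) {p q : List ℕ} (hl : p.length = q.length) :
    st q = st (W p.length (fun k => q.getD k 0)) := by
  rw [hl, W_getD_self]

lemma good_of_ok' {p q : List ℕ} (h : Ok q) (hl : p.length = q.length) :
    Good p.length (fun k => q.getD k 0) := hl ▸ good_of_ok h

lemma eqv_des (h : BC st) (h2 : st [1, 2] ≠ st [2, 1]) : Equivalent st Des := by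
  intro p q hp hq hl
  rw [Des_eq_iff hl, fold st (p := p), fold' st hl]
  exact ⟨fun e i => des_eq h h2 (good_of_ok hp) (good_of_ok' hq hl) e i,
    fun e => des_main h h2 _ _ _ (good_of_ok hp) (good_of_ok' hq hl) e⟩

lemma eqv_pk (h : BC st) (hl3 : PkLow st) : Equivalent st Pk := by
  intro p q hp hq hl
  rw [Pk_eq_iff hl, fold st (p := p), fold' st hl]
  exact ⟨fun e i => pk_eq h hl3 (good_of_ok hp) (good_of_ok' hq hl) e i,
    fun e => pk_main h hl3 _ _ _ (good_of_ok hp) (good_of_ok' hq hl) e⟩

lemma compl_data (h : BC st) {n : ℕ} {f : ℕ → ℕ} (hf : Good n f) :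
    ∃ f', Good n f' ∧ (∀ i, Pf n f' i ↔ Vf n f i) ∧ st (W n f) = st (cm (W n f')) := by
  set S := (W n f).sum with hS
  have hle : ∀ a, a < n → f a ≤ S := fun a ha =>
    le_sum _ (List.mem_map.mpr ⟨a, List.mem_range.mpr ha, rfl⟩)
  have hg : Good n (fun k => S + 1 - f k) := by
    refine ⟨fun a b ha hb hab => ?_, fun a ha => ?_⟩
    · have h1 := hle a ha
      have h2 := hle b hb
      simp only at hab
      exact hf.1 a b ha hb (by omega)
    · have h1 := hle a ha
      simp only
      omega
  refine ⟨_, hg, ?_, ?_⟩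
  · intro i
    show (i + 2 < n ∧ S + 1 - f i < S + 1 - f (i + 1) ∧ S + 1 - f (i + 2) < S + 1 - f (i + 1)) ↔
      (i + 2 < n ∧ f (i + 1) < f i ∧ f (i + 1) < f (i + 2))
    constructor
    · rintro ⟨a, b, c⟩
      have h1 := hle i (by omega)
      have h2 := hle (i + 1) (by omega)
      have h3 := hle (i + 2) (by omega)
      exact ⟨a, by omega, by omega⟩
    · rintro ⟨a, b, c⟩
      have h1 := hle i (by omega)
      have h2 := hle (i + 1) (by omega)
      have h3 := hle (i + 2) (by omega)
      exact ⟨a, by omega, by omega⟩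
  · set T := (W n (fun k => S + 1 - f k)).sum with hT
    have hle2 : ∀ a, a < n → S + 1 - f a ≤ T := fun a ha =>
      le_sum _ (List.mem_map.mpr ⟨a, List.mem_range.mpr ha, rfl⟩)
    have e : cm (W n (fun k => S + 1 - f k)) = W n (fun k => T + 1 - (S + 1 - f k)) := by
      unfold cm
      rw [← hT]
      unfold W
      rw [List.map_map]
      rfl
    rw [e]
    apply h.ord hf
    · refine ⟨fun a b ha hb hab => ?_, fun a ha => ?_⟩
      · have h1 := hle a ha
        have h2 := hle b hb
        have h3 := hle2 a ha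
        have h4 := hle2 b hb
        simp only at hab
        exact hf.1 a b ha hb (by omega)
      · have h3 := hle2 a ha
        simp only
        omega
    · intro a b ha hb
      have h1 := hle a ha
      have h2 := hle b hb
      have h3 := hle2 a ha
      have h4 := hle2 b hb
      omega

lemma eqv_val (h : BC st) (hl3 : PkLow (fun w => st (cm w))) : Equivalent st Val := by
  intro p q hp hq hl
  rw [Val_eq_iff hl, fold st (p := p), fold' st hl]
  obtain ⟨f', hf, pf, ef⟩ := compl_data h (good_of_ok hp)
  obtain ⟨g', hg, pg, eg⟩ := compl_data h (good_of_ok' hq hl)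
  rw [ef, eg]
  constructor
  · intro e i
    rw [← pf, ← pg]
    exact pk_eq h.compl hl3 hf hg e i
  · intro e
    exact pk_main h.compl hl3 _ _ _ hf hg (fun i => by rw [pf, pg]; exact e i)

/-- **Classification of bicompatible permutation statistics.** -/
theorem classification (hstat : IsStatistic st) (hshuf : ShuffleCompatible st)
    (hsub : SubstringCompatible st) :
    Equivalent st Des ∨ Equivalent st Pk ∨ Equivalent st Val ∨
      Equivalent st (fun _ => ()) := by
  have h : BC st := ⟨hstat, hshuf, hsub⟩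
  by_cases h2 : st [1, 2] = st [2, 1]
  · right
    obtain ⟨r1, r2, r3⟩ := three_vals h h2
    have okk : ∀ l : List ℕ, l.Nodup ∧ (∀ x ∈ l, 0 < x) → Ok l := fun l h => h
    have so : ∀ p q : List ℕ, Ok p → Ok q → p.length = q.length →
        (∀ i, i < p.length → ∀ j, j < p.length →
          (p.getD i 0 < p.getD j 0 ↔ q.getD i 0 < q.getD j 0)) → st p = st q :=
      fun p q hp hq hl hh => h.stat p q hp hq ⟨hl, fun i j hi hj => hh i hi j hj⟩
    by_cases hr : st [1, 3, 2] = st [1, 2, 3]
    · by_cases hp : st [2, 1, 3] = st [1, 2, 3]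
      · right; right
        intro p q hp' hq' hl
        refine ⟨fun _ => rfl, fun _ => ?_⟩
        apply constant_of_low hstat hshuf hsub _ p q hp' hq' hl
        intro p q hp1 hq1 hl1 hl3
        rw [fold st (p := p), fold' st hl1]
        have gp := good_of_ok hp1
        have gq := good_of_ok' hq1 hl1
        generalize (fun k => p.getD k 0) = f at gp
        generalize (fun k => q.getD k 0) = g at gq
        generalize hn : p.length = n at gp gq hl3
        have : n = 0 ∨ n = 1 ∨ n = 2 ∨ n = 3 := by omega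
        rcases this with rfl | rfl | rfl | rfl
        · rfl
        · apply h.ord gp gq
          intro a b ha hb
          have ea : a = 0 := by omega
          have eb : b = 0 := by omega
          subst ea; subst eb
          omega
        · rw [two_all h h2 gp, two_all h h2 gq]
        · have : ∀ {f : ℕ → ℕ}, Good 3 f → st (W 3 f) = st [1, 2, 3] := by
            intro f hf
            rcases st3 h h2 hf with ⟨_, _, e⟩ | ⟨_, _, e⟩ | ⟨_, _, e⟩
            · rw [e, hr]
            · rw [e, hp]
            · exact e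
          rw [this gp, this gq]
      · right; left
        apply eqv_val h
        apply pkLow_of h.compl
        · show st (cm [1, 2]) = st (cm [2, 1])
          have e1 : st (cm [1, 2]) = st [2, 1] := so [3, 2] [2, 1] (okk _ (by decide)) (okk _ (by decide)) rfl (by decide)
          have e2 : st (cm [2, 1]) = st [1, 2] := so [2, 3] [1, 2] (okk _ (by decide)) (okk _ (by decide)) rfl (by decide)
          rw [e1, e2, h2]
        · show st (cm [2, 1, 3]) = st (cm [1, 2, 3])
          have e1 : st (cm [2, 1, 3]) = st [2, 3, 1] := so [5, 6, 4] [2, 3, 1] (okk _ (by decide)) (okk _ (by decide)) rfl (by decide)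
          have e2 : st (cm [1, 2, 3]) = st [3, 2, 1] := so [6, 5, 4] [3, 2, 1] (okk _ (by decide)) (okk _ (by decide)) rfl (by decide)
          rw [e1, e2, ← r2, ← r3, hr]
        · show st (cm [1, 3, 2]) ≠ st (cm [1, 2, 3])
          have e1 : st (cm [1, 3, 2]) = st [3, 1, 2] := so [6, 4, 5] [3, 1, 2] (okk _ (by decide)) (okk _ (by decide)) rfl (by decide)
          have e2 : st (cm [1, 2, 3]) = st [3, 2, 1] := so [6, 5, 4] [3, 2, 1] (okk _ (by decide)) (okk _ (by decide)) rfl (by decide)
          rw [e1, e2, r1, ← r3]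
          exact hp
    · left
      have hp : st [2, 1, 3] = st [1, 2, 3] := by
        rcases or_vals h h2 with e | e
        · exact absurd e hr
        · rw [← r1, e]
      exact eqv_pk h (pkLow_of h h2 hp hr)
  · left
    exact eqv_des h h2

end Pool.Agent.V1184.Bic
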