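import Pool.Agent.V1184.Bic.Main

/-!
A bicompatible statistic which is constant on every length `≤ 3` is constant on every length.
-/

namespace Pool.Agent.V1184.Bic

variable {α : Type*}

lemma W_getD_self (p : List ℕ) : W p.length (fun k => p.getD k 0) = p := by
  apply List.ext_getElem
  · simp
  · intro k h1 h2
    simp only [W, List.getElem_map, List.getElem_range]
    rw [List.getD_eq_getElem _ _ h2]

lemma good_of_ok {p : List ℕ} (h : Ok p) : Good p.length (fun k => p.getD k 0) := by
  refine ⟨?_, ?_⟩
  · intro a b ha hb hab
    simp only [List.getD_eq_getElem _ _ ha, List.getD_eq_getElem _ _ hb] at hab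
    exact (List.Nodup.getElem_inj_iff h.1).mp hab
  · intro a ha
    simp only [List.getD_eq_getElem _ _ ha]
    exact h.2 _ (List.getElem_mem _)

/-- The system attached to a class function at the first level. -/
lemma sys_of {m : ℕ} (hm : 1 ≤ m) {st : List ℕ → α} (hst : IsStatistic st)
    (hs : ShuffleCompatible st) (hsub : SubstringCompatible st) (hl : Low (m + 1) st) (φ : α → ℚ) :
    ∃ ρ, Sys m (fun w => φ (st w) - ρ) := by
  obtain ⟨ρ, hρ⟩ := exists_rho (n := m + 1) (by omega) hs hl φ
  refine ⟨ρ, hρ, ?_, ?_⟩
  · intro w w' hw hw' hso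
    simp only [hst w w' hw hw' hso]
  · intro u u' p h1 h2 h3 h4 h5
    exact T_inv hs hsub hl φ ρ u u' p h1 h2 h3 h4 h5

theorem low_succ {m : ℕ} (hm : 3 ≤ m) {st : List ℕ → α} (hst : IsStatistic st)
    (hs : ShuffleCompatible st) (hsub : SubstringCompatible st) (hl : Low (m + 1) st) :
    Low (m + 2) st := by
  classical
  have key : ∀ p, Ok p → p.length = m + 1 → st p = st (W (m + 1) (fun k => k + 1)) := by
    intro p hp hlen
    by_contra hne
    set c0 := st (W (m + 1) (fun k => k + 1)) with hc0
    obtain ⟨ρ, hρ⟩ := sys_of (by omega) hst hs hsub hl (fun c => if c = c0 then 0 else 1)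
    have e : (fun w => (if st w = c0 then (0 : ℚ) else 1) - ρ)
        = (fun w => (((if st w = c0 then 0 else 1 : ℕ)) : ℚ) - ρ) := by
      funext w
      split_ifs <;> simp
    rw [e] at hρ
    apply no_sys hm (fun w => if st w = c0 then 0 else 1) (fun w => by
        split_ifs <;> omega) ρ hρ
      (by simp [hc0]) (fun k => p.getD k 0)
    · rw [← hlen]; exact good_of_ok hp
    · rw [← hlen, W_getD_self]
      simp [hne]
  intro p q hp hq hpq hlt
  by_cases hp1 : p.length < m + 1
  · exact hl p q hp hq hpq hp1
  · have h1 : p.length = m + 1 := by omega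
    rw [key p hp h1, key q hq (by omega)]

/-- A bicompatible statistic which is constant on every length `≤ 3` is constant on every
length. -/
theorem constant_of_low {st : List ℕ → α} (hst : IsStatistic st)
    (hs : ShuffleCompatible st) (hsub : SubstringCompatible st)
    (hl : ∀ p q, Ok p → Ok q → p.length = q.length → p.length ≤ 3 → st p = st q) :
    ∀ p q, Ok p → Ok q → p.length = q.length → st p = st q := by
  have h4 : Low 4 st := fun p q hp hq h1 h2 => hl p q hp hq h1 (by omega)
  have hall : ∀ m, 3 ≤ m → Low (m + 1) st := by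
    intro m hm
    induction m, hm using Nat.le_induction with
    | base => exact h4
    | succ m hm ih => exact low_succ hm hst hs hsub ih
  intro p q hp hq hpq
  exact hall (p.length + 3) (by omega) p q hp hq hpq (by omega)

end Pool.Agent.V1184.Bic
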