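import Mathlib

/-!
The arithmetic end of the argument.
-/

namespace Pool.Agent.V1184.Bic

open Finset

lemma sum_pairs (h : ℕ → ℕ) (k : ℕ) :
    ∑ l ∈ range (2 * k), h l = ∑ i ∈ range k, (h (2 * i) + h (2 * i + 1)) := by
  induction k with
  | zero => simp
  | succ k ih =>
    rw [show 2 * (k + 1) = 2 * k + 1 + 1 by ring, Finset.sum_range_succ, Finset.sum_range_succ, ih,
      Finset.sum_range_succ]
    ring

lemma indep_odd (J : ℕ → ℕ) (h1 : ∀ i, J i ≤ 1) (k : ℕ) :
    (∀ p, p + 1 < 2 * k + 1 → J p + J (p + 1) ≤ 1) →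
    ∑ p ∈ range (2 * k + 1), J p ≤ k + 1 ∧
      (∑ p ∈ range (2 * k + 1), J p = k + 1 → ∀ i, i ≤ k → J (2 * i) = 1) := by
  induction k with
  | zero =>
    intro _
    have := h1 0
    refine ⟨by simpa using this, ?_⟩
    intro h i hi
    have hi0 : i = 0 := by omega
    subst hi0
    simpa using h
  | succ k ih =>
    intro hind
    obtain ⟨a, b⟩ := ih (fun p hp => hind p (by omega))
    have e : ∑ p ∈ range (2 * (k + 1) + 1), J p
        = ∑ p ∈ range (2 * k + 1), J p + J (2 * k + 1) + J (2 * k + 2) := by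
      rw [show 2 * (k + 1) + 1 = 2 * k + 1 + 1 + 1 by ring, Finset.sum_range_succ,
        Finset.sum_range_succ]
    have i1 := hind (2 * k + 1) (by omega)
    have i2 := hind (2 * k) (by omega)
    rw [show 2 * k + 1 + 1 = 2 * k + 2 by ring] at i1
    rw [e]
    refine ⟨by omega, ?_⟩
    intro h i hi
    have h3 : ∑ p ∈ range (2 * k + 1), J p = k + 1 := by omega
    have h4 := b h3
    by_cases hik : i ≤ k
    · exact h4 i hik
    · have : i = k + 1 := by omega
      subst this
      have h5 := h4 k le_rfl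
      rw [show 2 * (k + 1) = 2 * k + 2 by ring]
      omega

lemma indep_even (J : ℕ → ℕ) (k : ℕ) (hind : ∀ p, p + 1 < 2 * k → J p + J (p + 1) ≤ 1) :
    ∑ p ∈ range (2 * k), J p ≤ k := by
  rw [sum_pairs]
  calc ∑ i ∈ range k, (J (2 * i) + J (2 * i + 1)) ≤ ∑ _i ∈ range k, 1 := by
        apply Finset.sum_le_sum
        intro i hi
        rw [Finset.mem_range] at hi
        exact hind (2 * i) (by omega)
    _ = k := by simp

/-- The even pattern is impossible. -/
lemma no_even {m N : ℕ} (hm : 3 ≤ m) (J : ℕ → ℕ) (G : ℕ → ℕ → ℕ)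
    (hN : N = (m + 1) / 2)
    (pat : ∀ p, p < m → J p = if p % 2 = 0 then 1 else 0)
    (hGm : ∀ i, i < m → G i m = J i)
    (bal0 : G 1 0 + ∑ l ∈ range m, G 0 (l + 1) = N)
    (bal1 : G 2 0 + G 2 1 + ∑ l ∈ range (m - 1), G 1 (l + 2) = N)
    (e4a : ∀ j, 1 ≤ j → j ≤ m → J 0 ≠ J (j - 1) → G 0 j = J 0)
    (e4b : J 0 ≠ J 1 → G 2 0 = J 0)
    (ssg : ∀ r, 2 ≤ r → r < m → J 0 = 1 → J r = 1 → G 1 r + G 0 (r - 1) = 1)
    (ssl : J 0 = 1 → J 2 = 1 → G 2 1 + G 1 0 = 1) : False := by
  have J0 : J 0 = 1 := by rw [pat 0 (by omega)]; simp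
  have J1 : J 1 = 0 := by rw [pat 1 (by omega)]; simp
  have J2 : J 2 = 1 := by rw [pat 2 (by omega)]; simp
  have g0 : ∀ j, 2 ≤ j → j ≤ m → j % 2 = 0 → G 0 j = 1 := by
    intro j h1 h2 h3
    have h4 : J (j - 1) = 0 := by rw [pat (j - 1) (by omega), if_neg (by omega)]
    rw [e4a j (by omega) h2 (by omega), J0]
  have g20 : G 2 0 = 1 := by rw [e4b (by omega), J0]
  rcases Nat.even_or_odd' m with ⟨k, hk | hk⟩
  · -- m = 2k
    have hNk : N = k := by omega
    rw [hk, sum_pairs (fun l => G 0 (l + 1))] at bal0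
    have e1 : ∀ i ∈ range k, (G 0 (2 * i + 1) + G 0 (2 * i + 1 + 1)) = G 0 (2 * i + 1) + 1 := by
      intro i hi
      rw [Finset.mem_range] at hi
      rw [g0 (2 * i + 1 + 1) (by omega) (by omega) (by omega)]
    rw [Finset.sum_congr rfl e1, Finset.sum_add_distrib] at bal0
    simp only [Finset.sum_const, Finset.card_range, smul_eq_mul, mul_one] at bal0
    have g10 : G 1 0 = 0 := by omega
    have hs0 : ∑ i ∈ range k, G 0 (2 * i + 1) = 0 := by omega
    have g0odd : ∀ i, i < k → G 0 (2 * i + 1) = 0 := by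
      intro i hi
      exact (Finset.sum_eq_zero_iff.mp hs0) i (Finset.mem_range.mpr hi)
    have g1 : ∀ r, 2 ≤ r → r < m → r % 2 = 0 → G 1 r = 1 := by
      intro r h1 h2 h3
      have a1 := ssg r h1 h2 J0 (by rw [pat r h2, if_pos h3])
      have a2 := g0odd ((r - 2) / 2) (by omega)
      rw [show 2 * ((r - 2) / 2) + 1 = r - 1 by omega] at a2
      omega
    have g21 : G 2 1 = 1 := by have := ssl J0 J2; omega
    obtain ⟨k', rfl⟩ : ∃ k', k = k' + 1 := ⟨k - 1, by omega⟩
    rw [show m - 1 = 2 * k' + 1 by omega, Finset.sum_range_succ,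
      sum_pairs (fun l => G 1 (l + 2))] at bal1
    have e2 : ∑ _i ∈ range k', 1 ≤ ∑ i ∈ range k', (G 1 (2 * i + 2) + G 1 (2 * i + 1 + 2)) := by
      apply Finset.sum_le_sum
      intro i hi
      rw [Finset.mem_range] at hi
      rw [g1 (2 * i + 2) (by omega) (by omega) (by omega)]
      omega
    simp only [Finset.sum_const, Finset.card_range, smul_eq_mul, mul_one] at e2
    omega
  · -- m = 2k+1
    have hNk : N = k + 1 := by omega
    have gm : G 0 m = 1 := by rw [hGm 0 (by omega), J0]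
    rw [hk, Finset.sum_range_succ, ← hk, gm, sum_pairs (fun l => G 0 (l + 1))] at bal0
    have e1 : ∀ i ∈ range k, (G 0 (2 * i + 1) + G 0 (2 * i + 1 + 1)) = G 0 (2 * i + 1) + 1 := by
      intro i hi
      rw [Finset.mem_range] at hi
      rw [g0 (2 * i + 1 + 1) (by omega) (by omega) (by omega)]
    rw [Finset.sum_congr rfl e1, Finset.sum_add_distrib] at bal0
    simp only [Finset.sum_const, Finset.card_range, smul_eq_mul, mul_one] at bal0
    have g10 : G 1 0 = 0 := by omega
    have hs0 : ∑ i ∈ range k, G 0 (2 * i + 1) = 0 := by omega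
    have g0odd : ∀ i, i < k → G 0 (2 * i + 1) = 0 := by
      intro i hi
      exact (Finset.sum_eq_zero_iff.mp hs0) i (Finset.mem_range.mpr hi)
    have g1 : ∀ r, 2 ≤ r → r < m → r % 2 = 0 → G 1 r = 1 := by
      intro r h1 h2 h3
      have a1 := ssg r h1 h2 J0 (by rw [pat r h2, if_pos h3])
      have a2 := g0odd ((r - 2) / 2) (by omega)
      rw [show 2 * ((r - 2) / 2) + 1 = r - 1 by omega] at a2
      omega
    have g21 : G 2 1 = 1 := by have := ssl J0 J2; omega
    rw [show m - 1 = 2 * k by omega, sum_pairs (fun l => G 1 (l + 2))] at bal1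
    have e2 : ∑ _i ∈ range k, 1 ≤ ∑ i ∈ range k, (G 1 (2 * i + 2) + G 1 (2 * i + 1 + 2)) := by
      apply Finset.sum_le_sum
      intro i hi
      rw [Finset.mem_range] at hi
      rw [g1 (2 * i + 2) (by omega) (by omega) (by omega)]
      omega
    simp only [Finset.sum_const, Finset.card_range, smul_eq_mul, mul_one] at e2
    omega

/-- The odd pattern is impossible. -/
lemma no_odd {m N k : ℕ} (hm : 3 ≤ m) (hk : m = 2 * k) (J : ℕ → ℕ) (G : ℕ → ℕ → ℕ)
    (hG1 : ∀ i j, G i j ≤ 1) (hN : N = k)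
    (pat : ∀ p, p < m → J p = if p % 2 = 1 then 1 else 0)
    (bal0 : G 1 0 + ∑ l ∈ range m, G 0 (l + 1) = N)
    (e4a : ∀ j, 1 ≤ j → j ≤ m → J 0 ≠ J (j - 1) → G 0 j = J 0)
    (ssg : ∀ q, q + 2 < m → J q = 1 → J (q + 2) = 1 → G (q + 1) (q + 2) + G q (q + 1) = 1)
    (iso : ∀ i, i + 1 < m → J (i + 1) = 1 → G i (m - 1) = 0)
    (exact : ∀ q, 1 ≤ q → q < m → J q = 1 → G (q - 1) q + G q (q + 1) = 1) : False := by
  have J0 : J 0 = 0 := by rw [pat 0 (by omega)]; simp
  have g0 : ∀ j, 2 ≤ j → j ≤ m → j % 2 = 0 → G 0 j = 0 := by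
    intro j h1 h2 h3
    have h4 : J (j - 1) = 1 := by rw [pat (j - 1) (by omega), if_pos (by omega)]
    rw [e4a j (by omega) h2 (by omega), J0]
  obtain ⟨k', rfl⟩ : ∃ k', k = k' + 2 := ⟨k - 2, by omega⟩
  have step : ∀ q, q % 2 = 1 → q + 2 < m → G (q - 1) q = G (q + 1) (q + 2) := by
    intro q hq1 hq2
    have a1 : J q = 1 := by rw [pat q (by omega), if_pos hq1]
    have a2 : J (q + 2) = 1 := by rw [pat (q + 2) (by omega), if_pos (by omega)]
    have a3 := ssg q hq2 a1 a2
    have a4 := exact q (by omega) (by omega) a1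
    omega
  have chain : ∀ i, 2 * i + 1 < m → G (2 * i) (2 * i + 1) = G 0 1 := by
    intro i
    induction i with
    | zero => intro _; rfl
    | succ i ih =>
      intro hi
      have := step (2 * i + 1) (by omega) (by omega)
      rw [show 2 * (i + 1) = 2 * i + 1 + 1 by ring, show 2 * i + 1 + 1 + 1 = 2 * i + 1 + 2 by ring,
        ← this]
      exact ih (by omega)
  have last : G (2 * (k' + 1)) (2 * (k' + 1) + 1) = 0 := by
    have := iso (2 * (k' + 1)) (by omega) (by rw [pat _ (by omega), if_pos (by omega)])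
    rw [show m - 1 = 2 * (k' + 1) + 1 by omega] at this
    exact this
  have g01 : G 0 1 = 0 := by
    rw [← chain (k' + 1) (by omega)]; exact last
  have g0m : G 0 (m - 1) = 0 := iso 0 (by omega) (by rw [pat 1 (by omega)]; simp)
  rw [hk, sum_pairs (fun l => G 0 (l + 1))] at bal0
  have e1 : ∀ i ∈ range (k' + 2), (G 0 (2 * i + 1) + G 0 (2 * i + 1 + 1)) = G 0 (2 * i + 1) := by
    intro i hi
    rw [Finset.mem_range] at hi
    rw [g0 (2 * i + 1 + 1) (by omega) (by omega) (by omega)]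
    rfl
  rw [Finset.sum_congr rfl e1, Finset.sum_range_succ, Finset.sum_range_succ'] at bal0
  have e2 : ∑ i ∈ range k', G 0 (2 * (i + 1) + 1) ≤ ∑ _i ∈ range k', 1 :=
    Finset.sum_le_sum (fun i _ => hG1 _ _)
  simp only [Finset.sum_const, Finset.card_range, smul_eq_mul, mul_one] at e2
  have e3 : G 0 (2 * (k' + 1) + 1) = 0 := by
    rw [show 2 * (k' + 1) + 1 = m - 1 by omega]; exact g0m
  have e4 : G 0 (2 * 0 + 1) = 0 := g01
  have e5 := hG1 1 0
  rw [e3, e4] at bal0
  omega

/-- The whole endgame. -/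
lemma endgame {m N : ℕ} (hm : 3 ≤ m) (J : ℕ → ℕ) (G : ℕ → ℕ → ℕ)
    (hJ1 : ∀ i, J i ≤ 1) (hG1 : ∀ i j, G i j ≤ 1) (hJm : J m = 0)
    (hGm : ∀ i, i < m → G i m = J i)
    (indep : ∀ p, p + 1 ≤ m → J p + J (p + 1) ≤ 1)
    (balJ : ∑ l ∈ range (m + 1), J l = N)
    (bal0 : G 1 0 + ∑ l ∈ range m, G 0 (l + 1) = N)
    (bal1 : G 2 0 + G 2 1 + ∑ l ∈ range (m - 1), G 1 (l + 2) = N)
    (cnt : m ≤ 2 * N)
    (e4a : ∀ j, 1 ≤ j → j ≤ m → J 0 ≠ J (j - 1) → G 0 j = J 0)
    (e4b : J 0 ≠ J 1 → G 2 0 = J 0)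
    (ssg : ∀ p r, 2 ≤ r → p + r < m → J p = 1 → J (p + r) = 1 → G (p + 1) (p + r) + G p (p + r - 1) = 1)
    (ssl : J 0 = 1 → J 2 = 1 → G 2 1 + G 1 0 = 1)
    (iso : 2 * N = m → ∀ i, i + 1 < m → J (i + 1) = 1 → G i (m - 1) = 0)
    (isoJ : 2 * N = m → J 0 = 1 → J (m - 1) = 0)
    (exact : 2 * N = m → ∀ q, 1 ≤ q → q < m → J q = 1 → G (q - 1) q + G q (q + 1) = 1) : False := by
  rw [Finset.sum_range_succ, hJm, add_zero] at balJ
  have hssg0 : ∀ r, 2 ≤ r → r < m → J 0 = 1 → J r = 1 → G 1 r + G 0 (r - 1) = 1 := by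
    intro r h1 h2 h3 h4
    have := ssg 0 r h1 (by omega) h3 (by simpa using h4)
    simpa using this
  rcases Nat.even_or_odd' m with ⟨k, hk | hk⟩
  · -- m = 2k
    have hup : N ≤ k := by
      rw [← balJ, hk]
      exact indep_even J k (fun p hp => indep p (by omega))
    have hNk : N = k := by omega
    have h2N : 2 * N = m := by omega
    obtain ⟨k', rfl⟩ : ∃ k', k = k' + 1 := ⟨k - 1, by omega⟩
    by_cases hJ0 : J 0 = 1
    · -- even pattern
      have hlast := isoJ h2N hJ0
      have hs : ∑ p ∈ range (2 * k' + 1), J p = k' + 1 := by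
        rw [show m = 2 * k' + 1 + 1 by omega, Finset.sum_range_succ,
          show 2 * k' + 1 = m - 1 by omega, hlast] at balJ
        rw [show 2 * k' + 1 = m - 1 by omega]
        omega
      have hall := (indep_odd J hJ1 k' (fun p hp => indep p (by omega))).2 hs
      apply no_even hm J G (by omega) _ hGm bal0 bal1 e4a e4b hssg0 ssl
      intro p hp
      by_cases hpe : p % 2 = 0
      · rw [if_pos hpe]
        have := hall (p / 2) (by omega)
        rwa [show 2 * (p / 2) = p by omega] at this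
      · rw [if_neg hpe]
        have h1 := hall ((p - 1) / 2) (by omega)
        rw [show 2 * ((p - 1) / 2) = p - 1 by omega] at h1
        have h2 := indep (p - 1) (by omega)
        rw [show p - 1 + 1 = p by omega] at h2
        omega
    · have hJ00 : J 0 = 0 := by have := hJ1 0; omega
      have hs : ∑ p ∈ range (2 * k' + 1), J (p + 1) = k' + 1 := by
        rw [show m = 2 * k' + 1 + 1 by omega, Finset.sum_range_succ', hJ00] at balJ
        omega
      have hall := (indep_odd (fun p => J (p + 1)) (fun i => hJ1 _) k'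
        (fun p hp => indep (p + 1) (by omega))).2 hs
      apply no_odd hm hk J G hG1 hNk _ bal0 e4a _ (iso h2N) (exact h2N)
      · intro p hp
        by_cases hpe : p % 2 = 1
        · rw [if_pos hpe]
          have := hall (p / 2) (by omega)
          rwa [show 2 * (p / 2) + 1 = p by omega] at this
        · rw [if_neg hpe]
          by_cases hp0 : p = 0
          · subst hp0; exact hJ00
          · have h1 := hall ((p - 2) / 2) (by omega)
            rw [show 2 * ((p - 2) / 2) + 1 = p - 1 by omega] at h1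
            have h2 := indep (p - 1) (by omega)
            rw [show p - 1 + 1 = p by omega] at h2
            omega
      · intro q hq h1 h2
        have := ssg q 2 le_rfl hq h1 h2
        simpa using this
  · -- m = 2k+1
    have hb := indep_odd J hJ1 k (fun p hp => indep p (by omega))
    rw [← hk, balJ] at hb
    have hNk : N = k + 1 := by omega
    have hall := hb.2 hNk
    apply no_even hm J G (by omega) _ hGm bal0 bal1 e4a e4b hssg0 ssl
    intro p hp
    by_cases hpe : p % 2 = 0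
    · rw [if_pos hpe]
      have := hall (p / 2) (by omega)
      rwa [show 2 * (p / 2) = p by omega] at this
    · rw [if_neg hpe]
      have h1 := hall ((p - 1) / 2) (by omega)
      rw [show 2 * ((p - 1) / 2) = p - 1 by omega] at h1
      have h2 := indep (p - 1) (by omega)
      rw [show p - 1 + 1 = p by omega] at h2
      omega

end Pool.Agent.V1184.Bic
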