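import Pool.Agent.V1184.Bic.Shuf

/-!
Consequences of the vanishing of all proper shuffle sums of length `n`.
-/

namespace Pool.Agent.V1184.Bic

open Finset

/-- A permutation in the sense of the problem: a word of distinct positive integers. -/
def Ok (w : List ℕ) : Prop := w.Nodup ∧ ∀ x ∈ w, 0 < x

lemma Ok.perm {u v : List ℕ} (h : Ok u) (p : v.Perm u) : Ok v :=
  ⟨p.nodup_iff.mpr h.1, fun x hx => h.2 x (p.mem_iff.mp hx)⟩

lemma Ok.sublist {u v : List ℕ} (h : Ok u) (p : v.Sublist u) : Ok v :=
  ⟨h.1.sublist p, fun x hx => h.2 x (p.subset hx)⟩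

/-- All proper shuffle sums of total length `n` vanish. -/
def Van (n : ℕ) (P : List ℕ → ℚ) : Prop :=
  ∀ u v : List ℕ, u ≠ [] → v ≠ [] → Ok (u ++ v) → u.length + v.length = n → S u v P = 0

lemma lie {n : ℕ} {P : List ℕ → ℚ} (hP : Van n P) : ∀ (u : List ℕ) (b : ℕ) (v : List ℕ),
    Ok (u ++ b :: v) → u.length + v.length + 1 = n →
    S u v (fun w => P (b :: w)) = (-1) ^ u.length * P (u.reverse ++ b :: v) := by
  intro u
  induction u with
  | nil => intro b v _ _; simp
  | cons c u ih =>
    intro b v hok hlen
    have h1 := ih c (b :: v) (hok.perm (by simpa using (List.perm_middle (a := c) (l₁ := u) (l₂ := b :: v))))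
      (by simp at hlen ⊢; omega)
    have h2 := hP (c :: u) (b :: v) (by simp) (by simp) hok (by simp at hlen ⊢; omega)
    rw [S_cons_cons, h1] at h2
    simp only [List.length_cons, List.reverse_cons, List.append_assoc, List.singleton_append]
    rw [pow_succ]
    linarith [h2]

lemma lieEnd {n : ℕ} {P : List ℕ → ℚ} (hP : Van n P) (u : List ℕ) : ∀ (b : ℕ) (v : List ℕ),
    Ok (u ++ b :: v) → u.length + v.length + 1 = n →
    S u v (fun w => P (w ++ [b])) = (-1) ^ u.length * P (v ++ b :: u.reverse) := by
  induction u using List.reverseRecOn with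
  | nil => intro b v _ _; simp
  | append_singleton u c ih =>
    intro b v hok hlen
    have hok1 : Ok (u ++ c :: (v ++ [b])) := by
      apply hok.perm
      have : (v ++ [b]).Perm (b :: v) := by
        simpa using (List.perm_append_comm (l₁ := v) (l₂ := [b]))
      simpa using (this.cons c).append_left u
    have h1 := ih c (v ++ [b]) hok1 (by simp at hlen ⊢; omega)
    have hok2 : Ok ((u ++ [c]) ++ (v ++ [b])) := by simpa using hok1
    have h2 := hP (u ++ [c]) (v ++ [b]) (by simp) (by simp) hok2 (by simp at hlen ⊢; omega)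
    rw [S_snoc _ u v c b P rfl, h1] at h2
    have e : v ++ [b] ++ c :: u.reverse = v ++ b :: (u ++ [c]).reverse := by simp
    rw [e] at h2
    simp only [List.length_append, List.length_cons, List.length_nil]
    rw [zero_add, pow_succ]
    linarith [h2]

/-- The window functional. -/
def T (m : ℕ) (P : List ℕ → ℚ) (u p : List ℕ) : ℚ :=
  S u p (fun τ => P (τ.take (m + 1)) * P (τ.drop m))

def Zw (m : ℕ) (P : List ℕ → ℚ) (u p : List ℕ) (i : ℕ) : ℚ :=
  P (p.take (m + 1 - i) ++ (u.take i).reverse)

def Yw (m : ℕ) (P : List ℕ → ℚ) (u p : List ℕ) (i : ℕ) : ℚ :=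
  P ((u.drop i).reverse ++ p.drop (m - i))

lemma T_formula {m : ℕ} {P : List ℕ → ℚ} (hP : Van (m + 1) P) (u p : List ℕ)
    (hu : u.length = m) (hp : p.length = m + 1) (hok : Ok (u ++ p)) :
    (-1) ^ m * T m P u p
      = ∑ i ∈ range m, Yw m P u p i * (Zw m P u p i - Zw m P u p (i + 1)) + Zw m P u p m * P p := by
  have h0 : T m P u p
      = S u p (fun τ => (fun σ ρ : List ℕ => P (σ ++ ρ.take 1) * P ρ) (τ.take m) (τ.drop m)) := by
    unfold T
    congr 1
    funext τ
    simp only [List.take_add]
  have h1 := S_split m u p (fun σ ρ : List ℕ => P (σ ++ ρ.take 1) * P ρ) (by omega)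
  rw [h0, h1, Finset.Nat.sum_antidiagonal_eq_sum_range_succ_mk,
    Finset.sum_range_succ, mul_add]
  congr 1
  · rw [Finset.mul_sum]
    apply Finset.sum_congr rfl
    intro i hi
    rw [Finset.mem_range] at hi
    simp only [E]
    rw [if_pos ⟨by omega, by omega⟩]
    obtain ⟨a, u', hu'⟩ : ∃ a u', u.drop i = a :: u' := by
      rcases h : u.drop i with _ | ⟨a, u'⟩
      · have := congrArg List.length h
        simp at this; omega
      · exact ⟨a, u', rfl⟩
    obtain ⟨c, p', hp'⟩ : ∃ c p', p.drop (m - i) = c :: p' := by
      rcases h : p.drop (m - i) with _ | ⟨c, p'⟩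
      · have := congrArg List.length h
        simp at this; omega
      · exact ⟨c, p', rfl⟩
    have hlu' : u'.length = m - i - 1 := by
      have := congrArg List.length hu'
      simp at this; omega
    have hlp' : p'.length = i := by
      have := congrArg List.length hp'
      simp at this; omega
    have hdok : Ok (u.drop i ++ p.drop (m - i)) :=
      hok.sublist ((List.drop_sublist i u).append (List.drop_sublist (m - i) p))
    have hinner : ∀ σ : List ℕ, S (u.drop i) (p.drop (m - i)) (fun ρ => P (σ ++ ρ.take 1) * P ρ)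
        = ((-1) ^ (m - i - 1) * Yw m P u p i) * (P (σ ++ [a]) - P (σ ++ [c])) := by
      intro σ
      unfold Yw
      rw [hu', hp', S_cons_cons]
      simp only [List.take_succ_cons, List.take_zero]
      rw [S_mul, S_mul]
      rw [hu', hp'] at hdok
      have e1 := lie hP u' a (c :: p')
        (hdok.perm (by simpa using (List.perm_middle (a := a) (l₁ := u') (l₂ := c :: p'))))
        (by simp; omega)
      have e2 := lie hP (a :: u') c p' (by simpa using hdok) (by simp; omega)
      rw [e1, e2, hlu']
      simp only [List.length_cons, List.reverse_cons, List.append_assoc, List.singleton_append,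
        hlu', pow_succ]
      ring
    simp_rw [hinner]
    rw [S_mul, S_sub]
    have hta : u.take (i + 1) = u.take i ++ [a] := by
      have : u.take (i + 1) = u.take i ++ (u.drop i).take 1 := by rw [List.take_add]
      rw [this, hu']; simp
    have htc : p.take (m - i + 1) = p.take (m - i) ++ [c] := by
      have : p.take (m - i + 1) = p.take (m - i) ++ (p.drop (m - i)).take 1 := by rw [List.take_add]
      rw [this, hp']; simp
    have hoka : Ok (u.take i ++ a :: p.take (m - i)) := by
      have h1 : Ok (u.take (i + 1) ++ p.take (m - i)) :=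
        hok.sublist ((List.take_sublist _ u).append (List.take_sublist _ p))
      rw [hta] at h1
      simpa using h1
    have hokc : Ok (u.take i ++ c :: p.take (m - i)) := by
      have h1 : Ok (u.take i ++ p.take (m - i + 1)) :=
        hok.sublist ((List.take_sublist _ u).append (List.take_sublist _ p))
      rw [htc] at h1
      apply h1.perm
      apply List.Perm.append_left
      simpa using (List.perm_append_comm (l₁ := [c]) (l₂ := p.take (m - i)))
    have hti : (u.take i).length = i := by simp; omega
    have htj : (p.take (m - i)).length = m - i := by simp; omega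
    have f1 := lieEnd hP (u.take i) a (p.take (m - i)) hoka (by rw [hti, htj]; omega)
    have f2 := lieEnd hP (u.take i) c (p.take (m - i)) hokc (by rw [hti, htj]; omega)
    rw [f1, f2, hti]
    have g1 : P (p.take (m - i) ++ a :: (u.take i).reverse) = Zw m P u p (i + 1) := by
      unfold Zw
      rw [hta, show m + 1 - (i + 1) = m - i by omega]
      simp
    have g2 : P (p.take (m - i) ++ c :: (u.take i).reverse) = Zw m P u p i := by
      unfold Zw
      rw [show m + 1 - i = m - i + 1 by omega, htc]
      simp
    rw [g1, g2]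
    have hs : ((-1 : ℚ)) ^ m * ((-1) ^ (m - i - 1) * (-1) ^ i) = -1 := by
      rw [← pow_add, ← pow_add]
      apply Odd.neg_one_pow
      exact ⟨m - 1, by omega⟩
    calc (-1 : ℚ) ^ m * ((-1) ^ (m - i - 1) * Yw m P u p i *
          ((-1) ^ i * Zw m P u p (i + 1) - (-1) ^ i * Zw m P u p i))
        = ((-1 : ℚ) ^ m * ((-1) ^ (m - i - 1) * (-1) ^ i)) * (Yw m P u p i *
          (Zw m P u p (i + 1) - Zw m P u p i)) := by ring
      _ = _ := by rw [hs]; ring
  · simp only [E]
    rw [if_pos ⟨by omega, by omega⟩]
    rw [Nat.sub_self]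
    simp only [List.take_zero, List.drop_zero]
    have hd : u.drop m = [] := by rw [← hu]; simp
    have ht : u.take m = u := by rw [← hu]; simp
    rw [hd, ht]
    simp only [S_nil_left, S_nil_right]
    obtain ⟨c, p', hp'⟩ : ∃ c p', p = c :: p' := by
      rcases h : p with _ | ⟨c, p'⟩
      · rw [h] at hp; simp at hp
      · exact ⟨c, p', rfl⟩
    have hokc : Ok (u ++ c :: []) := by
      rw [hp'] at hok
      exact hok.sublist (List.Sublist.append_left (by simp) u)
    have f2 := lieEnd hP u c [] hokc (by simp; omega)
    simp only [S_nil_right, List.nil_append] at f2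
    have e1 : p.take 1 = [c] := by rw [hp']; simp
    have g : Zw m P u p m = P (c :: u.reverse) := by
      unfold Zw
      rw [show m + 1 - m = 1 by omega, e1, ht]
      simp
    rw [e1, f2, g, hu, ← mul_assoc, ← mul_assoc, ← pow_add]
    rw [Even.neg_one_pow ⟨m, rfl⟩]
    ring

end Pool.Agent.V1184.Bic
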