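import Pool.Agent.V1184.Bic.Words
import Pool.Agent.V1184.Bic.Endgame

/-!
A bicompatible statistic which is constant on every length `≤ 3` is constant on every length.
-/

namespace Pool.Agent.V1184.Bic

open Finset

variable {m : ℕ} {α : Type*}

/-- Assembling the hypotheses of `endgame`. -/
lemma no_sys (hm : 3 ≤ m) (ind : List ℕ → ℕ) (hind : ∀ w, ind w ≤ 1) (ρ : ℚ)
    (h : Sys m (fun w => (ind w : ℚ) - ρ))
    (hid : ind (W (m + 1) (fun k => k + 1)) = 0)
    (w0 : ℕ → ℕ) (hw0 : Good (m + 1) w0) (hw01 : ind (W (m + 1) w0) = 1) : False := by
  set P : List ℕ → ℚ := fun w => (ind w : ℚ) - ρ with hP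
  set g : (ℕ → ℕ) → ℕ := fun w => ind (W (m + 1) w) with hg
  have hpf : ∀ w, pf m P w = (g w : ℚ) - ρ := fun w => rfl
  have hg1 : ∀ w, g w ≤ 1 := fun w => hind _
  have tr : ∀ {w w'}, pf m P w = pf m P w' → g w = g w' := by
    intro w w' hh
    rw [hpf, hpf] at hh
    have : (g w : ℚ) = (g w' : ℚ) := by linarith
    exact_mod_cast this
  have E4 : ∀ {w : ℕ → ℕ}, Good (m + 2) w → ∀ {i j k}, i < j → j < k → k ≤ m + 1 →
      g (del w j) = g (del w k) ∨ g (del w i) = g (del w j) := by
    intro w hw i j k h1 h2 h3
    have := e4 h hw h1 h2 h3
    rcases mul_eq_zero.mp this with hh | hh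
    · left; apply tr; linarith
    · right; apply tr; linarith
  have bal : ∀ {v : ℕ → ℕ} {b : ℕ}, Good m v → 0 < b → (∀ a, a < m → v a ≠ b) →
      ((∑ l ∈ range (m + 1), g (ins v l b) : ℕ) : ℚ) = (m + 1) * ρ := by
    intro v b hv hb hne
    have := bal_zero h (by omega) hv hb hne
    simp only [hpf] at this
    rw [Finset.sum_sub_distrib] at this
    simp only [Finset.sum_const, Finset.card_range, nsmul_eq_mul] at this
    push_cast at this ⊢
    linarith
  set J : ℕ → ℕ := fun i => g (wJ m i) with hJ
  set G : ℕ → ℕ → ℕ := fun i j => g (wG m i j) with hG
  set N : ℕ := ∑ l ∈ range (m + 1), J l with hN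
  -- single insertion in the increasing word
  have balJ : (N : ℚ) = (m + 1) * ρ := by
    have hv : Good m (fun k => k + 1) := by
      refine ⟨fun a b _ _ hab => ?_, fun a _ => ?_⟩
      · have hab' : a + 1 = b + 1 := hab
        omega
      · show 0 < a + 1
        omega
    have := bal (v := fun k => k + 1) (b := 4 * m + 21) hv (by omega) (by
      intro a ha; show a + 1 ≠ _; omega)
    rw [← this, hN]
    congr 1
    apply Finset.sum_congr rfl
    intro l hl
    rw [Finset.mem_range] at hl
    symm
    apply tr
    apply h.pfJ l
    · intro a ha; simp only [ins]; split_ifs <;> first | omega | contradiction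
    · intro a b ha hb hR
      unfold R1 at hR
      simp only [ins]
      split_ifs <;> first | omega | contradiction
  have bal' : ∀ {v : ℕ → ℕ} {b : ℕ}, Good m v → 0 < b → (∀ a, a < m → v a ≠ b) →
      ∑ l ∈ range (m + 1), g (ins v l b) = N := by
    intro v b hv hb hne
    have h1 := bal hv hb hne
    rw [← balJ] at h1
    exact_mod_cast h1
  have hJm : J m = 0 := by
    have : g (fun k => k + 1) = J m := by
      apply tr
      apply h.pfJ m
      · intro a ha; omega
      · intro a b ha hb hR
        unfold R1 at hR
        omega
    rw [← this]
    exact hid
  -- windows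
  have cntW : ∀ {w2 : ℕ → ℕ}, Good (m + 2) w2 → g w2 = 1 → m + g (fun a => w2 (a + 1)) ≤ 2 * N := by
    intro w2 hw2 h1
    set s := w2 (m + 1) with hs
    set w' : ℕ → ℕ := fun a => w2 (a + 1) with hw'
    have hsp : 0 < s := hw2.2 _ (by omega)
    have b1 : ∑ l ∈ range (m + 1), g (ins w2 l s) = N := by
      apply bal' (hw2.mono (by omega)) hsp
      intro a ha hab
      have := hw2.1 a (m + 1) (by omega) (by omega) hab
      omega
    have b2 : ∑ l ∈ range (m + 1), g (ins w' l s) = N := by
      apply bal'
      · refine ⟨fun a b ha hb hab => ?_, fun a ha => hw2.2 _ (by omega)⟩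
        have := hw2.1 (a + 1) (b + 1) (by omega) (by omega) hab
        omega
      · exact hsp
      · intro a ha hab
        have := hw2.1 (a + 1) (m + 1) (by omega) (by omega) hab
        omega
    rw [Finset.sum_range_succ'] at b1
    rw [Finset.sum_range_succ] at b2
    have e1 : g (ins w' m s) = g w' := by
      show ind _ = ind _
      congr 1
      apply List.map_congr_left
      intro a ha
      rw [List.mem_range] at ha
      simp only [ins]
      by_cases c : a < m
      · rw [if_pos c]
      · rw [if_neg c, if_pos (by omega), hs]
        have : a = m := by omega
        subst this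
        rfl
    have e2 : ∑ _l ∈ range m, 1 ≤ ∑ l ∈ range m, (g (ins w' l s) + g (ins w2 (l + 1) s)) := by
      apply Finset.sum_le_sum
      intro l hl
      rw [Finset.mem_range] at hl
      have hgood : Good (m + 2) (ins w2 (l + 1) s) := by
        refine ⟨?_, ?_⟩
        · intro a b ha hb hab
          simp only [ins] at hab
          have i1 := hw2.1 a b
          have i2 := hw2.1 a (m + 1)
          have i3 := hw2.1 a (b - 1)
          have i4 := hw2.1 (m + 1) b
          have i5 := hw2.1 (m + 1) (b - 1)
          have i6 := hw2.1 (a - 1) b
          have i7 := hw2.1 (a - 1) (m + 1)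
          have i8 := hw2.1 (a - 1) (b - 1)
          split_ifs at hab with c1 c2 c3 c4 c5 c6 c7 c8 c9
          · exact i1 (by omega) (by omega) hab
          · have := i2 (by omega) (by omega) hab; omega
          · have := i3 (by omega) (by omega) hab; omega
          · have := i4 (by omega) (by omega) hab; omega
          · omega
          · have := i5 (by omega) (by omega) hab; omega
          · have := i6 (by omega) (by omega) hab; omega
          · have := i7 (by omega) (by omega) hab; omega
          · have := i8 (by omega) (by omega) hab; omega
        · intro a ha
          simp only [ins]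
          split_ifs
          · exact hw2.2 a (by omega)
          · exact hsp
          · exact hw2.2 (a - 1) (by omega)
      have f1' : del (ins w2 (l + 1) s) (l + 1) = w2 := by
        funext a
        simp only [del, ins]
        by_cases c : a < l + 1
        · rw [if_pos c, if_pos c]
        · rw [if_neg c, if_neg (by omega), if_neg (by omega), Nat.add_sub_cancel]
      have f1 : g (del (ins w2 (l + 1) s) (l + 1)) = 1 := by
        rw [f1', h1]
      have f2 : g (del (ins w2 (l + 1) s) 0) = g (ins w' l s) := by
        congr 1
        funext a
        simp only [del, ins, hw']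
        rw [if_neg (by omega)]
        by_cases c : a < l
        · rw [if_pos c, if_pos (by omega)]
        · by_cases c2 : a = l
          · rw [if_neg c, if_pos c2, if_neg (by omega), if_pos (by omega)]
          · rw [if_neg c, if_neg c2, if_neg (by omega), if_neg (by omega), Nat.add_sub_cancel,
              show a - 1 + 1 = a by omega]
      have f3 : g (del (ins w2 (l + 1) s) (m + 1)) = g (ins w2 (l + 1) s) := by
        show ind _ = ind _
        congr 1
        apply List.map_congr_left
        intro a ha
        rw [List.mem_range] at ha
        simp only [del]
        rw [if_pos ha]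
      have := E4 hgood (show 0 < l + 1 by omega) (show l + 1 < m + 1 by omega) le_rfl
      rw [f1, f2, f3] at this
      omega
    rw [Finset.sum_add_distrib] at e2
    simp only [Finset.sum_const, Finset.card_range, smul_eq_mul, mul_one] at e2
    rw [e1] at b2
    omega
  have cnt : m ≤ 2 * N := by
    have hgood : Good (m + 2) (fun k => if k < m + 1 then 2 * w0 k else 1) := by
      refine ⟨?_, ?_⟩
      · intro a b ha hb hab
        simp only at hab
        split_ifs at hab
        · exact hw0.1 a b (by omega) (by omega) (by omega)
        · omega
        · omega
        · omega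
      · intro a ha
        simp only
        split_ifs with c
        · have := hw0.2 a c; omega
        · omega
    have h1' : g (fun k => if k < m + 1 then 2 * w0 k else 1) = g w0 := by
      apply tr
      apply h.pinv (hgood.mono (by omega)) hw0
      intro a b ha hb
      rw [if_pos ha, if_pos hb]
      omega
    have h1 : g (fun k => if k < m + 1 then 2 * w0 k else 1) = 1 := h1'.trans hw01
    have := cntW hgood h1
    omega
  have hGm : ∀ i, i < m → G i m = J i := by
    intro i hi
    apply tr
    apply h.pfJ i
    · intro a ha; exact wG_pos i m a
    · intro a b ha hb hR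
      unfold R1 at hR
      simp only [wG]
      split_ifs <;> first | omega | contradiction
  refine endgame (N := N) hm J G (fun i => hg1 _) (fun i j => hg1 _) hJm hGm ?_ hN.symm ?_ ?_ cnt ?_ ?_ ?_ ?_ ?_ ?_ ?_
  · -- indep
    intro p hp
    have e := E4 (wJ_good (m := m) (p + 1)) (show 0 < p + 1 by omega) (show p + 1 < m + 1 by omega) le_rfl
    have f1 : g (del (wJ m (p + 1)) (p + 1)) = J m := by
      apply tr
      apply h.pfJ m
      · intro a ha; simp only [del, wJ]; split_ifs <;> first | omega | contradiction
      · intro a b ha hb hR
        unfold R1 at hR
        simp only [del, wJ]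
        split_ifs <;> first | omega | contradiction
    have f2 : g (del (wJ m (p + 1)) 0) = J p := by
      apply tr
      apply h.pfJ p
      · intro a ha; simp only [del, wJ]; split_ifs <;> first | omega | contradiction
      · intro a b ha hb hR
        unfold R1 at hR
        simp only [del, wJ]
        split_ifs <;> first | omega | contradiction
    have f3 : g (del (wJ m (p + 1)) (m + 1)) = J (p + 1) := by
      apply tr
      apply h.pfJ (p + 1)
      · intro a ha; simp only [del, wJ]; split_ifs <;> first | omega | contradiction
      · intro a b ha hb hR
        unfold R1 at hR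
        simp only [del, wJ]
        split_ifs <;> first | omega | contradiction
    rw [f1, f2, f3, hJm] at e
    have := hg1 (wJ m p)
    have := hg1 (wJ m (p + 1))
    simp only [hJ] at e ⊢
    omega
  · -- bal0
    have b1 : ∑ l ∈ range (m + 1), g (ins (wJ m 0) l (4 * m + 20)) = N := by
      apply bal' ((wJ_good 0).mono (by omega)) (by omega)
      intro a ha
      simp only [wJ]
      split_ifs <;> first | omega | contradiction
    rw [Finset.sum_range_succ'] at b1
    rw [← b1, add_comm]
    congr 1
    · apply Finset.sum_congr rfl
      intro l hl
      rw [Finset.mem_range] at hl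
      symm
      apply tr
      apply h.pfG (by omega)
      · intro a ha; simp only [ins, wJ]; split_ifs <;> first | omega | contradiction
      · intro a b ha hb hR
        unfold R2 at hR
        simp only [ins, wJ]
        split_ifs <;> first | omega | contradiction
    · symm
      apply tr
      apply h.pfG (by omega)
      · intro a ha; simp only [ins, wJ]; split_ifs <;> first | omega | contradiction
      · intro a b ha hb hR
        unfold R2 at hR
        simp only [ins, wJ]
        split_ifs <;> first | omega | contradiction
  · -- bal1
    have b1 : ∑ l ∈ range (m + 1), g (ins (wJ m 1) l (4 * m + 20)) = N := by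
      apply bal' ((wJ_good 1).mono (by omega)) (by omega)
      intro a ha
      simp only [wJ]
      split_ifs <;> first | omega | contradiction
    rw [Finset.sum_range_succ', show m = (m - 1) + 1 by omega, Finset.sum_range_succ',
      show (m - 1) + 1 = m by omega] at b1
    have f0 : g (ins (wJ m 1) 0 (4 * m + 20)) = G 2 0 := by
      apply tr
      apply h.pfG (by omega)
      · intro a ha; simp only [ins, wJ]; split_ifs <;> first | omega | contradiction
      · intro a b ha hb hR
        unfold R2 at hR
        simp only [ins, wJ]
        split_ifs <;> first | omega | contradiction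
    have f1 : g (ins (wJ m 1) (0 + 1) (4 * m + 20)) = G 2 1 := by
      apply tr
      apply h.pfG (by omega)
      · intro a ha; simp only [ins, wJ]; split_ifs <;> first | omega | contradiction
      · intro a b ha hb hR
        unfold R2 at hR
        simp only [ins, wJ]
        split_ifs <;> first | omega | contradiction
    have f2 : ∑ l ∈ range (m - 1), g (ins (wJ m 1) (l + 1 + 1) (4 * m + 20))
        = ∑ l ∈ range (m - 1), G 1 (l + 2) := by
      apply Finset.sum_congr rfl
      intro l hl
      rw [Finset.mem_range] at hl
      apply tr
      apply h.pfG (by omega)
      · intro a ha; simp only [ins, wJ]; split_ifs <;> first | omega | contradiction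
      · intro a b ha hb hR
        unfold R2 at hR
        simp only [ins, wJ]
        split_ifs <;> first | omega | contradiction
    rw [f0, f1, f2] at b1
    omega
  · -- e4a
    intro j h1 h2 h3
    have e := E4 (wG_good (m := m) (i := 0) (j := j) (by omega)) (show 0 < j by omega)
      (show j < m + 1 by omega) le_rfl
    have f1 : g (del (wG m 0 j) j) = J 0 := by
      apply tr
      apply h.pfJ 0
      · intro a ha; simp only [del, wG]; split_ifs <;> first | omega | contradiction
      · intro a b ha hb hR
        unfold R1 at hR
        simp only [del, wG]
        split_ifs <;> first | omega | contradiction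
    have f2 : g (del (wG m 0 j) 0) = J (j - 1) := by
      apply tr
      apply h.pfJ (j - 1)
      · intro a ha; simp only [del, wG]; split_ifs <;> first | omega | contradiction
      · intro a b ha hb hR
        unfold R1 at hR
        simp only [del, wG]
        split_ifs <;> first | omega | contradiction
    have f3 : g (del (wG m 0 j) (m + 1)) = G 0 j := by
      apply tr
      apply h.pfG (by omega)
      · intro a ha; simp only [del, wG]; split_ifs <;> first | omega | contradiction
      · intro a b ha hb hR
        unfold R2 at hR
        simp only [del, wG]
        split_ifs <;> first | omega | contradiction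
    rw [f1, f2, f3] at e
    omega
  · -- e4b
    intro h3
    have e := E4 (wG_good (m := m) (i := 2) (j := 0) (by omega)) (show 0 < 2 by omega)
      (show 2 < m + 1 by omega) le_rfl
    have f1 : g (del (wG m 2 0) 2) = J 0 := by
      apply tr
      apply h.pfJ 0
      · intro a ha; simp only [del, wG]; split_ifs <;> first | omega | contradiction
      · intro a b ha hb hR
        unfold R1 at hR
        simp only [del, wG]
        split_ifs <;> first | omega | contradiction
    have f2 : g (del (wG m 2 0) 0) = J 1 := by
      apply tr
      apply h.pfJ 1
      · intro a ha; simp only [del, wG]; split_ifs <;> first | omega | contradiction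
      · intro a b ha hb hR
        unfold R1 at hR
        simp only [del, wG]
        split_ifs <;> first | omega | contradiction
    have f3 : g (del (wG m 2 0) (m + 1)) = G 2 0 := by
      apply tr
      apply h.pfG (by omega)
      · intro a ha; simp only [del, wG]; split_ifs <;> first | omega | contradiction
      · intro a b ha hb hR
        unfold R2 at hR
        simp only [del, wG]
        split_ifs <;> first | omega | contradiction
    rw [f1, f2, f3] at e
    omega
  · -- ssg
    intro p r h1 h2 h3 h4
    have e := ss_gt h h1 (show p + r ≤ m by omega)
    simp only [hpf] at e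
    have j1 : (g (wJ m p) : ℚ) = 1 := by exact_mod_cast h3
    have j2 : (g (wJ m (p + r)) : ℚ) = 1 := by exact_mod_cast h4
    have j3 : (g (wJ m m) : ℚ) = 0 := by exact_mod_cast hJm
    rw [j1, j2, j3] at e
    have e' : (g (wG m (p + 1) (p + r)) : ℚ) + (g (wG m p (p + r - 1)) : ℚ) = 1 := by linarith
    exact_mod_cast e'
  · -- ssl
    intro h3 h4
    have e := ss_lt h (le_refl 2) (show 0 + 2 ≤ m by omega)
    simp only [hpf] at e
    have j1 : (g (wJ m 0) : ℚ) = 1 := by exact_mod_cast h3
    have j2 : (g (wJ m (0 + 2)) : ℚ) = 1 := by exact_mod_cast h4
    have j3 : (g (wJ m m) : ℚ) = 0 := by exact_mod_cast hJm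
    rw [j1, j2, j3] at e
    have e' : (g (wG m 2 1) : ℚ) + (g (wG m 1 0) : ℚ) = 1 := by
      have : (g (wG m (0 + 2) (0 + 1)) : ℚ) + (g (wG m (0 + 2 - 1) 0) : ℚ) = 1 := by linarith
      simpa using this
    exact_mod_cast e'
  · -- iso
    intro h2N i hi hJi
    have h1 : g (wG m (i + 1) m) = 1 := by
      have := hGm (i + 1) hi
      rw [hJi] at this
      exact this
    have c := cntW (wG_good (m := m) (i := i + 1) (j := m) (by omega)) h1
    have f : g (fun a => wG m (i + 1) m (a + 1)) = G i (m - 1) := by
      apply tr
      apply h.pfG (by omega)
      · intro a ha; simp only [wG]; split_ifs <;> first | omega | contradiction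
      · intro a b ha hb hR
        unfold R2 at hR
        simp only [wG]
        split_ifs <;> first | omega | contradiction
    rw [f] at c
    omega
  · -- isoJ
    intro h2N hJ0
    set w2 : ℕ → ℕ := fun k => if k = 0 then 4 * m + 21 else if k = m then m + 5 else
      if k = m + 1 then m + 3 else k + 1 with hw2
    have hgood : Good (m + 2) w2 := by
      refine ⟨?_, ?_⟩
      · intro a b ha hb hab
        simp only [hw2] at hab
        split_ifs at hab <;> omega
      · intro a ha
        simp only [hw2]
        split_ifs <;> first | omega | contradiction
    have h1 : g w2 = 1 := by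
      rw [← hJ0]
      apply tr
      apply h.pfJ 0
      · intro a ha; exact hgood.2 a (by omega)
      · intro a b ha hb hR
        unfold R1 at hR
        simp only [hw2]
        split_ifs <;> first | omega | contradiction
    have c := cntW hgood h1
    have f : g (fun a => w2 (a + 1)) = J (m - 1) := by
      apply tr
      apply h.pfJ (m - 1)
      · intro a ha; exact hgood.2 (a + 1) (by omega)
      · intro a b ha hb hR
        unfold R1 at hR
        simp only [hw2]
        split_ifs <;> first | omega | contradiction
    rw [f] at c
    omega
  · -- exact
    intro h2N q hq1 hq2 hJq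
    have hgood := wG_good (m := m) (i := q) (j := q + 1) (by omega)
    have e := E4 hgood (show 0 < q by omega) (show q < m + 1 by omega) le_rfl
    have f1 : g (del (wG m q (q + 1)) q) = J q := by
      apply tr
      apply h.pfJ q
      · intro a ha; simp only [del, wG]; split_ifs <;> first | omega | contradiction
      · intro a b ha hb hR
        unfold R1 at hR
        simp only [del, wG]
        split_ifs <;> first | omega | contradiction
    have f2 : g (del (wG m q (q + 1)) 0) = G (q - 1) q := by
      apply tr
      apply h.pfG (by omega)
      · intro a ha; simp only [del, wG]; split_ifs <;> first | omega | contradiction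
      · intro a b ha hb hR
        unfold R2 at hR
        simp only [del, wG]
        split_ifs <;> first | omega | contradiction
    have f3 : g (del (wG m q (q + 1)) (m + 1)) = G q (q + 1) := by
      apply tr
      apply h.pfG (by omega)
      · intro a ha; simp only [del, wG]; split_ifs <;> first | omega | contradiction
      · intro a b ha hb hR
        unfold R2 at hR
        simp only [del, wG]
        split_ifs <;> first | omega | contradiction
    rw [f1, f2, f3, hJq] at e
    have k1 := hg1 (wG m q (q + 1))
    have k2 := hg1 (wG m (q - 1) q)
    have k3 : G q (q + 1) = 1 → G (q - 1) q = 0 := by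
      intro hh
      have c := cntW hgood hh
      have f : g (fun a => wG m q (q + 1) (a + 1)) = G (q - 1) q := by
        apply tr
        apply h.pfG (by omega)
        · intro a ha; simp only [wG]; split_ifs <;> first | omega | contradiction
        · intro a b ha hb hR
          unfold R2 at hR
          simp only [wG]
          split_ifs <;> first | omega | contradiction
      rw [f] at c
      omega
    simp only [hG] at e k3 ⊢
    omega

end Pool.Agent.V1184.Bic
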