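import Mathlib

/-!
Sums over shuffles of two words: the functional `S u v F` is the sum of `F` over all shuffles.
-/

namespace Pool.Agent.V1184.Bic

open Finset

variable {α : Type*}

/-- Sum of `F` over all shuffles of `u` and `v` (recursive form). -/
def S : List α → List α → (List α → ℚ) → ℚ
  | [], v, F => F v
  | a :: u, [], F => F (a :: u)
  | a :: u, b :: v, F => S u (b :: v) (fun w => F (a :: w)) + S (a :: u) v (fun w => F (b :: w))

@[simp] lemma S_nil_left (v : List α) (F : List α → ℚ) : S [] v F = F v := by
  cases v <;> simp [S]

@[simp] lemma S_nil_right (u : List α) (F : List α → ℚ) : S u [] F = F u := by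
  cases u <;> simp [S]

lemma S_cons_cons (a b : α) (u v : List α) (F : List α → ℚ) :
    S (a :: u) (b :: v) F
      = S u (b :: v) (fun w => F (a :: w)) + S (a :: u) v (fun w => F (b :: w)) := by
  rw [S]

lemma S_add (u v : List α) (F G : List α → ℚ) :
    S u v (fun w => F w + G w) = S u v F + S u v G := by
  induction u generalizing v F G with
  | nil => simp
  | cons a u ihu =>
    induction v generalizing F G with
    | nil => simp
    | cons b v ihv =>
      rw [S_cons_cons, S_cons_cons, S_cons_cons, ihu, ihv]
      ring

lemma S_mul (c : ℚ) (u v : List α) (F : List α → ℚ) :
    S u v (fun w => c * F w) = c * S u v F := by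
  induction u generalizing v F with
  | nil => simp
  | cons a u ihu =>
    induction v generalizing F with
    | nil => simp
    | cons b v ihv =>
      rw [S_cons_cons, S_cons_cons, ihu, ihv]
      ring

lemma S_sub (u v : List α) (F G : List α → ℚ) :
    S u v (fun w => F w - G w) = S u v F - S u v G := by
  have h1 : S u v (fun w => F w - G w) = S u v (fun w => F w + (-1) * G w) := by
    congr 1; funext w; ring
  rw [h1, S_add, S_mul]; ring

lemma S_comm (u v : List α) (F : List α → ℚ) : S u v F = S v u F := by
  induction u generalizing v F with
  | nil => simp
  | cons a u ihu =>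
    induction v generalizing F with
    | nil => simp
    | cons b v ihv =>
      rw [S_cons_cons, S_cons_cons, ihu, ihv]
      ring

/-- A word is a rearrangement of `u ++ v`. -/
lemma S_congr (u v : List α) (F G : List α → ℚ)
    (h : ∀ w, w.Perm (u ++ v) → F w = G w) : S u v F = S u v G := by
  induction u generalizing v F G with
  | nil => simpa using h v (by simp)
  | cons a u ihu =>
    induction v generalizing F G with
    | nil => simpa using h (a :: u) (by simp)
    | cons b v ihv =>
      rw [S_cons_cons, S_cons_cons]
      congr 1
      · apply ihu
        intro w hw
        apply h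
        simpa using hw
      · apply ihv
        intro w hw
        apply h
        have : (a :: u ++ b :: v).Perm (b :: (a :: u ++ v)) := by
          simpa using (List.perm_middle (a := b) (l₁ := a :: u) (l₂ := v))
        exact (List.Perm.cons b hw).trans this.symm

lemma S_one (c : ℚ) (u v : List α) : S u v (fun _ => c) = ((u.length + v.length).choose u.length : ℚ) * c := by
  induction u generalizing v with
  | nil => simp
  | cons a u ihu =>
    induction v with
    | nil => simp
    | cons b v ihv =>
      rw [S_cons_cons, ihu, ihv]
      have e1 : (a :: u).length + (b :: v).length = (u.length + (b :: v).length) + 1 := by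
        simp; omega
      have e2 : (a :: u).length + v.length = u.length + (b :: v).length := by
        simp; omega
      rw [e1, e2, List.length_cons (a := a), Nat.choose_succ_succ]
      push_cast
      ring

lemma S_assoc (u v x : List α) (F : List α → ℚ) :
    S u v (fun w => S w x F) = S v x (fun y => S u y F) := by
  induction u generalizing v x F with
  | nil => simp
  | cons a u ihu =>
    induction v generalizing x F with
    | nil => simp
    | cons b v ihv =>
      induction x generalizing F with
      | nil => simp
      | cons c x ihx =>
        rw [S_cons_cons]
        simp only [S_cons_cons a c, S_cons_cons b c, S_cons_cons a b]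
        rw [S_add, S_add, S_add, S_add]
        have hA : S u (b :: v) (fun w => S w (c :: x) (fun w => F (a :: w)))
            = S v (c :: x) (fun w => S u (b :: w) (fun w => F (a :: w)))
              + S (b :: v) x (fun w => S u (c :: w) (fun w => F (a :: w))) := by
          rw [ihu, S_cons_cons]
        have hB : S (a :: u) v (fun w => S w (c :: x) (fun w => F (b :: w)))
            = S v (c :: x) (fun w => S (a :: u) w (fun w => F (b :: w))) := by
          rw [ihv]
        have hC : S u (b :: v) (fun w => S (a :: w) x (fun w => F (c :: w)))
              + S (a :: u) v (fun w => S (b :: w) x (fun w => F (c :: w)))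
            = S (b :: v) x (fun w => S (a :: u) w (fun w => F (c :: w))) := by
          rw [← ihx, S_cons_cons]
        rw [hA, hB]
        linarith [hC]

lemma S_snoc (k : ℕ) : ∀ (u v : List α) (c b : α) (F : List α → ℚ), u.length + v.length = k →
    S (u ++ [c]) (v ++ [b]) F
      = S u (v ++ [b]) (fun w => F (w ++ [c])) + S (u ++ [c]) v (fun w => F (w ++ [b])) := by
  induction k with
  | zero =>
    intro u v c b F h
    have hu : u = [] := List.length_eq_zero_iff.mp (by omega)
    have hv : v = [] := List.length_eq_zero_iff.mp (by omega)
    subst hu; subst hv
    simp [S_cons_cons]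
    ring
  | succ k ih =>
    intro u v c b F h
    cases u with
    | nil =>
      cases v with
      | nil => simp at h
      | cons d v =>
        have h1 := ih [] v c b (fun w => F (d :: w)) (by simpa using h)
        simp only [List.nil_append, List.cons_append, S_nil_left] at h1 ⊢
        rw [S_cons_cons, h1, S_cons_cons]
        simp only [S_nil_left, List.cons_append]
        ring
    | cons a u =>
      cases v with
      | nil =>
        have h1 := ih u [] c b (fun w => F (a :: w)) (by simpa using h)
        simp only [List.nil_append, List.cons_append, S_nil_right] at h1 ⊢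
        rw [S_cons_cons, h1, S_cons_cons]
        simp only [S_nil_right, List.cons_append]
        ring
      | cons d v =>
        have h1 := ih u (d :: v) c b (fun w => F (a :: w)) (by simp at h ⊢; omega)
        have h2 := ih (a :: u) v c b (fun w => F (d :: w)) (by simp at h ⊢; omega)
        simp only [List.cons_append] at h1 h2 ⊢
        rw [S_cons_cons, h1, h2, S_cons_cons a d u (v ++ [b]), S_cons_cons a d (u ++ [c]) v]
        simp only [List.cons_append]
        ring

/-- Contribution of the splittings with `i` letters of `u` and `j` letters of `v` first. -/
def E (u v : List α) (i j : ℕ) (F : List α → List α → ℚ) : ℚ :=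
  if i ≤ u.length ∧ j ≤ v.length then
    S (u.take i) (v.take j) (fun σ => S (u.drop i) (v.drop j) (F σ)) else 0

lemma S_split (k : ℕ) : ∀ (u v : List α) (F : List α → List α → ℚ), k ≤ u.length + v.length →
    S u v (fun τ => F (τ.take k) (τ.drop k)) = ∑ p ∈ antidiagonal k, E u v p.1 p.2 F := by
  induction k with
  | zero =>
    intro u v F _
    simp [E]
  | succ k ih =>
    intro u v F h
    cases u with
    | nil =>
      simp only [S_nil_left]
      rw [Finset.Nat.sum_antidiagonal_succ]
      have hz : ∑ p ∈ antidiagonal k, E ([] : List α) v (p.1 + 1) p.2 F = 0 := by
        apply Finset.sum_eq_zero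
        intro p _
        simp [E]
      rw [hz]
      simp only [List.length_nil, zero_add] at h
      simp [E, h]
    | cons a u =>
      cases v with
      | nil =>
        simp only [S_nil_right]
        rw [Finset.Nat.sum_antidiagonal_succ']
        have hz : ∑ p ∈ antidiagonal k, E (a :: u) ([] : List α) p.1 (p.2 + 1) F = 0 := by
          apply Finset.sum_eq_zero
          intro p _
          simp [E]
        rw [hz]
        simp only [List.length_nil, add_zero] at h
        simp only [List.length_cons] at h
        simp [E, h]
      | cons b v =>
        rw [S_cons_cons]
        simp only [List.take_succ_cons, List.drop_succ_cons]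
        rw [ih u (b :: v) (fun σ ρ => F (a :: σ) ρ) (by simp at h ⊢; omega),
          ih (a :: u) v (fun σ ρ => F (b :: σ) ρ) (by simp at h ⊢; omega)]
        let h1 : ℕ × ℕ → ℚ := fun p => if p.1 = 0 then 0 else
          E u (b :: v) (p.1 - 1) p.2 (fun σ ρ => F (a :: σ) ρ)
        let h2 : ℕ × ℕ → ℚ := fun p => if p.2 = 0 then 0 else
          E (a :: u) v p.1 (p.2 - 1) (fun σ ρ => F (b :: σ) ρ)
        have key : ∀ p ∈ antidiagonal (k + 1), E (a :: u) (b :: v) p.1 p.2 F = h1 p + h2 p := by
          rintro ⟨i, j⟩ hp
          rw [HasAntidiagonal.mem_antidiagonal] at hp
          simp only at hp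
          rcases i with _ | i
          · rcases j with _ | j
            · omega
            · simp [E, h1, h2]
          · rcases j with _ | j
            · simp [E, h1, h2]
            · simp only [E, h1, h2, List.length_cons, Nat.add_le_add_iff_right, Nat.add_sub_cancel,
                Nat.succ_ne_zero, if_false, List.take_succ_cons, List.drop_succ_cons]
              by_cases hc : i ≤ u.length ∧ j ≤ v.length
              · have hc1 : i ≤ u.length ∧ j + 1 ≤ v.length + 1 := ⟨hc.1, by omega⟩
                have hc2 : i + 1 ≤ u.length + 1 ∧ j ≤ v.length := ⟨by omega, hc.2⟩
                simp [hc.1, hc.2, S_cons_cons]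
              · rw [if_neg hc, if_neg (by omega), if_neg (by omega)]
                ring
        rw [Finset.sum_congr rfl key, Finset.sum_add_distrib]
        congr 1
        · rw [Finset.Nat.sum_antidiagonal_succ]
          simp [h1]
        · rw [Finset.Nat.sum_antidiagonal_succ']
          simp [h2]

end Pool.Agent.V1184.Bic
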