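import Pool.Agent.V1184.Bic.Stat

/-!
The quadratic identity in terms of functions `ℕ → ℕ`, and its two consequences.
-/

namespace Pool.Agent.V1184.Bic

open Finset

/-- The word of length `k` with letters `w 0, ..., w (k-1)`. -/
def W (k : ℕ) (w : ℕ → ℕ) : List ℕ := (List.range k).map w

@[simp] lemma W_length (k : ℕ) (w : ℕ → ℕ) : (W k w).length = k := by simp [W]

/-- Distinct positive letters on `[0, k)`. -/
def Good (k : ℕ) (w : ℕ → ℕ) : Prop :=
  (∀ a b, a < k → b < k → w a = w b → a = b) ∧ ∀ a, a < k → 0 < w a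

lemma Good.ok {k : ℕ} {w : ℕ → ℕ} (h : Good k w) : Ok (W k w) := by
  refine ⟨?_, ?_⟩
  · apply List.Nodup.map_on _ List.nodup_range
    intro a ha b hb hab
    rw [List.mem_range] at ha hb
    exact h.1 a b ha hb hab
  · intro x hx
    rw [W, List.mem_map] at hx
    obtain ⟨a, ha, rfl⟩ := hx
    exact h.2 a (List.mem_range.mp ha)

lemma W_getD {k : ℕ} (w : ℕ → ℕ) {i : ℕ} (hi : i < k) : (W k w).getD i 0 = w i := by
  simp [W, List.getD_eq_getElem?_getD, hi]

lemma sameOrder_W {k : ℕ} {w w' : ℕ → ℕ} (h : ∀ a b, a < k → b < k → (w a < w b ↔ w' a < w' b)) :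
    SameOrder (W k w) (W k w') := by
  refine ⟨by simp, ?_⟩
  intro i j hi hj
  rw [W_length] at hi hj
  rw [W_getD w hi, W_getD w hj, W_getD w' hi, W_getD w' hj]
  exact h i j hi hj

/-- The hypotheses used below on a function `P` on words of length `m + 1`. -/
structure Sys (m : ℕ) (P : List ℕ → ℚ) : Prop where
  van : Van (m + 1) P
  inv : ∀ w w', Ok w → Ok w' → SameOrder w w' → P w = P w'
  ti : ∀ u u' p, u.length = m → u'.length = m → p.length = m + 1 → Ok (u ++ p) → Ok (u' ++ p) →
    T m P u p = T m P u' p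

variable {m : ℕ} {P : List ℕ → ℚ}

/-- value on a function word -/
def pf (m : ℕ) (P : List ℕ → ℚ) (w : ℕ → ℕ) : ℚ := P (W (m + 1) w)

lemma Sys.pinv (h : Sys m P) {w w' : ℕ → ℕ} (hw : Good (m + 1) w) (hw' : Good (m + 1) w')
    (ho : ∀ a b, a < m + 1 → b < m + 1 → (w a < w b ↔ w' a < w' b)) : pf m P w = pf m P w' :=
  h.inv _ _ hw.ok hw'.ok (sameOrder_W ho)

def mixZ (p V : ℕ → ℕ) (j : ℕ) : ℕ → ℕ := fun k => if k < j then p k else V k
def mixY (p V : ℕ → ℕ) (j : ℕ) : ℕ → ℕ := fun k => if k < j then V (k + 1) else p k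

/-- All letters `p 0, ..., p m, V 1, ..., V m` are distinct and positive. -/
structure GoodPair (m : ℕ) (p V : ℕ → ℕ) : Prop where
  gp : Good (m + 1) p
  gv : ∀ a b, 1 ≤ a → a ≤ m → 1 ≤ b → b ≤ m → V a = V b → a = b
  pv : ∀ a, 1 ≤ a → a ≤ m → 0 < V a
  dis : ∀ a b, a ≤ m → 1 ≤ b → b ≤ m → p a ≠ V b

lemma GoodPair.mixZ {p V : ℕ → ℕ} (h : GoodPair m p V) {j : ℕ} (hj : 1 ≤ j) :
    Good (m + 1) (mixZ p V j) := by
  refine ⟨?_, ?_⟩
  · intro a b ha hb hab
    simp only [Bic.mixZ] at hab
    split_ifs at hab with h1 h2 h2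
    · exact h.gp.1 a b ha hb hab
    · exact absurd hab (h.dis a b (by omega) (by omega) (by omega))
    · exact absurd hab.symm (h.dis b a (by omega) (by omega) (by omega))
    · exact h.gv a b (by omega) (by omega) (by omega) (by omega) hab
  · intro a ha
    simp only [Bic.mixZ]
    split_ifs with h1
    · exact h.gp.2 a ha
    · exact h.pv a (by omega) (by omega)

lemma GoodPair.mixY {p V : ℕ → ℕ} (h : GoodPair m p V) {j : ℕ} (hj : j ≤ m) :
    Good (m + 1) (mixY p V j) := by
  refine ⟨?_, ?_⟩
  · intro a b ha hb hab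
    simp only [Bic.mixY] at hab
    split_ifs at hab with h1 h2 h2
    · have := h.gv (a + 1) (b + 1) (by omega) (by omega) (by omega) (by omega) hab
      omega
    · exact absurd hab.symm (h.dis b (a + 1) (by omega) (by omega) (by omega))
    · exact absurd hab (h.dis a (b + 1) (by omega) (by omega) (by omega))
    · exact h.gp.1 a b ha hb hab
  · intro a ha
    simp only [Bic.mixY]
    split_ifs with h1
    · exact h.pv (a + 1) (by omega) (by omega)
    · exact h.gp.2 a ha

/-- the list of the letters `V m, ..., V 1` -/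
def VL (m : ℕ) (V : ℕ → ℕ) : List ℕ := (List.range m).map (fun l => V (m - l))

lemma GoodPair.ok {p V : ℕ → ℕ} (h : GoodPair m p V) : Ok (VL m V ++ W (m + 1) p) := by
  refine ⟨?_, ?_⟩
  · apply List.Nodup.append
    · apply List.Nodup.map_on _ List.nodup_range
      intro a ha b hb hab
      rw [List.mem_range] at ha hb
      have := h.gv (m - a) (m - b) (by omega) (by omega) (by omega) (by omega) hab
      omega
    · exact h.gp.ok.1
    · intro x hx hy
      rw [VL, List.mem_map] at hx
      rw [W, List.mem_map] at hy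
      obtain ⟨a, ha, rfl⟩ := hx
      obtain ⟨b, hb, hab⟩ := hy
      rw [List.mem_range] at ha hb
      exact h.dis b (m - a) (by omega) (by omega) (by omega) hab
  · intro x hx
    rcases List.mem_append.mp hx with hx | hx
    · rw [VL, List.mem_map] at hx
      obtain ⟨a, ha, rfl⟩ := hx
      rw [List.mem_range] at ha
      exact h.pv (m - a) (by omega) (by omega)
    · exact h.gp.ok.2 x hx

lemma Zw_eq (p V : ℕ → ℕ) {i : ℕ} (hi : i ≤ m) :
    Zw m P (VL m V) (W (m + 1) p) i = pf m P (mixZ p V (m + 1 - i)) := by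
  unfold Zw pf
  congr 1
  apply List.ext_getElem
  · simp [VL]; omega
  · intro k h1 h2
    simp only [W, VL, List.getElem_append, List.getElem_take, List.getElem_map, List.getElem_range,
      List.getElem_reverse, List.length_take, List.length_map, List.length_range, mixZ]
    rw [W_length] at h2
    by_cases hk : k < m + 1 - i
    · simp [hk]
    · have : ¬ (k < min (m + 1 - i) (m + 1)) := by omega
      simp only [this, hk, dif_neg, not_false_eq_true, if_false]
      congr 1
      omega

lemma Yw_eq (p V : ℕ → ℕ) {i : ℕ} (hi : i ≤ m) :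
    Yw m P (VL m V) (W (m + 1) p) i = pf m P (mixY p V (m - i)) := by
  unfold Yw pf
  congr 1
  apply List.ext_getElem
  · simp [VL]; omega
  · intro k h1 h2
    simp only [W, VL, List.getElem_append, List.getElem_drop, List.getElem_map, List.getElem_range,
      List.getElem_reverse, List.length_drop, List.length_reverse, List.length_map,
      List.length_range, mixY]
    rw [W_length] at h2
    by_cases hk : k < m - i
    · simp only [hk, dif_pos, if_true]
      congr 1
      omega
    · simp only [hk, dif_neg, not_false_eq_true, if_false]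
      congr 1
      omega

/-- The star sum. -/
def Star (m : ℕ) (P : List ℕ → ℚ) (p V : ℕ → ℕ) : ℚ :=
  ∑ j ∈ range m, (pf m P (mixZ p V (j + 2)) - pf m P (mixZ p V (j + 1))) *
    (pf m P (mixY p V (j + 1)) - pf m P p)

lemma T_star (h : Sys m P) {p V : ℕ → ℕ} (hg : GoodPair m p V) :
    (-1) ^ m * T m P (VL m V) (W (m + 1) p) = Star m P p V + pf m P p ^ 2 := by
  rw [T_formula h.van _ _ (by simp [VL]) (by simp) hg.ok]
  have e1 : ∑ i ∈ range m, Yw m P (VL m V) (W (m + 1) p) i *
        (Zw m P (VL m V) (W (m + 1) p) i - Zw m P (VL m V) (W (m + 1) p) (i + 1))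
      = ∑ i ∈ range m, (fun j => pf m P (mixY p V (j + 1)) *
        (pf m P (mixZ p V (j + 2)) - pf m P (mixZ p V (j + 1)))) (m - 1 - i) := by
    apply Finset.sum_congr rfl
    intro i hi
    rw [Finset.mem_range] at hi
    rw [Yw_eq p V (by omega), Zw_eq p V (by omega), Zw_eq p V (by omega)]
    simp only
    rw [show m - 1 - i + 1 = m - i by omega, show m - 1 - i + 2 = m + 1 - i by omega,
      show m + 1 - (i + 1) = m - i by omega]
  rw [e1, Finset.sum_range_reflect (fun j => pf m P (mixY p V (j + 1)) *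
        (pf m P (mixZ p V (j + 2)) - pf m P (mixZ p V (j + 1)))) m, Zw_eq p V le_rfl]
  have e2 : ∑ j ∈ range m, pf m P (mixY p V (j + 1)) *
        (pf m P (mixZ p V (j + 2)) - pf m P (mixZ p V (j + 1)))
      = Star m P p V + (pf m P (mixZ p V (m + 1)) - pf m P (mixZ p V 1)) * pf m P p := by
    unfold Star
    rw [← Finset.sum_range_sub (fun j => pf m P (mixZ p V (j + 1))) m, Finset.sum_mul,
      ← Finset.sum_add_distrib]
    apply Finset.sum_congr rfl
    intro j _
    ring
  rw [e2]
  have e3 : pf m P (mixZ p V (m + 1)) = pf m P p := by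
    unfold pf
    congr 1
    apply List.map_congr_left
    intro a ha
    rw [List.mem_range] at ha
    simp [mixZ, ha]
  have e4 : P (W (m + 1) p) = pf m P p := rfl
  rw [e3, e4, show m + 1 - m = 1 by omega]
  ring

lemma star_zero (h : Sys m P) {p V : ℕ → ℕ} (hg : GoodPair m p V) : Star m P p V = 0 := by
  -- scale by 3
  have hg3 : GoodPair m (fun k => 3 * p k) (fun k => 3 * V k) := by
    refine ⟨⟨?_, ?_⟩, ?_, ?_, ?_⟩
    · intro a b ha hb hab
      have hab' : 3 * p a = 3 * p b := hab
      exact hg.gp.1 a b ha hb (by omega)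
    · intro a ha
      have := hg.gp.2 a ha
      show 0 < 3 * p a
      omega
    · intro a b h1 h2 h3 h4 hab
      exact hg.gv a b h1 h2 h3 h4 (by omega)
    · intro a h1 h2
      have := hg.pv a h1 h2
      omega
    · intro a b h1 h2 h3 hab
      exact hg.dis a b h1 h2 h3 (by omega)
  have hg0 : GoodPair m (fun k => 3 * p k) (fun k => 3 * p k + 1) := by
    refine ⟨hg3.gp, ?_, ?_, ?_⟩
    · intro a b h1 h2 h3 h4 hab
      exact hg.gp.1 a b (by omega) (by omega) (by omega)
    · intro a h1 h2
      omega
    · intro a b h1 h2 h3 hab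
      omega
  have e1 : Star m P p V = Star m P (fun k => 3 * p k) (fun k => 3 * V k) := by
    unfold Star
    have hz : ∀ j, 1 ≤ j → pf m P (mixZ p V j)
        = pf m P (mixZ (fun k => 3 * p k) (fun k => 3 * V k) j) := by
      intro j hj
      apply h.pinv (hg.mixZ hj) (hg3.mixZ hj)
      intro a b _ _
      simp only [mixZ]
      split_ifs <;> omega
    have hy : ∀ j, j ≤ m → pf m P (mixY p V j)
        = pf m P (mixY (fun k => 3 * p k) (fun k => 3 * V k) j) := by
      intro j hj
      apply h.pinv (hg.mixY hj) (hg3.mixY hj)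
      intro a b _ _
      simp only [mixY]
      split_ifs <;> omega
    have hp : pf m P p = pf m P (fun k => 3 * p k) := by
      apply h.pinv hg.gp hg3.gp
      intro a b _ _
      omega
    apply Finset.sum_congr rfl
    intro j hj
    rw [Finset.mem_range] at hj
    rw [hz _ (by omega), hz _ (by omega), hy _ (by omega), hp]
  have e2 : Star m P (fun k => 3 * p k) (fun k => 3 * p k + 1) = 0 := by
    unfold Star
    apply Finset.sum_eq_zero
    intro j hj
    have hz : ∀ j, 1 ≤ j → pf m P (mixZ (fun k => 3 * p k) (fun k => 3 * p k + 1) j)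
        = pf m P (fun k => 3 * p k) := by
      intro j hj
      apply h.pinv (hg0.mixZ hj) hg3.gp
      intro a b ha hb
      simp only [mixZ]
      have := hg.gp.1 a b ha hb
      by_cases hab : a = b
      · subst hab; simp
      · have hne : p a ≠ p b := fun h => hab (this h)
        split_ifs <;> omega
    rw [hz _ (by omega), hz _ (by omega)]
    ring
  have t1 := T_star h hg3
  have t2 := T_star h hg0
  have t3 := h.ti (VL m (fun k => 3 * V k)) (VL m (fun k => 3 * p k + 1)) (W (m + 1) (fun k => 3 * p k))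
    (by simp [VL]) (by simp [VL]) (by simp) hg3.ok hg0.ok
  rw [t3, t2] at t1
  rw [e1]
  linarith [t1, e2]

/-- Deletion of a letter. -/
def del (w : ℕ → ℕ) (j : ℕ) : ℕ → ℕ := fun a => if a < j then w a else w (a + 1)

lemma Good.del {w : ℕ → ℕ} (h : Good (m + 2) w) (j : ℕ) : Good (m + 1) (del w j) := by
  refine ⟨?_, ?_⟩
  · intro a b ha hb hab
    simp only [Bic.del] at hab
    split_ifs at hab with h1 h2 h2
    · exact h.1 a b (by omega) (by omega) hab
    · have := h.1 a (b + 1) (by omega) (by omega) hab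
      omega
    · have := h.1 (a + 1) b (by omega) (by omega) hab
      omega
    · have := h.1 (a + 1) (b + 1) (by omega) (by omega) hab
      omega
  · intro a ha
    simp only [Bic.del]
    split_ifs
    · exact h.2 a (by omega)
    · exact h.2 (a + 1) (by omega)

lemma sum_Ico_tele (f : ℕ → ℚ) {j k : ℕ} (h : j ≤ k) :
    ∑ J ∈ Ico j k, (f (J + 1) - f J) = f k - f j := by
  induction k, h using Nat.le_induction with
  | base => simp
  | succ k hk ih => rw [Finset.sum_Ico_succ_top hk, ih]; ring

lemma e4 (h : Sys m P) {w : ℕ → ℕ} (hw : Good (m + 2) w) {i j k : ℕ} (hij : i < j) (hjk : j < k)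
    (hk : k ≤ m + 1) :
    (pf m P (del w j) - pf m P (del w k)) * (pf m P (del w i) - pf m P (del w j)) = 0 := by
  set σ : ℕ → ℕ := fun a => if a ≤ i then a - 1 else if a < k then a else a + 1 with hσ
  set p : ℕ → ℕ := fun a => 3 * del w j a with hp
  set V : ℕ → ℕ := fun a => 3 * w (σ a) + 1 with hV
  have hdj := hw.del j
  have hg : GoodPair m p V := by
    refine ⟨⟨?_, ?_⟩, ?_, ?_, ?_⟩
    · intro a b ha hb hab
      exact hdj.1 a b ha hb (by simp only [hp] at hab; omega)
    · intro a ha
      have := hdj.2 a ha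
      simp only [hp]; omega
    · intro a b h1 h2 h3 h4 hab
      have hab' : w (σ a) = w (σ b) := by simp only [hV] at hab; omega
      have hsa : σ a < m + 2 := by simp only [hσ]; split_ifs <;> omega
      have hsb : σ b < m + 2 := by simp only [hσ]; split_ifs <;> omega
      have := hw.1 _ _ hsa hsb hab'
      simp only [hσ] at this
      split_ifs at this <;> omega
    · intro a h1 h2
      simp only [hV]; omega
    · intro a b h1 h2 h3 hab
      simp only [hp, hV] at hab; omega
  have hs := star_zero h hg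
  -- order comparison helper
  have cmp : ∀ (f : ℕ → ℕ) (q : ℕ), Good (m + 1) f →
      (∀ a, a ≤ m → f a = 3 * del w q a ∨ f a = 3 * del w q a + 1) →
      pf m P f = pf m P (del w q) := by
    intro f q hf hfa
    apply h.pinv hf (hw.del q)
    intro a b ha hb
    by_cases hab : a = b
    · subst hab; simp
    · have hne : del w q a ≠ del w q b := fun hh => hab ((hw.del q).1 a b ha hb hh)
      rcases hfa a (by omega) with h1 | h1 <;> rcases hfa b (by omega) with h2 | h2 <;>
        rw [h1, h2] <;> omega
  have hA : pf m P p = pf m P (del w j) := cmp p j hg.gp (fun a _ => Or.inl rfl)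
  have hZ1 : ∀ J, i < J → J ≤ j → pf m P (mixZ p V J) = pf m P (del w k) := by
    intro J h1 h2
    apply cmp _ k (hg.mixZ (by omega))
    intro a ha
    simp only [mixZ, hp, hV, hσ, Bic.del]
    by_cases ha1 : a < J
    · rw [if_pos ha1, if_pos (by omega), if_pos (by omega)]; exact Or.inl rfl
    · rw [if_neg ha1, if_neg (by omega)]
      by_cases ha2 : a < k
      · rw [if_pos ha2, if_pos ha2]; exact Or.inr rfl
      · rw [if_neg ha2, if_neg ha2]; exact Or.inr rfl
  have hZ2 : ∀ J, k ≤ J → pf m P (mixZ p V J) = pf m P (del w j) := by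
    intro J h1
    apply cmp _ j (hg.mixZ (by omega))
    intro a ha
    simp only [mixZ, hp, hV, hσ, Bic.del]
    by_cases ha1 : a < J
    · rw [if_pos ha1]; exact Or.inl rfl
    · rw [if_neg ha1, if_neg (by omega), if_neg (by omega), if_neg (by omega)]; exact Or.inr rfl
  have hY1 : ∀ J, J ≤ i → pf m P (mixY p V J) = pf m P (del w j) := by
    intro J h1
    apply cmp _ j (hg.mixY (by omega))
    intro a ha
    simp only [mixY, hp, hV, hσ, Bic.del]
    by_cases ha1 : a < J
    · rw [if_pos ha1, if_pos (by omega), if_pos (by omega), Nat.add_sub_cancel]; exact Or.inr rfl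
    · rw [if_neg ha1]; exact Or.inl rfl
  have hY2 : ∀ J, j ≤ J → J < k → pf m P (mixY p V J) = pf m P (del w i) := by
    intro J h1 h2
    apply cmp _ i (hg.mixY (by omega))
    intro a ha
    simp only [mixY, hp, hV, hσ, Bic.del]
    by_cases ha1 : a < J
    · rw [if_pos ha1]
      by_cases ha2 : a < i
      · rw [if_pos (by omega), if_pos ha2, Nat.add_sub_cancel]; exact Or.inr rfl
      · rw [if_neg (by omega), if_pos (by omega), if_neg ha2]; exact Or.inr rfl
    · rw [if_neg ha1, if_neg (by omega), if_neg (by omega)]; exact Or.inl rfl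
  have hsum : Star m P p V = (pf m P (del w j) - pf m P (del w k)) *
      (pf m P (del w i) - pf m P (del w j)) := by
    unfold Star
    rw [hA]
    have e0 : ∑ J ∈ range m, (pf m P (mixZ p V (J + 2)) - pf m P (mixZ p V (J + 1))) *
        (pf m P (mixY p V (J + 1)) - pf m P (del w j))
        = ∑ J ∈ Ico 1 (m + 1), (pf m P (mixZ p V (J + 1)) - pf m P (mixZ p V J)) *
        (pf m P (mixY p V J) - pf m P (del w j)) := by
      rw [Finset.sum_Ico_eq_sum_range]
      apply Finset.sum_congr (by simp)
      intro x _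
      rw [show 1 + x + 1 = x + 2 by ring, show 1 + x = x + 1 by ring]
    rw [e0, ← Finset.sum_Ico_consecutive _ (show 1 ≤ j by omega) (show j ≤ m + 1 by omega),
      ← Finset.sum_Ico_consecutive _ (show j ≤ k by omega) (show k ≤ m + 1 by omega)]
    have z1 : ∑ J ∈ Ico 1 j, (pf m P (mixZ p V (J + 1)) - pf m P (mixZ p V J)) *
        (pf m P (mixY p V J) - pf m P (del w j)) = 0 := by
      apply Finset.sum_eq_zero
      intro J hJ
      rw [Finset.mem_Ico] at hJ
      by_cases hJi : J ≤ i
      · rw [hY1 J hJi]; ring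
      · rw [hZ1 (J + 1) (by omega) (by omega), hZ1 J (by omega) (by omega)]; ring
    have z3 : ∑ J ∈ Ico k (m + 1), (pf m P (mixZ p V (J + 1)) - pf m P (mixZ p V J)) *
        (pf m P (mixY p V J) - pf m P (del w j)) = 0 := by
      apply Finset.sum_eq_zero
      intro J hJ
      rw [Finset.mem_Ico] at hJ
      rw [hZ2 (J + 1) (by omega), hZ2 J (by omega)]; ring
    have z2 : ∑ J ∈ Ico j k, (pf m P (mixZ p V (J + 1)) - pf m P (mixZ p V J)) *
        (pf m P (mixY p V J) - pf m P (del w j))
        = (pf m P (del w j) - pf m P (del w k)) * (pf m P (del w i) - pf m P (del w j)) := by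
      have : ∀ J ∈ Ico j k, (pf m P (mixZ p V (J + 1)) - pf m P (mixZ p V J)) *
          (pf m P (mixY p V J) - pf m P (del w j))
          = (pf m P (mixZ p V (J + 1)) - pf m P (mixZ p V J)) *
          (pf m P (del w i) - pf m P (del w j)) := by
        intro J hJ
        rw [Finset.mem_Ico] at hJ
        rw [hY2 J hJ.1 hJ.2]
      rw [Finset.sum_congr rfl this, ← Finset.sum_mul,
        sum_Ico_tele (fun J => pf m P (mixZ p V J)) (by omega), hZ2 k le_rfl, hZ1 j hij le_rfl]
    rw [z1, z2, z3]; ring
  rw [← hsum, hs]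

end Pool.Agent.V1184.Bic
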