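import Pool.Agent.V1184.Bic.Lie

/-!
Permutation statistics, shuffles, and the consequences of bicompatibility at the first level on
which the statistic is not constant.
-/

namespace Pool.Agent.V1184.Bic

open Finset

variable {α : Type*}

/-- Two words have the same relative order. -/
def SameOrder (p q : List ℕ) : Prop :=
  p.length = q.length ∧ ∀ i j, i < p.length → j < p.length →
    (p.getD i 0 < p.getD j 0 ↔ q.getD i 0 < q.getD j 0)

/-- `st` is a permutation statistic: it only depends on the relative order. -/
def IsStatistic (st : List ℕ → α) : Prop :=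
  ∀ p q, Ok p → Ok q → SameOrder p q → st p = st q

/-- The set of shuffles of two words. -/
def Sh (p q : List ℕ) : Set (List ℕ) :=
  {w | Ok w ∧ w.length = p.length + q.length ∧ p.Sublist w ∧ q.Sublist w}

/-- Shuffle-compatibility: the multiset of values of `st` on the shuffles of two disjoint
permutations only depends on the values of `st` on them and on their lengths. -/
def ShuffleCompatible (st : List ℕ → α) : Prop :=
  ∀ p q p' q', Ok p → Ok q → Ok p' → Ok q' → p.Disjoint q → p'.Disjoint q' →
    p.length = p'.length → q.length = q'.length → st p = st p' → st q = st q' →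
    ∀ c, {w ∈ Sh p q | st w = c}.ncard = {w ∈ Sh p' q' | st w = c}.ncard

/-- Substring-compatibility. -/
def SubstringCompatible (st : List ℕ → α) : Prop :=
  ∀ p q, Ok p → Ok q → p.length = q.length → st p = st q →
    ∀ i j, st ((p.drop i).take j) = st ((q.drop i).take j)

/-- The list of shuffles. -/
def shl : List ℕ → List ℕ → List (List ℕ)
  | [], v => [v]
  | a :: u, [] => [a :: u]
  | a :: u, b :: v => (shl u (b :: v)).map (fun w => a :: w) ++ (shl (a :: u) v).map (fun w => b :: w)

@[simp] lemma shl_nil_left (v : List ℕ) : shl [] v = [v] := by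
  cases v <;> simp [shl]

@[simp] lemma shl_nil_right (u : List ℕ) : shl u [] = [u] := by
  cases u <;> simp [shl]

lemma shl_cons_cons (a b : ℕ) (u v : List ℕ) : shl (a :: u) (b :: v)
    = (shl u (b :: v)).map (fun w => a :: w) ++ (shl (a :: u) v).map (fun w => b :: w) := by
  rw [shl]

lemma S_eq_sum (u v : List ℕ) (F : List ℕ → ℚ) : S u v F = ((shl u v).map F).sum := by
  induction u generalizing v F with
  | nil => simp
  | cons a u ihu =>
    induction v generalizing F with
    | nil => simp
    | cons b v ihv =>
      rw [S_cons_cons, shl_cons_cons, ihu, ihv]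
      simp [Function.comp_def]

lemma of_mem_shl (u v : List ℕ) : ∀ w ∈ shl u v, w.Perm (u ++ v) ∧ u.Sublist w ∧ v.Sublist w := by
  induction u generalizing v with
  | nil => intro w hw; simp at hw; subst hw; simp
  | cons a u ihu =>
    induction v with
    | nil => intro w hw; simp at hw; subst hw; simp
    | cons b v ihv =>
      intro w hw
      rw [shl_cons_cons, List.mem_append, List.mem_map, List.mem_map] at hw
      rcases hw with ⟨w', hw', rfl⟩ | ⟨w', hw', rfl⟩
      · obtain ⟨h1, h2, h3⟩ := ihu (b :: v) w' hw'
        exact ⟨by simpa using h1, h2.cons_cons a, h3.cons a⟩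
      · obtain ⟨h1, h2, h3⟩ := ihv w' hw'
        refine ⟨?_, h2.cons b, h3.cons_cons b⟩
        exact (h1.cons b).trans (by simpa using (List.perm_middle (a := b) (l₁ := a :: u) (l₂ := v)).symm)

lemma cons_mem_shl_left (a : ℕ) (u v w : List ℕ) (h : w ∈ shl u v) : a :: w ∈ shl (a :: u) v := by
  cases v with
  | nil => simp at h ⊢; exact h
  | cons b v =>
    rw [shl_cons_cons, List.mem_append]
    exact Or.inl (List.mem_map.mpr ⟨w, h, rfl⟩)

lemma cons_mem_shl_right (b : ℕ) (u v w : List ℕ) (h : w ∈ shl u v) : b :: w ∈ shl u (b :: v) := by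
  cases u with
  | nil => simp at h ⊢; exact h
  | cons a u =>
    rw [shl_cons_cons, List.mem_append]
    exact Or.inr (List.mem_map.mpr ⟨w, h, rfl⟩)

lemma mem_shl_of (w : List ℕ) : ∀ (u v : List ℕ), u.Disjoint v → w.Nodup →
    w.length = u.length + v.length → u.Sublist w → v.Sublist w → w ∈ shl u v := by
  induction w with
  | nil =>
    intro u v _ _ hl _ _
    simp at hl
    have hu : u = [] := List.length_eq_zero_iff.mp (by omega)
    have hv : v = [] := List.length_eq_zero_iff.mp (by omega)
    subst hu; subst hv; simp
  | cons t w ih =>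
    intro u v hd hn hl hu hv
    have hn' := (List.nodup_cons.mp hn)
    rw [List.sublist_cons_iff] at hu hv
    rcases hu with hu | ⟨u', rfl, hu⟩
    · rcases hv with hv | ⟨v', rfl, hv⟩
      · exfalso
        have h1 : (u ++ v).Nodup :=
          (hn'.2.sublist hu).append (hn'.2.sublist hv) hd
        have h2 : u ++ v ⊆ w := by
          intro x hx
          rcases List.mem_append.mp hx with h | h
          · exact hu.subset h
          · exact hv.subset h
        have h3 := (h1.subperm h2).length_le
        simp at h3 hl
        omega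
      · apply cons_mem_shl_right
        apply ih _ _ (fun x hx hy => hd hx (List.mem_cons_of_mem _ hy)) hn'.2 (by simp at hl ⊢; omega) hu hv
    · rcases hv with hv | ⟨v', rfl, hv⟩
      · apply cons_mem_shl_left
        apply ih _ _ (fun x hx hy => hd (List.mem_cons_of_mem _ hx) hy) hn'.2 (by simp at hl ⊢; omega) hu hv
      · exact absurd (List.mem_cons_self) (hd (List.mem_cons_self))

lemma nodup_shl (u v : List ℕ) (h : (u ++ v).Nodup) : (shl u v).Nodup := by
  induction u generalizing v with
  | nil => simp
  | cons a u ihu =>
    induction v with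
    | nil => simp
    | cons b v ihv =>
      rw [shl_cons_cons]
      apply List.Nodup.append
      · apply List.Nodup.map (fun x y hxy => by simpa using hxy)
        apply ihu
        simp only [List.cons_append, List.nodup_cons] at h
        exact h.2
      · apply List.Nodup.map (fun x y hxy => by simpa using hxy)
        apply ihv
        exact List.Nodup.sublist (List.Sublist.append_left (List.sublist_cons_self b v) _) h
      · intro x hx hy
        rw [List.mem_map] at hx hy
        obtain ⟨x1, _, rfl⟩ := hx
        obtain ⟨x2, _, h2⟩ := hy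
        have hab : b = a := by
          have := congrArg List.head? h2
          simpa using this
        subst hab
        simp at h

lemma mem_shl_iff (u v w : List ℕ) (h : Ok (u ++ v)) : w ∈ shl u v ↔ w ∈ Sh u v := by
  constructor
  · intro hw
    obtain ⟨h1, h2, h3⟩ := of_mem_shl u v w hw
    exact ⟨h.perm h1, by simpa using h1.length_eq, h2, h3⟩
  · rintro ⟨h1, h2, h3, h4⟩
    exact mem_shl_of w u v (List.disjoint_of_nodup_append h.1) h1.1 h2 h3 h4

lemma ncard_eq (st : List ℕ → α) (u v : List ℕ) (h : Ok (u ++ v)) (c : α) :
    {w ∈ Sh u v | st w = c}.ncard = letI := Classical.decEq α; ((shl u v).map st).count c := by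
  classical
  have e : {w ∈ Sh u v | st w = c} = (((shl u v).filter (fun w => st w = c)).toFinset : Set (List ℕ)) := by
    ext w
    simp [mem_shl_iff u v w h]
  rw [e, Set.ncard_coe_finset, List.toFinset_card_of_nodup ((nodup_shl u v h.1).filter _)]
  rw [List.count_eq_countP, List.countP_map, List.countP_eq_length_filter]
  congr 1

lemma map_perm {st : List ℕ → α} (hs : ShuffleCompatible st) {u v u' v' : List ℕ}
    (h : Ok (u ++ v)) (h' : Ok (u' ++ v')) (hu : u.length = u'.length) (hv : v.length = v'.length)
    (su : st u = st u') (sv : st v = st v') :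
    ((shl u v).map st).Perm ((shl u' v').map st) := by
  classical
  rw [List.perm_iff_count]
  intro c
  have := hs u v u' v' (h.sublist (List.sublist_append_left _ _))
    (h.sublist (List.sublist_append_right _ _)) (h'.sublist (List.sublist_append_left _ _))
    (h'.sublist (List.sublist_append_right _ _)) (List.disjoint_of_nodup_append h.1)
    (List.disjoint_of_nodup_append h'.1) hu hv su sv c
  rw [ncard_eq st u v h c, ncard_eq st u' v' h' c] at this
  convert this

lemma inv_sum {st : List ℕ → α} (hs : ShuffleCompatible st) {u v u' v' : List ℕ}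
    (h : Ok (u ++ v)) (h' : Ok (u' ++ v')) (hu : u.length = u'.length) (hv : v.length = v'.length)
    (su : st u = st u') (sv : st v = st v') (f : List ℕ → ℚ)
    (hf : ∀ w w', Ok w → Ok w' → w.length = u.length + v.length → w'.length = u.length + v.length →
      st w = st w' → f w = f w') : S u v f = S u' v' f := by
  classical
  let Φ : α → ℚ := fun c => if hc : ∃ w, Ok w ∧ w.length = u.length + v.length ∧ st w = c then
    f hc.choose else 0
  have hΦ : ∀ w, Ok w → w.length = u.length + v.length → f w = Φ (st w) := by
    intro w hw hl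
    have hc : ∃ w', Ok w' ∧ w'.length = u.length + v.length ∧ st w' = st w := ⟨w, hw, hl, rfl⟩
    simp only [Φ]
    rw [dif_pos hc]
    obtain ⟨h1, h2, h3⟩ := hc.choose_spec
    exact hf _ _ hw h1 hl h2 h3.symm
  have e1 : S u v f = S u v (fun w => Φ (st w)) := by
    apply S_congr
    intro w hw
    exact hΦ w (h.perm hw) (by simpa using hw.length_eq)
  have e2 : S u' v' f = S u' v' (fun w => Φ (st w)) := by
    apply S_congr
    intro w hw
    exact hΦ w (h'.perm hw) (by rw [hu, hv]; simpa using hw.length_eq)
  rw [e1, e2, S_eq_sum, S_eq_sum]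
  have hp := (map_perm hs h h' hu hv su sv).map Φ
  rw [List.map_map, List.map_map] at hp
  exact hp.sum_eq

/-- `st` is constant on every length `< n`. -/
def Low (n : ℕ) (st : List ℕ → α) : Prop :=
  ∀ p q, Ok p → Ok q → p.length = q.length → p.length < n → st p = st q

lemma ok_range (n : ℕ) : Ok ((List.range n).map (fun k => k + 1)) := by
  refine ⟨List.Nodup.map (fun a b h => by simpa using h) List.nodup_range, ?_⟩
  intro x hx
  rw [List.mem_map] at hx
  obtain ⟨k, _, rfl⟩ := hx
  omega

lemma exists_rho {n : ℕ} (hn : 2 ≤ n) {st : List ℕ → α} (hs : ShuffleCompatible st)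
    (hl : Low n st) (φ : α → ℚ) : ∃ ρ : ℚ, Van n (fun w => φ (st w) - ρ) := by
  set G : List ℕ → ℚ := fun w => φ (st w) with hG
  -- reference pair
  obtain ⟨a0, v0, h0⟩ : ∃ a0 v0, (List.range n).map (fun k => k + 1) = a0 :: v0 := by
    rcases h : (List.range n).map (fun k => k + 1) with _ | ⟨a, v⟩
    · have := congrArg List.length h
      simp at this; omega
    · exact ⟨a, v, rfl⟩
  have hok0 : Ok ([a0] ++ v0) := by
    have := ok_range n
    rw [h0] at this
    simpa using this
  have hlen0 : v0.length + 1 = n := by
    have := congrArg List.length h0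
    simp at this; omega
  set κ1 := S [a0] v0 G with hκ1
  refine ⟨κ1 / n, ?_⟩
  intro u v hu hv hok hlen
  obtain ⟨a, u', rfl⟩ : ∃ a u', u = a :: u' := by
    cases u with
    | nil => exact absurd rfl hu
    | cons a u' => exact ⟨a, u', rfl⟩
  have hvl : 1 ≤ v.length := by
    cases v with
    | nil => exact absurd rfl hv
    | cons b v => simp
  simp only [List.length_cons] at hlen
  have hassoc := S_assoc [a] u' v G
  have hGr : ∀ w w' : List ℕ, Ok w → Ok w' → ∀ k : ℕ, w.length = k → w'.length = k →
      st w = st w' → G w = G w' := by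
    intro w w' _ _ k _ _ h
    simp [hG, h]
  have eL : S [a] u' (fun w => S w v G) = S [a] u' (fun _ => S (a :: u') v G) := by
    apply S_congr
    intro w hw
    have hw' : w.Perm (a :: u') := by simpa using hw
    have hokw : Ok (w ++ v) := hok.perm (hw'.append_right v)
    have hlw : w.length = (a :: u').length := hw'.length_eq
    apply inv_sum hs hokw hok hlw rfl
    · apply hl _ _ (hokw.sublist (List.sublist_append_left _ _))
        (hok.sublist (List.sublist_append_left _ _)) hlw
      rw [hlw]; simp; omega
    · rfl
    · intro w1 w2 h1 h2 h3 h4 h5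
      exact hGr w1 w2 h1 h2 _ h3 h4 h5
  have eR : S u' v (fun y => S [a] y G) = S u' v (fun _ => κ1) := by
    apply S_congr
    intro y hy
    have hoky : Ok ([a] ++ y) := by
      apply hok.perm
      simpa using hy.cons a
    have hly : y.length = v0.length := by
      have := hy.length_eq
      simp at this; omega
    apply inv_sum hs hoky hok0 (by simp) hly
    · apply hl _ _ (hoky.sublist (List.sublist_append_left _ _))
        (hok0.sublist (List.sublist_append_left _ _)) (by simp)
      simp; omega
    · apply hl _ _ (hoky.sublist (List.sublist_append_right _ _))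
        (hok0.sublist (List.sublist_append_right _ _)) hly
      omega
    · intro w1 w2 h1 h2 h3 h4 h5
      exact hGr w1 w2 h1 h2 _ h3 h4 h5
  rw [eL, eR, S_one, S_one] at hassoc
  rw [S_sub, S_one]
  set κ := S (a :: u') v G with hκ
  have c1 : ((([a] : List ℕ).length + u'.length).choose ([a] : List ℕ).length : ℚ) = (u'.length : ℚ) + 1 := by
    simp [add_comm]
  rw [c1] at hassoc
  have e3 : (a :: u').length + v.length = n := by simp; omega
  rw [e3]
  have e4 : u'.length + v.length = n - 1 := by omega
  rw [e4] at hassoc
  obtain ⟨n', rfl⟩ : ∃ n', n = n' + 1 := ⟨n - 1, by omega⟩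
  simp only [Nat.add_sub_cancel] at hassoc
  have hch := Nat.add_one_mul_choose_eq n' u'.length
  have hch' : ((n' : ℚ) + 1) * (n'.choose u'.length : ℚ)
      = ((n' + 1).choose (u'.length + 1) : ℚ) * ((u'.length : ℚ) + 1) := by
    exact_mod_cast hch
  have hp : ((u'.length : ℚ) + 1) ≠ 0 := by positivity
  have hn1 : ((n' : ℚ) + 1) ≠ 0 := by positivity
  rw [List.length_cons]
  have hne : ((u'.length : ℚ) + 1) * (κ - ((n' + 1).choose (u'.length + 1) : ℚ) * (κ1 / ((n' + 1 : ℕ) : ℚ))) = 0 := by
    push_cast
    have : ((u'.length : ℚ) + 1) * (((n' + 1).choose (u'.length + 1) : ℚ) * (κ1 / ((n' : ℚ) + 1)))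
        = (n'.choose u'.length : ℚ) * κ1 := by
      rw [show ((u'.length : ℚ) + 1) * (((n' + 1).choose (u'.length + 1) : ℚ) * (κ1 / ((n' : ℚ) + 1)))
        = (((n' + 1).choose (u'.length + 1) : ℚ) * ((u'.length : ℚ) + 1)) * κ1 / ((n' : ℚ) + 1) by ring]
      rw [← hch']
      field_simp
    rw [mul_sub, this, hassoc]
    ring
  rcases mul_eq_zero.mp hne with h | h
  · exact absurd h hp
  · exact h

lemma T_inv {m : ℕ} {st : List ℕ → α} (hs : ShuffleCompatible st) (hsub : SubstringCompatible st)
    (hl : Low (m + 1) st) (φ : α → ℚ) (ρ : ℚ) (u u' p : List ℕ) (hu : u.length = m)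
    (hu' : u'.length = m) (hp : p.length = m + 1) (hok : Ok (u ++ p)) (hok' : Ok (u' ++ p)) :
    T m (fun w => φ (st w) - ρ) u p = T m (fun w => φ (st w) - ρ) u' p := by
  unfold T
  apply inv_sum hs hok hok' (by omega) rfl
  · apply hl _ _ (hok.sublist (List.sublist_append_left _ _))
      (hok'.sublist (List.sublist_append_left _ _)) (by omega) (by omega)
  · rfl
  · intro w w' hw hw' h1 h2 h3
    have e1 := hsub w w' hw hw' (by omega) h3 0 (m + 1)
    have e2 := hsub w w' hw hw' (by omega) h3 m (m + 1)
    simp only [List.drop_zero] at e1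
    rw [List.take_of_length_le (by simp; omega), List.take_of_length_le (by simp; omega)] at e2
    simp only [e1, e2]

end Pool.Agent.V1184.Bic
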