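import Pool.Agent.V1184.Bic.Star

/-!
Words with one or two big letters, the second relation, and single letter balance.
-/

namespace Pool.Agent.V1184.Bic

open Finset

variable {m : ℕ} {P : List ℕ → ℚ}

lemma good_ofR {k : ℕ} {w : ℕ → ℕ} (R : ℕ → ℕ → Prop)
    (tot : ∀ a b, a < k → b < k → a ≠ b → R a b ∨ R b a)
    (hw : ∀ a b, a < k → b < k → R a b → w a < w b) (pos : ∀ a, a < k → 0 < w a) : Good k w := by
  refine ⟨?_, pos⟩
  intro a b ha hb hab
  by_contra hne
  rcases tot a b ha hb hne with h | h
  · have := hw a b ha hb h; omega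
  · have := hw b a hb ha h; omega

lemma iff_ofR {k : ℕ} {w w' : ℕ → ℕ} (R : ℕ → ℕ → Prop)
    (tot : ∀ a b, a < k → b < k → a ≠ b → R a b ∨ R b a)
    (hw : ∀ a b, a < k → b < k → R a b → w a < w b)
    (hw' : ∀ a b, a < k → b < k → R a b → w' a < w' b) :
    ∀ a b, a < k → b < k → (w a < w b ↔ w' a < w' b) := by
  intro a b ha hb
  by_cases hab : a = b
  · subst hab; simp
  · rcases tot a b ha hb hab with h | h
    · simp [hw a b ha hb h, hw' a b ha hb h]
    · have h1 := hw b a hb ha h
      have h2 := hw' b a hb ha h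
      constructor <;> intro <;> omega

/-- comparison table: one big letter at position `i`. -/
def R1 (i : ℕ) (a b : ℕ) : Prop := (a ≠ i ∧ b ≠ i ∧ a < b) ∨ (a ≠ i ∧ b = i)

/-- comparison table: the biggest letter at position `i`, the second biggest at position `j`. -/
def R2 (i j : ℕ) (a b : ℕ) : Prop :=
  (a ≠ i ∧ a ≠ j ∧ b ≠ i ∧ b ≠ j ∧ a < b) ∨ (a ≠ i ∧ a ≠ j ∧ (b = i ∨ b = j)) ∨ (a = j ∧ b = i)

lemma R1_tot (i a b : ℕ) (h : a ≠ b) : R1 i a b ∨ R1 i b a := by
  unfold R1; omega

lemma R2_tot {i j : ℕ} (hij : i ≠ j) (a b : ℕ) (h : a ≠ b) : R2 i j a b ∨ R2 i j b a := by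
  unfold R2; omega

def wJ (m i : ℕ) : ℕ → ℕ := fun k => if k = i then 4 * m + 21 else k + 1
def wG (m i j : ℕ) : ℕ → ℕ := fun k => if k = i then 4 * m + 21 else if k = j then 4 * m + 20 else k + 1

lemma wJ_R (i : ℕ) : ∀ a b, a < m + 2 → b < m + 2 → R1 i a b → wJ m i a < wJ m i b := by
  intro a b ha hb h
  unfold R1 at h
  simp only [wJ]
  split_ifs <;> omega

lemma wG_R {i j : ℕ} (hij : i ≠ j) :
    ∀ a b, a < m + 2 → b < m + 2 → R2 i j a b → wG m i j a < wG m i j b := by
  intro a b ha hb h
  unfold R2 at h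
  simp only [wG]
  split_ifs <;> omega

lemma wJ_pos (i a : ℕ) : 0 < wJ m i a := by
  simp only [wJ]; split_ifs <;> omega

lemma wG_pos (i j a : ℕ) : 0 < wG m i j a := by
  simp only [wG]; split_ifs <;> omega

lemma wJ_good (i : ℕ) : Good (m + 2) (wJ m i) :=
  good_ofR (R1 i) (fun a b _ _ h => R1_tot i a b h) (wJ_R i) (fun a _ => wJ_pos i a)

lemma wG_good {i j : ℕ} (hij : i ≠ j) : Good (m + 2) (wG m i j) :=
  good_ofR (R2 i j) (fun a b _ _ h => R2_tot hij a b h) (wG_R hij) (fun a _ => wG_pos i j a)

lemma Good.mono {k l : ℕ} {w : ℕ → ℕ} (h : Good k w) (hl : l ≤ k) : Good l w :=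
  ⟨fun a b ha hb hab => h.1 a b (by omega) (by omega) hab, fun a ha => h.2 a (by omega)⟩

lemma Sys.pfJ (h : Sys m P) {w : ℕ → ℕ} (i : ℕ) (pos : ∀ a, a < m + 1 → 0 < w a)
    (hw : ∀ a b, a < m + 1 → b < m + 1 → R1 i a b → w a < w b) : pf m P w = pf m P (wJ m i) := by
  apply h.pinv (good_ofR (R1 i) (fun a b _ _ h => R1_tot i a b h) hw pos) ((wJ_good i).mono (by omega))
  exact iff_ofR (R1 i) (fun a b _ _ h => R1_tot i a b h) hw
    (fun a b ha hb hr => wJ_R i a b (by omega) (by omega) hr)

lemma Sys.pfG (h : Sys m P) {w : ℕ → ℕ} {i j : ℕ} (hij : i ≠ j) (pos : ∀ a, a < m + 1 → 0 < w a)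
    (hw : ∀ a b, a < m + 1 → b < m + 1 → R2 i j a b → w a < w b) : pf m P w = pf m P (wG m i j) := by
  apply h.pinv (good_ofR (R2 i j) (fun a b _ _ h => R2_tot hij a b h) hw pos)
    ((wG_good hij).mono (by omega))
  exact iff_ofR (R2 i j) (fun a b _ _ h => R2_tot hij a b h) hw
    (fun a b ha hb hr => wG_R hij a b (by omega) (by omega) hr)

/-- The second relation, with two big letters `t1`, `t2`. -/
lemma ss_aux (h : Sys m P) {p r t1 t2 : ℕ} (hr : 2 ≤ r) (hpr : p + r ≤ m) (h1 : 3 * m + 10 < t1)
    (h2 : 3 * m + 10 < t2) (hne : t1 ≠ t2) :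
    ∃ w1 w2 : ℕ → ℕ,
      (∀ a, a < m + 1 → w1 a = if a = p + 1 then t1 else if a = p + r then t2 else
        if a < p + 1 then 3 * a + 3 else 3 * a + 4) ∧
      (∀ a, a < m + 1 → w2 a = if a = p then t1 else if a = p + r - 1 then t2 else
        if a < p then 3 * a + 4 else if a < p + r then 3 * a + 7 else 3 * a + 3) ∧
      (pf m P (wJ m (p + r)) - pf m P w1) * (pf m P (wJ m p) - pf m P (wJ m m))
        + (pf m P (wJ m m) - pf m P (wJ m (p + r))) * (pf m P w2 - pf m P (wJ m m)) = 0 := by
  set q : ℕ → ℕ := fun a => 3 * a + 3 with hq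
  set V : ℕ → ℕ := fun a => if a ≤ p then 3 * a + 1 else if a = p + 1 then t1 else
    if a = p + r then t2 else 3 * a + 4 with hV
  have hg : GoodPair m q V := by
    refine ⟨⟨?_, ?_⟩, ?_, ?_, ?_⟩
    · intro a b ha hb hab
      simp only [hq] at hab; omega
    · intro a ha
      simp only [hq]; omega
    · intro a b h3 h4 h5 h6 hab
      simp only [hV] at hab
      split_ifs at hab <;> omega
    · intro a h3 h4
      simp only [hV]
      split_ifs <;> omega
    · intro a b h3 h4 h5 hab
      simp only [hV, hq] at hab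
      split_ifs at hab <;> omega
  have hs := star_zero h hg
  refine ⟨mixZ q V (p + 1), mixY q V (p + r), ?_, ?_, ?_⟩
  · intro a ha
    simp only [mixZ, hq, hV]
    split_ifs <;> omega
  · intro a ha
    simp only [mixY, hq, hV]
    split_ifs <;> omega
  · have hI : pf m P q = pf m P (wJ m m) := by
      apply h.pfJ m
      · intro a _; simp only [hq]; omega
      · intro a b ha hb hR
        simp only [hq]; unfold R1 at hR; omega
    have hZ1 : ∀ J, p + r < J → pf m P (mixZ q V J) = pf m P (wJ m m) := by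
      intro J hJ
      apply h.pfJ m
      · intro a _; simp only [mixZ, hq, hV]; split_ifs <;> omega
      · intro a b ha hb hR
        unfold R1 at hR
        simp only [mixZ, hq, hV]
        split_ifs <;> omega
    have hZ2 : ∀ J, p + 2 ≤ J → J ≤ p + r → pf m P (mixZ q V J) = pf m P (wJ m (p + r)) := by
      intro J hJ1 hJ2
      apply h.pfJ (p + r)
      · intro a _; simp only [mixZ, hq, hV]; split_ifs <;> omega
      · intro a b ha hb hR
        unfold R1 at hR
        simp only [mixZ, hq, hV]
        split_ifs <;> omega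
    have hY1 : ∀ J, J ≤ p → pf m P (mixY q V J) = pf m P (wJ m m) := by
      intro J hJ
      apply h.pfJ m
      · intro a _; simp only [mixY, hq, hV]; split_ifs <;> omega
      · intro a b ha hb hR
        unfold R1 at hR
        simp only [mixY, hq, hV]
        split_ifs <;> omega
    have hY2 : pf m P (mixY q V (p + 1)) = pf m P (wJ m p) := by
      apply h.pfJ p
      · intro a _; simp only [mixY, hq, hV]; split_ifs <;> omega
      · intro a b ha hb hR
        unfold R1 at hR
        simp only [mixY, hq, hV]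
        split_ifs <;> omega
    unfold Star at hs
    rw [Finset.sum_eq_add (p) (p + r - 1) (by omega)] at hs
    · rw [show p + r - 1 + 2 = p + r + 1 by omega, show p + r - 1 + 1 = p + r by omega,
        hZ1 (p + r + 1) (by omega), hZ2 (p + r) (by omega) le_rfl, hZ2 (p + 2) le_rfl (by omega),
        hY2, hI] at hs
      exact hs
    · intro c hc hcc
      rw [Finset.mem_range] at hc
      by_cases c1 : c < p
      · rw [hY1 (c + 1) (by omega), hI]; ring
      · by_cases c2 : c + 1 < p + r
        · rw [hZ2 (c + 2) (by omega) (by omega), hZ2 (c + 1) (by omega) (by omega)]; ring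
        · rw [hZ1 (c + 2) (by omega), hZ1 (c + 1) (by omega)]; ring
    · intro hc
      exact absurd (Finset.mem_range.mpr (by omega)) hc
    · intro hc
      exact absurd (Finset.mem_range.mpr (by omega)) hc

lemma ss_gt (h : Sys m P) {p r : ℕ} (hr : 2 ≤ r) (hpr : p + r ≤ m) :
    (pf m P (wJ m (p + r)) - pf m P (wG m (p + 1) (p + r))) * (pf m P (wJ m p) - pf m P (wJ m m))
      + (pf m P (wJ m m) - pf m P (wJ m (p + r))) *
        (pf m P (wG m p (p + r - 1)) - pf m P (wJ m m)) = 0 := by
  obtain ⟨w1, w2, e1, e2, e3⟩ := ss_aux h hr hpr (t1 := 3 * m + 12) (t2 := 3 * m + 11)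
    (by omega) (by omega) (by omega)
  have f1 : pf m P w1 = pf m P (wG m (p + 1) (p + r)) := by
    apply h.pfG (by omega)
    · intro a ha; rw [e1 a ha]; split_ifs <;> omega
    · intro a b ha hb hR
      unfold R2 at hR
      rw [e1 a ha, e1 b hb]
      split_ifs <;> omega
  have f2 : pf m P w2 = pf m P (wG m p (p + r - 1)) := by
    apply h.pfG (by omega)
    · intro a ha; rw [e2 a ha]; split_ifs <;> omega
    · intro a b ha hb hR
      unfold R2 at hR
      rw [e2 a ha, e2 b hb]
      split_ifs <;> omega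
  rw [f1, f2] at e3
  exact e3

lemma ss_lt (h : Sys m P) {p r : ℕ} (hr : 2 ≤ r) (hpr : p + r ≤ m) :
    (pf m P (wJ m (p + r)) - pf m P (wG m (p + r) (p + 1))) * (pf m P (wJ m p) - pf m P (wJ m m))
      + (pf m P (wJ m m) - pf m P (wJ m (p + r))) *
        (pf m P (wG m (p + r - 1) p) - pf m P (wJ m m)) = 0 := by
  obtain ⟨w1, w2, e1, e2, e3⟩ := ss_aux h hr hpr (t1 := 3 * m + 11) (t2 := 3 * m + 12)
    (by omega) (by omega) (by omega)
  have f1 : pf m P w1 = pf m P (wG m (p + r) (p + 1)) := by
    apply h.pfG (by omega)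
    · intro a ha; rw [e1 a ha]; split_ifs <;> omega
    · intro a b ha hb hR
      unfold R2 at hR
      rw [e1 a ha, e1 b hb]
      split_ifs <;> omega
  have f2 : pf m P w2 = pf m P (wG m (p + r - 1) p) := by
    apply h.pfG (by omega)
    · intro a ha; rw [e2 a ha]; split_ifs <;> omega
    · intro a b ha hb hR
      unfold R2 at hR
      rw [e2 a ha, e2 b hb]
      split_ifs <;> omega
  rw [f1, f2] at e3
  exact e3

/-- Insertion of the letter `b` at position `l`. -/
def ins (v : ℕ → ℕ) (l b : ℕ) : ℕ → ℕ := fun k => if k < l then v k else if k = l then b else v (k - 1)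

lemma S_single (b : ℕ) (v : List ℕ) (F : List ℕ → ℚ) :
    S [b] v F = ∑ l ∈ range (v.length + 1), F (v.take l ++ b :: v.drop l) := by
  induction v generalizing F with
  | nil => simp
  | cons c v ih =>
    rw [S_cons_cons, ih, List.length_cons, Finset.sum_range_succ' _ (v.length + 1)]
    simp
    ring

lemma bal_zero (h : Sys m P) (hm : 1 ≤ m) {v : ℕ → ℕ} {b : ℕ} (hv : Good m v) (hb : 0 < b)
    (hne : ∀ a, a < m → v a ≠ b) : ∑ l ∈ range (m + 1), pf m P (ins v l b) = 0 := by
  have hok : Ok ([b] ++ W m v) := by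
    refine ⟨?_, ?_⟩
    · simp only [List.singleton_append, List.nodup_cons]
      refine ⟨?_, hv.ok.1⟩
      intro hx
      rw [W, List.mem_map] at hx
      obtain ⟨a, ha, hab⟩ := hx
      exact hne a (List.mem_range.mp ha) hab
    · intro x hx
      simp only [List.singleton_append, List.mem_cons] at hx
      rcases hx with rfl | hx
      · exact hb
      · exact hv.ok.2 x hx
  have h1 := h.van [b] (W m v) (by simp) (by
    intro hh
    have := congrArg List.length hh
    simp at this; omega) hok (by simp; omega)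
  rw [S_single, W_length] at h1
  rw [← h1]
  apply Finset.sum_congr rfl
  intro l hl
  rw [Finset.mem_range] at hl
  unfold pf
  congr 1
  apply List.ext_getElem
  · simp; omega
  · intro k h2 h3
    rw [W_length] at h2
    simp only [W, ins, List.getElem_append, List.getElem_take, List.getElem_map,
      List.getElem_range, List.getElem_cons, List.getElem_drop, List.length_take,
      List.length_map, List.length_range]
    by_cases c1 : k < l
    · simp [c1]; omega
    · by_cases c2 : k = l
      · subst c2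
        simp; omega
      · have c3 : ¬ (k < min l m) := by omega
        have c4 : ¬ (k - min l m = 0) := by omega
        simp only [c1, c2, c3, c4, if_false, dif_neg, not_false_eq_true]
        congr 1
        omega

end Pool.Agent.V1184.Bic
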